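import Mathlib

/-! Riesz means of order one through a contour integral. -/

namespace Pool.Agent.Lib.SW

open Finset Complex Filter Topology MeasureTheory

/-- the kernel -/
noncomputable def kr (s : ℂ) : ℂ := (s * (s + 1))⁻¹

lemma kr_le {s : ℂ} (hs : 1 / 2 ≤ s.re) : ‖kr s‖ ≤ 4 * (1 + s.im ^ 2)⁻¹ := by
  have h1 : ‖s‖ ≤ ‖s + 1‖ := by
    rw [← sq_le_sq₀ (norm_nonneg _) (norm_nonneg _), Complex.sq_norm, Complex.sq_norm, normSq_apply,
      normSq_apply]
    simp; nlinarith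
  have h2 : (1 + s.im ^ 2) / 4 ≤ ‖s‖ * ‖s‖ := by
    rw [← sq, Complex.sq_norm, normSq_apply]; nlinarith
  have h3 : (1 + s.im ^ 2) / 4 ≤ ‖s‖ * ‖s + 1‖ := h2.trans (by gcongr)
  rw [kr, norm_inv, norm_mul]
  refine (inv_anti₀ (by positivity) h3).trans (le_of_eq ?_)
  field_simp

lemma kr_ne {s : ℂ} (hs : 1 / 2 ≤ s.re) : s * (s + 1) ≠ 0 := by
  refine mul_ne_zero ?_ ?_ <;> intro h <;> have := congrArg re h <;> simp at this <;> linarith

lemma kr_cont {σ : ℝ} (hσ : 1 / 2 ≤ σ) : Continuous fun y : ℝ => kr (σ + y * I) :=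
  Continuous.inv₀ (by fun_prop) fun y => kr_ne (by simpa using hσ)

lemma kr_int {σ : ℝ} (hσ : 1 / 2 ≤ σ) : Integrable fun y : ℝ => kr (σ + y * I) :=
  (integrable_inv_one_add_sq.const_mul 4).mono' (kr_cont hσ).aestronglyMeasurable
    (Eventually.of_forall fun y => by simpa using kr_le (s := σ + y * I) (by simpa using hσ))

lemma riesz_eq {σ u : ℝ} (hσ : 1 / 2 ≤ σ) (hu : 0 < u) :
    (1 / (2 * Real.pi) : ℝ) • ∫ y : ℝ, (u : ℂ) ^ (-(σ + y * I)) * kr (σ + y * I) =
      ((max (1 - u) 0 : ℝ) : ℂ) := by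
  set f : ℝ → ℂ := fun t => ((max (1 - t) 0 : ℝ) : ℂ) with hf
  have hm : ∀ s : ℂ, 1 / 2 ≤ s.re → HasMellin f s (kr s) := by
    intro s hs
    have h1 := hasMellin_one_Ioc (s := s) (by linarith)
    have h2 := hasMellin_cpow_Ioc 1 (s := s) (by simp; linarith)
    have h3 := hasMellin_sub h1.1 h2.1
    rw [h1.2, h2.2] at h3
    have e : ∀ t ∈ Set.Ioi (0 : ℝ), (t : ℂ) ^ (s - 1) • ((Set.Ioc (0 : ℝ) 1).indicator
        (fun _ => (1 : ℂ)) t - (Set.Ioc (0 : ℝ) 1).indicator (fun t : ℝ => (t : ℂ) ^ (1 : ℂ)) t) =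
        (t : ℂ) ^ (s - 1) • f t := by
      intro t ht
      congr 1
      by_cases h : t ≤ 1
      · have : t ∈ Set.Ioc (0 : ℝ) 1 := ⟨ht, h⟩
        simp [hf, this, max_eq_left (sub_nonneg.2 h)]
      · have : t ∉ Set.Ioc (0 : ℝ) 1 := fun h' => h h'.2
        simp [hf, this, max_eq_right (sub_nonpos.2 (not_le.1 h).le)]
    refine ⟨(integrableOn_congr_fun e measurableSet_Ioi).1 h3.1, ?_⟩
    rw [mellin, ← setIntegral_congr_fun measurableSet_Ioi e]
    refine h3.2.trans ?_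
    have := kr_ne hs
    have h4 := left_ne_zero_of_mul this
    have h5 := right_ne_zero_of_mul this
    rw [kr]; field_simp; ring
  have e : ∀ y : ℝ, mellin f (σ + y * I) = kr (σ + y * I) := fun y => (hm _ (by simpa using hσ)).2
  have := mellinInv_mellin_eq σ f hu (hm σ (by simpa using hσ)).1
    (by simpa only [VerticalIntegrable, e] using kr_int hσ)
    (Continuous.continuousAt (by rw [hf]; fun_prop))
  simpa only [mellinInv, e, smul_eq_mul] using this

/-- Riesz mean -/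
noncomputable def Rz (a : ℕ → ℂ) (x : ℕ) : ℂ := ∑ n ∈ Ioc 0 x, a n * ((x : ℂ) - n)

lemma perron {a : ℕ → ℂ} {σ : ℝ} (hσ : 1 / 2 ≤ σ) (ha : LSeriesSummable a σ) {x : ℕ} (hx : 0 < x) :
    (Integrable fun y : ℝ => LSeries a (σ + y * I) * (x : ℂ) ^ (σ + y * I) * kr (σ + y * I)) ∧
    Rz a x = x * (1 / (2 * Real.pi) : ℝ) •
      ∫ y : ℝ, LSeries a (σ + y * I) * (x : ℂ) ^ (σ + y * I) * kr (σ + y * I) := by
  have hx' : (0 : ℝ) < x := by exact_mod_cast hx
  have hx'' : (x : ℂ) ≠ 0 := by exact_mod_cast hx.ne'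
  set G : ℕ → ℝ → ℂ := fun n y =>
    LSeries.term a (σ + y * I) n * (x : ℂ) ^ (σ + y * I) * kr (σ + y * I) with hG
  have hn : ∀ n y, ‖G n y‖ = ‖LSeries.term a σ n‖ * (x : ℝ) ^ σ * ‖kr (σ + y * I)‖ := by
    intro n y
    simp [hG, LSeries.norm_term_eq, norm_natCast_cpow_of_pos hx]
  have hc : ∀ n, Continuous (G n) := by
    intro n
    refine (Continuous.mul ?_ (Continuous.const_cpow (by fun_prop) (Or.inl hx''))).mul (kr_cont hσ)
    rcases eq_or_ne n 0 with rfl | h
    · simpa using continuous_const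
    · simp only [LSeries.term_of_ne_zero h]
      have h' : (n : ℂ) ≠ 0 := by exact_mod_cast h
      exact continuous_const.div (Continuous.const_cpow (by fun_prop) (Or.inl h'))
        (fun y => by simp [h])
  have hi : ∀ n, Integrable (G n) := fun n =>
    ((kr_int hσ).norm.const_mul (‖LSeries.term a σ n‖ * (x : ℝ) ^ σ)).mono'
      (hc n).aestronglyMeasurable (Eventually.of_forall fun y => (hn n y).le)
  have hs : Summable fun n => ∫ y, ‖G n y‖ := by
    simp only [hn, integral_const_mul]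
    exact (ha.norm.mul_right _).mul_right _
  have h1 := hasSum_integral_of_summable_integral_norm hi hs
  have e1 : ∀ y, ∑' n, G n y = LSeries a (σ + y * I) * (x : ℂ) ^ (σ + y * I) * kr (σ + y * I) := by
    intro y
    simp only [hG, tsum_mul_right, LSeries]
  simp only [e1] at h1
  refine ⟨?_, ?_⟩
  · simp only [← e1]
    refine ((kr_int hσ).norm.const_mul ((∑' n, ‖LSeries.term a σ n‖) * (x : ℝ) ^ σ)).mono'
      (AEStronglyMeasurable.tsum fun n => (hc n).aestronglyMeasurable)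
      (Eventually.of_forall fun y => ?_)
    exact tsum_of_norm_bounded ((ha.norm.hasSum.mul_right _).mul_right _) fun n => (hn n y).le
  have h2 := (h1.const_smul (1 / (2 * Real.pi) : ℝ)).mul_left (x : ℂ)
  refine (hasSum_sum_of_ne_finset_zero (s := Ioc 0 x) (f := fun n =>
    if n = 0 then 0 else a n * ((max ((x : ℝ) - n) 0 : ℝ) : ℂ)) ?_).unique
    (h2.congr fun n => ?_) |> (Eq.trans ?_ ·)
  · refine sum_congr rfl fun n hn => ?_
    rw [mem_Ioc] at hn
    have : (n : ℝ) ≤ x := by exact_mod_cast hn.2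
    rw [if_neg hn.1.ne', max_eq_left (by linarith)]
    simp
  · intro n hn
    split_ifs with h
    · rfl
    · have : (x : ℝ) ≤ n := by
        rw [mem_Ioc] at hn
        exact_mod_cast (by omega : x ≤ n)
      rw [max_eq_right (by linarith)]; simp
  · refine sum_congr rfl fun n _ => ?_
    rcases eq_or_ne n 0 with rfl | h
    · simp [hG]
    have hn' : (0 : ℝ) < n := by exact_mod_cast Nat.pos_of_ne_zero h
    have h' : (n : ℂ) ≠ 0 := by exact_mod_cast h
    have e2 : ∀ y : ℝ, G n y =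
        a n * ((((n : ℝ) / x : ℝ) : ℂ) ^ (-(σ + y * I)) * kr (σ + y * I)) := by
      intro y
      have e3 : (x : ℂ) ^ (σ + y * I) ≠ 0 := by simp [hx.ne']
      have e4 : (((n : ℝ) / x : ℝ) : ℂ) ^ (σ + y * I) * (x : ℂ) ^ (σ + y * I) =
          (n : ℂ) ^ (σ + y * I) := by
        rw [← ofReal_natCast x, ← mul_cpow_ofReal_nonneg (by positivity) hx'.le, ← ofReal_mul,
          div_mul_cancel₀ _ hx'.ne', ofReal_natCast]
      simp only [hG, LSeries.term_of_ne_zero h, cpow_neg, ← e4]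
      field_simp
    simp only [e2, integral_const_mul, if_neg h]
    rw [← mul_smul_comm, riesz_eq hσ (by positivity), mul_left_comm, ← ofReal_natCast x,
      ← ofReal_mul, mul_max_of_nonneg _ _ hx'.le]
    congr 3
    · field_simp
    · simp

theorem riesz_bound : ∃ C : ℝ, 0 < C ∧ ∀ (a : ℕ → ℂ) (F : ℂ → ℂ) (σ0 σ1 T M M0 : ℝ) (x : ℕ),
    1 / 2 ≤ σ0 → σ0 ≤ σ1 → σ1 ≤ σ0 + 1 → 1 ≤ T → 0 < x → LSeriesSummable a σ1 →
    (∀ y : ℝ, ‖LSeries a (σ1 + y * I)‖ ≤ M0) →
    (∀ s : ℂ, σ0 ≤ s.re → s.re ≤ σ1 → |s.im| ≤ T → DifferentiableAt ℂ F s ∧ ‖F s‖ ≤ M) →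
    (∀ y : ℝ, F (σ1 + y * I) = LSeries a (σ1 + y * I)) →
    ‖Rz a x‖ ≤ C * x * ((M0 + M) * (x : ℝ) ^ σ1 / √T + M * (x : ℝ) ^ σ0) := by
  set φ : ℝ → ℝ := fun y => (1 + ‖y‖ ^ 2) ^ (-(3 / 2 : ℝ) / 2) with hφ
  have hφi : Integrable φ := integrable_rpow_neg_one_add_norm_sq (by simp; norm_num)
  have hφ0 : 0 ≤ ∫ y, φ y := integral_nonneg fun y => by positivity
  refine ⟨4 * (∫ y, φ y) + 16, by positivity,
    fun a F σ0 σ1 T M M0 x h0 h01 h10 hT hx ha hM0 hF hFL => ?_⟩
  have hx' : (1 : ℝ) ≤ x := by exact_mod_cast hx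
  have hx'' : (x : ℂ) ≠ 0 := by exact_mod_cast hx.ne'
  have hM0' : 0 ≤ M0 := (norm_nonneg _).trans (hM0 0)
  have hM' : 0 ≤ M := (norm_nonneg _).trans (hF σ0 (by simp) (by simpa) (by simp; linarith)).2
  obtain ⟨hI, hR⟩ := perron (h0.trans h01) ha hx
  simp only [← hFL] at hI hR hM0
  set g : ℂ → ℂ := fun s => F s * (x : ℂ) ^ s * kr s with hg
  have hgn : ∀ (s : ℂ) (B : ℝ), 1 / 2 ≤ s.re → ‖F s‖ ≤ B →
      ‖g s‖ ≤ B * (x : ℝ) ^ s.re * (4 * (1 + s.im ^ 2)⁻¹) := by
    intro s B hs hB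
    have := (norm_nonneg _).trans hB
    simp only [hg, norm_mul, norm_natCast_cpow_of_pos hx]
    gcongr
    exact kr_le hs
  have hsT : 1 ≤ √T := Real.one_le_sqrt.2 hT
  have hrect := integral_boundary_rect_eq_zero_of_differentiableOn g (σ0 - T * I) (σ1 + T * I) (by
    intro s hs
    simp only [mem_reProdIm, sub_re, ofReal_re, mul_re, I_re, mul_zero, ofReal_im, I_im, mul_one,
      sub_self, sub_zero, add_re, add_zero, sub_im, mul_im, zero_sub, add_im, zero_add,
      Set.uIcc_of_le h01, Set.uIcc_of_le (show -T ≤ T by linarith)] at hs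
    refine (((hF s hs.1.1 hs.1.2 (abs_le.2 hs.2)).1.mul
      (differentiableAt_id.const_cpow (Or.inl hx''))).mul ?_).differentiableWithinAt
    exact DifferentiableAt.inv (by fun_prop) (kr_ne (h0.trans hs.1.1)))
  simp only [sub_re, ofReal_re, mul_re, I_re, mul_zero, ofReal_im, I_im, mul_one,
      sub_self, sub_zero, add_re, add_zero, sub_im, mul_im, zero_sub, add_im, zero_add] at hrect
  have hh : ∀ t : ℝ, |t| = T → ‖∫ u in σ0..σ1, g (u + t * I)‖ ≤ 4 * (M * (x : ℝ) ^ σ1 / √T) := by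
    intro t ht
    refine (intervalIntegral.norm_integral_le_of_norm_le_const
      (C := 4 * (M * (x : ℝ) ^ σ1 / √T)) fun u hu => ?_).trans
      (mul_le_of_le_one_right (by positivity) (by rw [abs_of_nonneg (by linarith)]; linarith))
    rw [Set.uIoc_of_le h01] at hu
    refine (hgn _ M (by simp; linarith [hu.1])
      (hF _ (by simpa using hu.1.le) (by simpa using hu.2) (by simpa using ht.le)).2).trans ?_
    simp only [add_re, ofReal_re, mul_re, I_re, mul_zero, ofReal_im, I_im, mul_one, sub_self,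
      add_zero, add_im, mul_im, zero_add]
    have e1 : (x : ℝ) ^ u ≤ (x : ℝ) ^ σ1 := Real.rpow_le_rpow_of_exponent_le hx' hu.2
    have e2 : (1 + t ^ 2)⁻¹ ≤ (√T)⁻¹ := by
      refine inv_anti₀ (by linarith) ?_
      rw [← sq_abs, ht]
      nlinarith [Real.sq_sqrt (show 0 ≤ T by linarith)]
    calc _ ≤ M * (x : ℝ) ^ σ1 * (4 * (√T)⁻¹) := by gcongr
      _ = _ := by ring
  have hl : ‖∫ y in -T..T, g (σ0 + y * I)‖ ≤ 16 * (M * (x : ℝ) ^ σ0) := by
    have hi := integrable_inv_one_add_sq.const_mul (M * (x : ℝ) ^ σ0 * 4)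
    refine (intervalIntegral.norm_integral_le_of_norm_le (by linarith)
      (Eventually.of_forall fun y hy => ?_) hi.intervalIntegrable).trans ?_
    · refine (hgn _ M (by simpa using h0) (hF _ (by simp) (by simpa using h01)
        (by simpa using abs_le.2 ⟨hy.1.le, hy.2⟩)).2).trans (le_of_eq ?_)
      simp; ring
    · rw [intervalIntegral.integral_of_le (by linarith)]
      refine (setIntegral_le_integral hi (Eventually.of_forall fun y => by positivity)).trans ?_
      rw [integral_const_mul, integral_univ_inv_one_add_sq]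
      have : 0 ≤ M * (x : ℝ) ^ σ0 := by positivity
      nlinarith [Real.pi_le_four]
  have ht : ‖∫ y in (Set.Ioc (-T) T)ᶜ, g (σ1 + y * I)‖ ≤
      4 * (∫ y, φ y) * (M0 * (x : ℝ) ^ σ1 / √T) := by
    have hi := hφi.const_mul (4 * (M0 * (x : ℝ) ^ σ1 / √T))
    refine (norm_integral_le_of_norm_le hi.integrableOn ?_).trans ?_
    · rw [ae_restrict_iff' measurableSet_Ioc.compl]
      refine Eventually.of_forall fun y hy => (hgn _ M0 (by simp; linarith) (hM0 y)).trans ?_
      simp only [add_re, ofReal_re, mul_re, I_re, mul_zero, ofReal_im, I_im, mul_one, sub_self,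
        add_zero, add_im, mul_im, zero_add]
      have e0 : T ^ 2 ≤ 1 + y ^ 2 := by
        simp only [Set.mem_compl_iff, Set.mem_Ioc, not_and_or, not_lt, not_le] at hy
        rcases hy with h | h <;> nlinarith
      have e1 : √T ≤ (1 + y ^ 2) ^ (1 / 4 : ℝ) := by
        calc √T = (T ^ 2) ^ (1 / 4 : ℝ) := by
              rw [Real.sqrt_eq_rpow, ← Real.rpow_natCast, ← Real.rpow_mul (by linarith)]; norm_num
          _ ≤ _ := by gcongr
      have e2 : (1 + y ^ 2)⁻¹ = ((1 + y ^ 2) ^ (1 / 4 : ℝ))⁻¹ * φ y := by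
        simp only [hφ, Real.norm_eq_abs, sq_abs]
        rw [← Real.rpow_neg (by positivity), ← Real.rpow_add (by positivity),
          ← Real.rpow_neg_one]
        norm_num
      have e3 : 0 ≤ φ y := by positivity
      rw [e2]
      calc _ ≤ M0 * (x : ℝ) ^ σ1 * (4 * ((√T)⁻¹ * φ y)) := by gcongr
        _ = _ := by ring
    · refine (setIntegral_le_integral hi (Eventually.of_forall fun y => by positivity)).trans ?_
      rw [integral_const_mul]; apply le_of_eq; ring
  have hm : ‖∫ y in -T..T, g (σ1 + y * I)‖ ≤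
      8 * (M * (x : ℝ) ^ σ1 / √T) + 16 * (M * (x : ℝ) ^ σ0) := by
    have e : I • (∫ y in -T..T, g (σ1 + y * I)) = I • (∫ y in -T..T, g (σ0 + y * I)) +
        (∫ u in σ0..σ1, g (u + T * I)) - ∫ u in σ0..σ1, g (u + (-T : ℝ) * I) := by
      linear_combination hrect
    have e1 := congrArg norm e
    rw [norm_smul, norm_I, one_mul] at e1
    rw [e1]
    refine (norm_sub_le _ _).trans ((add_le_add (norm_add_le _ _) le_rfl).trans ?_)
    rw [norm_smul, norm_I, one_mul]
    linarith [hh T (abs_of_nonneg (by linarith)), hh (-T) (by rw [abs_neg, abs_of_nonneg]; linarith)]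
  have hw := integral_add_compl (s := Set.Ioc (-T) T) measurableSet_Ioc hI
  rw [← intervalIntegral.integral_of_le (by linarith)] at hw
  rw [hR, ← hw, norm_mul, norm_smul, norm_natCast]
  have e1 : ‖(1 / (2 * Real.pi) : ℝ)‖ ≤ 1 := by
    rw [Real.norm_eq_abs, abs_of_pos (by positivity), div_le_one (by positivity)]
    linarith [Real.two_le_pi]
  have e2 := (norm_add_le _ _).trans (add_le_add hm ht)
  rw [mul_comm (_ + _) (x : ℝ), mul_assoc (x : ℝ)]
  refine mul_le_mul_of_nonneg_left ?_ (by positivity)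
  refine (mul_le_of_le_one_left (norm_nonneg _) e1).trans (e2.trans ?_)
  have p1 : 0 ≤ M * (x : ℝ) ^ σ1 / √T := by positivity
  have p2 : 0 ≤ M0 * (x : ℝ) ^ σ1 / √T := by positivity
  have p3 : 0 ≤ M * (x : ℝ) ^ σ0 := by positivity
  rw [add_mul M0, add_div]
  nlinarith [mul_nonneg hφ0 p1, mul_nonneg hφ0 p3]

lemma Rz_diff (a : ℕ → ℂ) {x h : ℕ} {B : ℝ} (hB : ∀ n ∈ Ioc x (x + h), ‖a n‖ ≤ B) :
    h * ‖∑ n ∈ Ioc 0 x, a n‖ ≤ ‖Rz a (x + h)‖ + ‖Rz a x‖ + h * (B * h) := by
  have e : (h : ℂ) * ∑ n ∈ Ioc 0 x, a n =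
      Rz a (x + h) - Rz a x - ∑ n ∈ Ioc x (x + h), a n * (((x + h : ℕ) : ℂ) - n) := by
    rw [Rz, Rz, ← sum_Ioc_consecutive _ (Nat.zero_le x) (Nat.le_add_right x h), mul_sum,
      add_sub_right_comm, add_sub_cancel_right, ← sum_sub_distrib]
    refine sum_congr rfl fun n _ => ?_
    push_cast; ring
  have e1 := congrArg norm e
  rw [norm_mul, norm_natCast] at e1
  rw [e1]
  refine (norm_sub_le _ _).trans (add_le_add (norm_sub_le _ _) ((norm_sum_le _ _).trans ?_))
  refine (sum_le_card_nsmul _ _ (B * h) fun n hn => ?_).trans (by simp)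
  have h1 := hB n hn
  have h2 := (norm_nonneg _).trans h1
  rw [mem_Ioc] at hn
  rw [norm_mul, ← Nat.cast_sub hn.2, norm_natCast]
  gcongr
  omega

end Pool.Agent.Lib.SW
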