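import Pool.Agent.Lib.SW.ZeroFree
import Pool.Agent.Lib.SW.Perron

/-! The Siegel-Walfisz theorem with an arbitrary power of the logarithm saved. -/

namespace Pool.Agent.Lib.SW

open Finset Complex Filter Topology DirichletCharacter
open ArithmeticFunction hiding add_apply

/-- logarithm on primes, zero elsewhere -/
noncomputable def lam (n : ℕ) : ℝ := if n.Prime then Real.log n else 0

lemma lam_nonneg (n : ℕ) : 0 ≤ lam n := by
  unfold lam; split_ifs; exacts [Real.log_natCast_nonneg n, le_rfl]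

lemma lam_le {n : ℕ} {y : ℝ} (h : (n : ℝ) ≤ y) (hy : 1 ≤ y) : lam n ≤ Real.log y := by
  unfold lam; split_ifs with hp
  · exact Real.log_le_log (by exact_mod_cast hp.pos) h
  · exact Real.log_nonneg hy

lemma tendsto_L : Tendsto (fun N : ℕ => Real.log N) atTop atTop :=
  Real.tendsto_log_atTop.comp tendsto_natCast_atTop_atTop

lemma ev_pow_le (k : ℕ) : ∀ᶠ L : ℝ in atTop, L ^ k ≤ Real.exp √L := by
  have h := (Real.tendsto_exp_div_pow_atTop (2 * k)).comp Real.tendsto_sqrt_atTop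
  filter_upwards [h.eventually_ge_atTop 1, eventually_gt_atTop 0] with L h1 h2
  simp only [Function.comp] at h1
  rw [le_div_iff₀ (by positivity), one_mul, pow_mul, Real.sq_sqrt h2.le] at h1
  exact h1

lemma Zc_le {η : ℝ} (hη : 0 < η) (h1 : η ≤ 1) : Zc η ≤ 2 * (η⁻¹ + 3 * Zc (1 / 2)) := by
  have hs : 1 < ((1 + η : ℝ) : ℂ).re := by simpa using hη
  have e : ((∑' n : ℕ, ((n : ℝ) + 1) ^ (-1 - η) : ℝ) : ℂ) = riemannZeta ((1 + η : ℝ) : ℂ) := by
    rw [zeta_eq_tsum hs, ofReal_tsum]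
    refine tsum_congr fun n => ?_
    rw [ofReal_cpow (by positivity)]
    push_cast; congr 1; ring
  have h2 := zeta0_bound (η := 1 / 2) (by norm_num) le_rfl (s := ((1 + η : ℝ) : ℂ)) (by linarith)
  rw [riemannZeta_eq_inv_sub_add (by intro h; rw [h] at hs; simp at hs)] at e
  have h3 := (congrArg norm e).le.trans (norm_add_le _ _)
  rw [norm_real, show ((1 + η : ℝ) : ℂ) - 1 = η by simp, norm_inv, norm_real, Real.norm_eq_abs,
    Real.norm_eq_abs, abs_of_pos hη] at h3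
  rw [norm_real, Real.norm_eq_abs, abs_of_pos (by linarith)] at h2
  rw [show 2 * (1 / 2 : ℝ) = 1 by norm_num, Real.rpow_one] at h2
  have h4 := Zc_ge (η := 1 / 2) (by norm_num)
  have h5 := le_abs_self (∑' n : ℕ, ((n : ℝ) + 1) ^ (-1 - η))
  rw [Zc]
  nlinarith

lemma LSeries_log_bound {a : ℕ → ℂ} (ha : ∀ n, ‖a n‖ ≤ Real.log n + 1) {δ : ℝ} (hδ : 0 < δ)
    {s : ℂ} (hs : s.re = 1 + δ) :
    LSeriesSummable a s ∧ ‖LSeries a s‖ ≤ (2 / δ + 1) * Zc (δ / 2) := by
  have hb : ∀ n : ℕ, ‖LSeries.term a s (n + 1)‖ ≤ (2 / δ + 1) * ((n : ℝ) + 1) ^ (-1 - δ / 2) := by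
    intro n
    have hn : (1 : ℝ) ≤ n + 1 := by simp
    have h1 := Real.log_le_rpow_div (show (0 : ℝ) ≤ n + 1 by positivity) (half_pos hδ)
    have h2 : 1 ≤ ((n : ℝ) + 1) ^ (δ / 2) := Real.one_le_rpow hn (by linarith)
    have h3 := ha (n + 1)
    rw [LSeries.norm_term_eq, if_neg n.succ_ne_zero, hs, div_le_iff₀ (by positivity), mul_assoc]
    push_cast at h3 ⊢
    rw [← Real.rpow_add (by positivity), show -1 - δ / 2 + (1 + δ) = δ / 2 by ring]
    rw [show ((n : ℝ) + 1) ^ (δ / 2) / (δ / 2) = 2 / δ * ((n : ℝ) + 1) ^ (δ / 2) by ring] at h1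
    linarith
  have hS := (summable_Z (half_pos hδ)).mul_left (2 / δ + 1)
  have h1 : LSeriesSummable a s := (summable_nat_add_iff 1).1 (.of_norm_bounded hS hb)
  refine ⟨h1, ?_⟩
  rw [LSeries, h1.tsum_eq_zero_add, LSeries.term_zero, zero_add]
  refine (tsum_of_norm_bounded hS.hasSum hb).trans ?_
  rw [tsum_mul_left, Zc]
  have : 0 ≤ ∑' n : ℕ, ((n : ℝ) + 1) ^ (-1 - δ / 2) := tsum_nonneg fun n => by positivity
  gcongr; linarith

lemma sw_core (A : ℕ) : ∀ᶠ N : ℕ in atTop, ∀ (a : ℕ → ℂ) (F : ℂ → ℂ),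
    (∀ n, ‖a n‖ ≤ Real.log n + 1) →
    (∀ s : ℂ, |s.re - 1| ≤ (√(Real.log N))⁻¹ → |s.im| ≤ Real.log N ^ (2 * (2 * A + 8)) →
      DifferentiableAt ℂ F s ∧ ‖F s‖ ≤ 2 * √(Real.log N)) →
    (∀ s : ℂ, 1 < s.re → F s = LSeries a s) →
    ∀ x ≤ N, ‖∑ n ∈ Ioc 0 x, a n‖ ≤ N / Real.log N ^ A := by
  obtain ⟨C, hC, hR⟩ := riesz_bound
  have hZ := Zc_ge (η := 1 / 2) (by norm_num)
  filter_upwards [tendsto_L.eventually (ev_pow_le (2 * A + 8)),
    tendsto_L.eventually_ge_atTop (max 4 (max (3 * Zc (1 / 2)) (2000 * C))),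
    eventually_gt_atTop 0] with N h1 h2 hN a F ha hF hFL x hx
  set L := Real.log N with hL
  have hL4 : 4 ≤ L := le_of_max_le_left h2
  have hLZ : 3 * Zc (1 / 2) ≤ L := le_of_max_le_left (le_of_max_le_right h2)
  have hLC : 2000 * C ≤ L := le_of_max_le_right (le_of_max_le_right h2)
  have hN' : (0 : ℝ) < N := by exact_mod_cast hN
  have hNe : Real.exp L = N := Real.exp_log hN'
  have hs2 : 2 ≤ √L := Real.le_sqrt_of_sq_le (by linarith)
  have hsq : √L * √L = L := Real.mul_self_sqrt (by linarith)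
  have hsL : √L ≤ L := by nlinarith
  have hρ : (√L)⁻¹ ≤ 1 / 2 := by rw [one_div]; gcongr
  have hρ' : L⁻¹ ≤ (√L)⁻¹ := by gcongr
  have hρ0 : 0 < L⁻¹ := by positivity
  have hP : L ^ (2 * A + 8) ≤ N := h1.trans (by rw [← hNe]; gcongr)
  have hM0 : (2 / L⁻¹ + 1) * Zc (L⁻¹ / 2) ≤ 18 * L ^ 2 := by
    have := Zc_le (η := L⁻¹ / 2) (by positivity) (by linarith)
    rw [show (L⁻¹ / 2)⁻¹ = 2 * L by field_simp] at this
    rw [show 2 / L⁻¹ = 2 * L by field_simp]
    calc _ ≤ (3 * L) * (6 * L) := by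
          have := Zc_ge (η := L⁻¹ / 2) (by positivity)
          gcongr <;> linarith
      _ = _ := by ring
  have hz : ∀ y : ℕ, y ≤ 2 * N → ‖Rz a y‖ ≤ (N : ℝ) ^ 2 / L ^ (2 * A + 5) := by
    intro y hy
    rcases Nat.eq_zero_or_pos y with rfl | hy0
    · simp [Rz]; positivity
    have hy' : (y : ℝ) ≤ 2 * N := by exact_mod_cast hy
    have b1 := hR a F (1 - (√L)⁻¹) (1 + L⁻¹) (L ^ (2 * (2 * A + 8))) (2 * √L) (18 * L ^ 2) y
      (by linarith) (by linarith [inv_pos.2 (show 0 < √L by linarith)]) (by linarith)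
      (one_le_pow₀ (by linarith)) hy0 (LSeries_log_bound ha hρ0 (by simp)).1
      (fun t => (LSeries_log_bound ha hρ0 (by simp)).2.trans hM0)
      (fun s a b c => hF s (abs_le.2 ⟨by linarith, by linarith⟩) c)
      (fun t => hFL _ (by simpa using (show 0 < L by linarith)))
    have b2 : (y : ℝ) ^ (1 + L⁻¹) ≤ 16 * N := by
      have c1 : (2 * N : ℝ) ≤ Real.exp (2 * L) := by
        rw [two_mul L, Real.exp_add, hNe]
        have : (2 : ℝ) ≤ N := by rw [← hNe]; linarith [Real.add_one_le_exp L]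
        nlinarith
      have c2 : (2 * N : ℝ) ^ L⁻¹ ≤ 8 := by
        calc (2 * N : ℝ) ^ L⁻¹ ≤ Real.exp (2 * L) ^ L⁻¹ := by gcongr
          _ = Real.exp 1 * Real.exp 1 := by
              rw [← Real.exp_mul, ← Real.exp_add]; congr 1; field_simp; norm_num
          _ ≤ 8 := by nlinarith [Real.exp_one_lt_d9, Real.exp_pos 1]
      calc _ ≤ (2 * N : ℝ) ^ (1 + L⁻¹) := by gcongr
        _ = 2 * N * (2 * N : ℝ) ^ L⁻¹ := by rw [Real.rpow_add (by positivity), Real.rpow_one]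
        _ ≤ 2 * N * 8 := by gcongr
        _ = _ := by ring
    have b3 : (y : ℝ) ^ (1 - (√L)⁻¹) ≤ 2 * N / L ^ (2 * A + 8) := by
      have c1 : Real.exp √L ≤ (2 * N : ℝ) ^ (√L)⁻¹ := by
        calc Real.exp √L = Real.exp L ^ (√L)⁻¹ := by
              rw [← Real.exp_mul]; congr 1; field_simp; nlinarith
          _ ≤ _ := by rw [hNe]; gcongr; linarith
      calc _ ≤ (2 * N : ℝ) ^ (1 - (√L)⁻¹) := by gcongr; linarith
        _ = 2 * N / (2 * N : ℝ) ^ (√L)⁻¹ := by rw [Real.rpow_sub (by positivity), Real.rpow_one]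
        _ ≤ _ := by gcongr; exact h1.trans c1
    rw [show L ^ (2 * (2 * A + 8)) = (L ^ (2 * A + 8)) ^ 2 by ring,
      Real.sqrt_sq (by positivity)] at b1
    have b4 : 2 * √L ≤ L ^ 2 := by nlinarith
    calc _ ≤ C * (2 * N) * ((18 * L ^ 2 + L ^ 2) * (16 * N) / L ^ (2 * A + 8) +
          L ^ 2 * (2 * N / L ^ (2 * A + 8))) := b1.trans (by gcongr)
      _ = 612 * C / L * ((N : ℝ) ^ 2 / L ^ (2 * A + 5)) := by field_simp; ring
      _ ≤ _ := mul_le_of_le_one_left (by positivity) (by rw [div_le_one (by linarith)]; linarith)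
  set h := ⌈(N : ℝ) / L ^ (A + 2)⌉₊ with hh
  have hL1 : 1 ≤ L ^ (A + 2) := one_le_pow₀ (by linarith)
  have d0 : 1 ≤ (N : ℝ) / L ^ (A + 2) := by
    rw [le_div_iff₀ (by positivity), one_mul]
    exact le_trans (pow_le_pow_right₀ (by linarith) (by omega)) hP
  have d1 : (N : ℝ) / L ^ (A + 2) ≤ h := Nat.le_ceil _
  have d2 : (h : ℝ) ≤ 2 * (N / L ^ (A + 2)) := by
    linarith [Nat.ceil_lt_add_one (show 0 ≤ (N : ℝ) / L ^ (A + 2) by positivity)]
  have d3 : h ≤ N := Nat.ceil_le.2 (div_le_self hN'.le hL1)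
  have d4 := Rz_diff a (x := x) (h := h) (B := L + 2) (fun n hn => (ha n).trans (by
    rw [mem_Ioc] at hn
    have c1 : (n : ℝ) ≤ 2 * N := by exact_mod_cast (by omega : n ≤ 2 * N)
    have c2 := Real.log_le_log (by exact_mod_cast (by omega : 0 < n)) c1
    rw [Real.log_mul (by norm_num) hN'.ne'] at c2
    linarith [Real.log_two_lt_d9]))
  have d5 : (N : ℝ) ^ 2 / L ^ (2 * A + 5) ≤ h * (N / L ^ (A + 3)) := by
    calc _ = (N : ℝ) / L ^ (A + 2) * (N / L ^ (A + 3)) := by field_simp; ring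
      _ ≤ _ := by gcongr
  have d6 : ‖∑ n ∈ Ioc 0 x, a n‖ ≤ 2 * (N / L ^ (A + 3)) + (L + 2) * h := by
    refine le_of_mul_le_mul_left ?_ (show (0 : ℝ) < h by linarith)
    linarith [hz (x + h) (by omega), hz x (by omega)]
  refine d6.trans ?_
  calc _ ≤ 2 * (N / L ^ (A + 3)) + (L + 2) * (2 * (N / L ^ (A + 2))) := by gcongr
    _ = (2 + 2 * L * (L + 2)) / L ^ 3 * (N / L ^ A) := by field_simp; ring
    _ ≤ _ := mul_le_of_le_one_left (by positivity) (by
        rw [div_le_one (by positivity)]; nlinarith)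

lemma ev_width {c : ℝ} (hc : 0 < c) (k : ℕ) : ∀ᶠ L : ℝ in atTop, ∀ u : ℝ, 0 ≤ u → u ≤ L ^ (k + 1) →
    (√L)⁻¹ * u ^ (1 / (4 * (k + 1)) : ℝ) ≤ c := by
  have h := (tendsto_rpow_neg_atTop (show (0 : ℝ) < 1 / 4 by norm_num)).eventually_le_const hc
  filter_upwards [h, eventually_gt_atTop 0] with L h1 h2 u hu0 hu
  refine le_trans ?_ h1
  calc _ ≤ (√L)⁻¹ * (L ^ (k + 1)) ^ (1 / (4 * (k + 1)) : ℝ) := by gcongr
    _ = _ := by
        rw [Real.sqrt_eq_rpow, ← Real.rpow_neg h2.le, ← Real.rpow_natCast, ← Real.rpow_mul h2.le,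
          ← Real.rpow_add h2]
        congr 1; push_cast; field_simp; ring

lemma sw_char (A B : ℕ) : ∀ᶠ N : ℕ in atTop, ∀ (q : ℕ) [NeZero q] (χ : DirichletCharacter ℂ q),
    χ ≠ 1 → (q : ℝ) ≤ Real.log N ^ B → ∀ x ≤ N,
      ‖∑ n ∈ Ioc 0 x, χ n * (vonMangoldt n : ℂ)‖ ≤ N / Real.log N ^ A := by
  obtain ⟨c, hc, hz⟩ := zero_free (ε := 1 / (4 * ((B + 4 * A + 15 : ℕ) + 1))) (by positivity)
  filter_upwards [sw_core A, tendsto_L.eventually (ev_width hc (B + 4 * A + 15)),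
    tendsto_L.eventually_ge_atTop 1] with N h1 h2 h3 q _ χ hχ hq
  have hs : 0 < √(Real.log N) := Real.sqrt_pos.2 (by linarith)
  refine h1 (fun n => χ n * (vonMangoldt n : ℂ))
    (fun s => -(deriv (LFunction χ) s / LFunction χ s)) (fun n => ?_) (fun s a b => ?_)
    (fun s hs => ?_)
  · rw [norm_mul, norm_real, Real.norm_eq_abs, abs_of_nonneg vonMangoldt_nonneg]
    have := mul_le_of_le_one_left (vonMangoldt_nonneg (n := n)) (χ.norm_le_one n)
    linarith [vonMangoldt_le_log (n := n)]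
  · obtain ⟨c1, c2⟩ := hz q χ hχ _ _ (one_le_pow₀ h3) (inv_pos.2 hs) (h2 _ (by positivity) (by
      rw [show B + 4 * A + 15 + 1 = B + 2 * (2 * A + 8) by ring, pow_add]; gcongr)) s a b
    refine ⟨(((differentiable_LFunction hχ).deriv s).div (differentiable_LFunction hχ s) c1).neg, ?_⟩
    rw [one_div, inv_inv] at c2
    rw [norm_neg]; linarith
  · have := LSeries_twist_vonMangoldt_eq χ hs
    rw [← deriv_LFunction_eq_deriv_LSeries χ hs, ← LFunction_eq_LSeries χ hs, neg_div] at this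
    exact this.symm

lemma sw_zeta (A : ℕ) : ∀ᶠ N : ℕ in atTop, ∀ x ≤ N,
    |∑ n ∈ Ioc 0 x, vonMangoldt n - x| ≤ N / Real.log N ^ A := by
  obtain ⟨c, hc, hz⟩ := zero_free_zeta (ε := 1 / (4 * ((4 * A + 15 : ℕ) + 1))) (by positivity)
  filter_upwards [sw_core A, tendsto_L.eventually (ev_width hc (4 * A + 15)),
    tendsto_L.eventually_ge_atTop 1] with N h1 h2 h3 x hx
  have hs : 0 < √(Real.log N) := Real.sqrt_pos.2 (by linarith)
  have := h1 (fun n => (vonMangoldt n : ℂ) - 1)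
    (fun s => -(deriv riemannZeta₁ s / riemannZeta₁ s) - riemannZeta₀ s) (fun n => ?_)
    (fun s a b => ?_) (fun s hs => ?_) x hx
  · rw [← Real.norm_eq_abs, ← norm_real]
    simpa using this
  · refine (norm_sub_le _ _).trans ?_
    rw [norm_real, Real.norm_eq_abs, abs_of_nonneg vonMangoldt_nonneg, norm_one]
    linarith [vonMangoldt_le_log (n := n)]
  · obtain ⟨c1, c2, c3⟩ := hz _ _ (one_le_pow₀ h3) (inv_pos.2 hs) (h2 _ (by positivity) (by
      rw [show 4 * A + 15 + 1 = 2 * (2 * A + 8) by ring])) s a b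
    refine ⟨((differentiable_riemannZeta₁.deriv s).div (differentiable_riemannZeta₁ s) c1).neg.sub
      (differentiable_riemannZeta₀ s), (norm_sub_le _ _).trans ?_⟩
    rw [one_div, inv_inv] at c2 c3
    rw [norm_neg]; linarith
  · have hs1 : s ≠ 1 := by rintro rfl; simp at hs
    have hs2 := sub_ne_zero.2 hs1
    have e1 := LSeries_sub (LSeriesSummable_vonMangoldt hs) (LSeriesSummable_one_iff.2 hs)
    rw [LSeries_vonMangoldt_eq_deriv_riemannZeta_div hs, LSeries_one_eq_riemannZeta hs] at e1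
    refine Eq.trans ?_ e1.symm
    have e2 : deriv riemannZeta s =
        -1 / (s - 1) ^ 2 * riemannZeta₁ s + (s - 1)⁻¹ * deriv riemannZeta₁ s := by
      have e3 : riemannZeta =ᶠ[𝓝 s] fun z => (z - 1)⁻¹ * riemannZeta₁ z := by
        filter_upwards [isOpen_ne.mem_nhds hs1] with z hz using riemannZeta_eq_inv_sub_mul hz
      rw [e3.deriv_eq]
      exact ((((hasDerivAt_id s).sub_const 1).inv hs2).mul
        (differentiable_riemannZeta₁ s).hasDerivAt).deriv
    have e4 := zeta1_ne hs.le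
    rw [e2]
    nth_rewrite 2 [riemannZeta_eq_inv_sub_add hs1]
    rw [riemannZeta_eq_inv_sub_mul hs1]
    field_simp
    ring

lemma lam_diff {x : ℕ} (hx : 0 < x) :
    ∑ n ∈ Ioc 0 x, |vonMangoldt n - lam n| ≤ 2 * √x * Real.log x := by
  have h := Chebyshev.psi_sub_theta_le (x := x) (by exact_mod_cast hx)
  rw [Chebyshev.psi_sub_theta_eq_sum_not_prime, Nat.floor_natCast, sum_filter] at h
  refine le_trans (le_of_eq (sum_congr rfl fun n _ => ?_)) h
  unfold lam
  split_ifs with hp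
  · simp [vonMangoldt_apply_prime hp]
  · simp [vonMangoldt_nonneg]

theorem siegel_walfisz (A B : ℕ) : ∀ᶠ N : ℕ in atTop, ∀ q : ℕ, 0 < q →
    (q : ℝ) ≤ Real.log N ^ B → ∀ a : ℕ, a.Coprime q → ∀ x ≤ N,
      |∑ n ∈ Ioc 0 x with n ≡ a [MOD q], lam n - x / q.totient| ≤ N / Real.log N ^ A := by
  filter_upwards [sw_char (A + 1) B, sw_zeta (A + 1), tendsto_L.eventually_ge_atTop 16,
    tendsto_L.eventually (ev_pow_le (A + B + 2)), eventually_gt_atTop 0]
    with N h1 h2 h3 h4 hN q hq hqB a ha x hx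
  have : NeZero q := ⟨hq.ne'⟩
  set L := Real.log N with hL
  have hN' : (0 : ℝ) < N := by exact_mod_cast hN
  have hN1 : (1 : ℝ) ≤ N := by exact_mod_cast hN
  have hφ : (0 : ℝ) < q.totient := by exact_mod_cast Nat.totient_pos.2 hq
  have hP : L ^ (A + B + 2) ≤ √N := by
    refine h4.trans ?_
    rw [← Real.exp_log hN', ← Real.exp_half, ← hL]
    gcongr
    rw [Real.sqrt_le_iff]
    constructor <;> nlinarith
  have hsq : √(N : ℝ) * √N = N := Real.mul_self_sqrt hN'.le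
  have hd : ∑ n ∈ Ioc 0 x, |vonMangoldt n - lam n| ≤ 2 * (N / L ^ (A + 1)) := by
    rcases Nat.eq_zero_or_pos x with rfl | hx0
    · simp; positivity
    refine (lam_diff hx0).trans ?_
    have c1 : (x : ℝ) ≤ N := by exact_mod_cast hx
    have c2 : Real.log x ≤ L := Real.log_le_log (by exact_mod_cast hx0) c1
    have c3 : √(N : ℝ) * L ≤ N / L ^ (A + 1) := by
      rw [le_div_iff₀ (by positivity), mul_assoc, ← pow_succ']
      refine le_trans ?_ hsq.le
      gcongr
      exact le_trans (pow_le_pow_right₀ (by linarith) (by omega)) hP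
    calc _ ≤ 2 * √(N : ℝ) * L := by gcongr
      _ ≤ _ := by linarith
  set E := 4 * (N / L ^ (A + 1)) with hE
  have key : ∀ χ : DirichletCharacter ℂ q,
      ‖∑ n ∈ Ioc 0 x, χ n * (lam n : ℂ) - if χ = 1 then (x : ℂ) else 0‖ ≤ E := by
    intro χ
    split_ifs with hχ
    · subst hχ
      have c1 : ∑ n ∈ Ioc 0 x, ‖((1 : DirichletCharacter ℂ q) n - 1) * (lam n : ℂ)‖ ≤
          N / L ^ (A + 1) := by
        calc _ ≤ ∑ n ∈ Ioc 0 x, if n ∈ Ioc 0 q then L else 0 := by
              refine sum_le_sum fun n hn => ?_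
              rw [mem_Ioc] at hn
              by_cases hc : IsUnit (n : ZMod q)
              · rw [MulChar.one_apply hc, sub_self, zero_mul, norm_zero]
                split_ifs <;> linarith
              rw [MulChar.map_nonunit _ hc, zero_sub, neg_one_mul, norm_neg, norm_real,
                Real.norm_eq_abs, abs_of_nonneg (lam_nonneg n)]
              split_ifs with h
              · exact lam_le (by exact_mod_cast hn.2.trans hx) hN1
              · rw [lam, if_neg]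
                intro hp
                rw [ZMod.isUnit_iff_coprime, hp.coprime_iff_not_dvd, not_not] at hc
                exact h (mem_Ioc.2 ⟨hn.1, Nat.le_of_dvd hq hc⟩)
          _ ≤ q * L := by
              rw [sum_ite_mem, sum_const, nsmul_eq_mul]
              gcongr
              exact (card_le_card inter_subset_right).trans (by simp)
          _ ≤ L ^ B * L := by gcongr
          _ ≤ _ := by
              rw [le_div_iff₀ (by positivity),
                show L ^ B * L * L ^ (A + 1) = L ^ (A + B + 2) by ring]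
              nlinarith [Real.one_le_sqrt.2 hN1]
      have e : ∑ n ∈ Ioc 0 x, (1 : DirichletCharacter ℂ q) n * (lam n : ℂ) - x =
          ∑ n ∈ Ioc 0 x, ((1 : DirichletCharacter ℂ q) n - 1) * (lam n : ℂ) -
          ((∑ n ∈ Ioc 0 x, (vonMangoldt n - lam n) : ℝ) : ℂ) +
          ((∑ n ∈ Ioc 0 x, vonMangoldt n - x : ℝ) : ℂ) := by
        push_cast
        simp only [sub_mul, one_mul, sum_sub_distrib]
        ring
      rw [e]
      refine (norm_add_le _ _).trans ((add_le_add (norm_sub_le _ _) le_rfl).trans ?_)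
      rw [norm_real, norm_real, Real.norm_eq_abs, Real.norm_eq_abs]
      linarith [h2 x hx, (norm_sum_le _ _).trans c1, (abs_sum_le_sum_abs _ _).trans hd]
    · have e : ∑ n ∈ Ioc 0 x, χ n * (lam n : ℂ) - 0 = ∑ n ∈ Ioc 0 x, χ n * (vonMangoldt n : ℂ) -
          ∑ n ∈ Ioc 0 x, χ n * ((vonMangoldt n - lam n : ℝ) : ℂ) := by
        push_cast
        simp only [mul_sub, sum_sub_distrib]
        ring
      have c1 : ‖∑ n ∈ Ioc 0 x, χ n * ((vonMangoldt n - lam n : ℝ) : ℂ)‖ ≤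
          2 * (N / L ^ (A + 1)) := by
        refine (norm_sum_le _ _).trans (le_trans (sum_le_sum fun n _ => ?_) hd)
        rw [norm_mul, norm_real, Real.norm_eq_abs]
        exact mul_le_of_le_one_left (abs_nonneg _) (χ.norm_le_one _)
      rw [e]
      have : 0 ≤ N / L ^ (A + 1) := by positivity
      linarith [norm_sub_le (∑ n ∈ Ioc 0 x, χ n * (vonMangoldt n : ℂ))
        (∑ n ∈ Ioc 0 x, χ n * ((vonMangoldt n - lam n : ℝ) : ℂ)), h1 q χ hχ hqB x hx]
  have hu : IsUnit (a : ZMod q) := (ZMod.isUnit_iff_coprime a q).2 ha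
  have e : (((q.totient : ℝ) * (∑ n ∈ Ioc 0 x with n ≡ a [MOD q], lam n - x / q.totient) : ℝ) : ℂ) =
      ∑ χ : DirichletCharacter ℂ q, χ (a : ZMod q)⁻¹ *
        (∑ n ∈ Ioc 0 x, χ n * (lam n : ℂ) - if χ = 1 then (x : ℂ) else 0) := by
    have hu' : IsUnit (a : ZMod q)⁻¹ := IsUnit.of_mul_eq_one _ (ZMod.inv_mul_of_unit _ hu)
    simp only [mul_sub, sum_sub_distrib, mul_ite, mul_zero, sum_ite_eq', mem_univ, if_true,
      MulChar.one_apply hu', one_mul, mul_sum, ← mul_assoc]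
    rw [sum_comm, mul_div_cancel₀ _ hφ.ne', sum_filter]
    push_cast
    congr 1
    refine sum_congr rfl fun n _ => ?_
    rw [← sum_mul, sum_char_inv_mul_char_eq ℂ hu]
    simp only [ZMod.natCast_eq_natCast_iff, Nat.ModEq.comm (a := a)]
    split_ifs <;> simp
  have e2 := (congrArg norm e).le.trans (norm_sum_le _ _)
  have e3 : ∑ χ : DirichletCharacter ℂ q, ‖χ (a : ZMod q)⁻¹ *
      (∑ n ∈ Ioc 0 x, χ n * (lam n : ℂ) - if χ = 1 then (x : ℂ) else 0)‖ ≤ q.totient * E := by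
    refine (sum_le_card_nsmul _ _ E fun χ _ => ?_).trans (le_of_eq ?_)
    · rw [norm_mul]
      exact (mul_le_of_le_one_left (norm_nonneg _) (χ.norm_le_one _)).trans (key χ)
    · rw [card_univ, ← Nat.card_eq_fintype_card, card_eq_totient_of_hasEnoughRootsOfUnity,
        nsmul_eq_mul]
  rw [norm_real, Real.norm_eq_abs, abs_mul, abs_of_pos hφ] at e2
  refine (le_of_mul_le_mul_left (e2.trans e3) hφ).trans ?_
  rw [hE, pow_succ, ← div_div, ← mul_div_assoc, div_le_iff₀ (by linarith)]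
  have : 0 ≤ N / L ^ A := by positivity
  nlinarith

end Pool.Agent.Lib.SW
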