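import Mathlib

/-! The divisor bound. -/

namespace Pool.Agent.Lib.SW

open Finset

theorem divisor_bound {ε : ℝ} (hε : 0 < ε) :
    ∃ C : ℝ, 1 ≤ C ∧ ∀ m : ℕ, (#m.divisors : ℝ) ≤ C * (m:ℝ) ^ ε := by
  have hl2 := Real.log_two_gt_d9
  set c0 : ℝ := 1 + 1 / (ε * Real.log 2) with hc0
  have hc1 : 1 ≤ c0 := by
    have : 0 ≤ 1 / (ε * Real.log 2) := by positivity
    linarith
  set N0 := ⌈(2:ℝ) ^ (1 / ε)⌉₊
  refine ⟨c0 ^ N0, one_le_pow₀ hc1, fun m => ?_⟩
  rcases Nat.eq_zero_or_pos m with rfl | hm
  · simp; positivity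
  have e1 : ((m:ℝ)) ^ ε = ∏ p ∈ m.primeFactors, ((p:ℝ) ^ ε) ^ m.factorization p := by
    conv_lhs => rw [← Nat.prod_factorization_pow_eq_self hm.ne']
    rw [Finsupp.prod, Nat.support_factorization, Nat.cast_prod,
      ← Real.finsetProd_rpow _ _ (fun _ _ => by positivity)]
    refine Finset.prod_congr rfl fun p _ => ?_
    rw [Nat.cast_pow, ← Real.rpow_natCast, ← Real.rpow_natCast, ← Real.rpow_mul (by positivity),
      ← Real.rpow_mul (by positivity), mul_comm]
  rw [Nat.card_divisors hm.ne', e1, Nat.cast_prod]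
  calc ∏ p ∈ m.primeFactors, ((m.factorization p + 1 : ℕ) : ℝ)
      ≤ ∏ p ∈ m.primeFactors, (if p ∈ range N0 then c0 else 1) * ((p:ℝ) ^ ε) ^ m.factorization p := by
        refine Finset.prod_le_prod (fun _ _ => by positivity) fun p hp => ?_
        have hp2 : (2:ℝ) ≤ p := by exact_mod_cast (Nat.prime_of_mem_primeFactors hp).two_le
        set v := m.factorization p
        split_ifs with h
        · have a1 : 1 + ε * Real.log 2 ≤ (p:ℝ) ^ ε := by
            calc 1 + ε * Real.log 2 ≤ Real.exp (Real.log 2 * ε) := by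
                  have := Real.add_one_le_exp (Real.log 2 * ε); linarith
              _ = (2:ℝ) ^ ε := (Real.rpow_def_of_pos (by norm_num) _).symm
              _ ≤ _ := by gcongr
          have a2 : 1 + v * (ε * Real.log 2) ≤ (1 + ε * Real.log 2) ^ v :=
            one_add_mul_le_pow (by have : 0 < ε * Real.log 2 := by positivity
                                   linarith) v
          have a3 : (1 + ε * Real.log 2) ^ v ≤ ((p:ℝ) ^ ε) ^ v := by gcongr
          have a4 : c0 * (1 + v * (ε * Real.log 2)) = c0 + v * (ε * Real.log 2) + v := by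
            rw [hc0]; field_simp; ring
          have a5 : 0 ≤ v * (ε * Real.log 2) := by positivity
          calc ((v + 1 : ℕ) : ℝ) ≤ c0 * (1 + v * (ε * Real.log 2)) := by push_cast; linarith
            _ ≤ _ := by gcongr; exact a2.trans a3
        · have a1 : (2:ℝ) ^ (1 / ε) ≤ p := by
            have : N0 ≤ p := by simpa using h
            exact (Nat.le_ceil _).trans (by exact_mod_cast this)
          have a2 : (2:ℝ) ≤ (p:ℝ) ^ ε := by
            calc (2:ℝ) = ((2:ℝ) ^ (1 / ε)) ^ ε := by
                  rw [← Real.rpow_mul (by norm_num), one_div_mul_cancel hε.ne', Real.rpow_one]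
              _ ≤ _ := by gcongr
          rw [one_mul]
          calc ((v + 1 : ℕ) : ℝ) ≤ 2 ^ v := by exact_mod_cast Nat.lt_two_pow_self
            _ ≤ _ := by gcongr
    _ = (∏ p ∈ m.primeFactors, (if p ∈ range N0 then c0 else 1)) *
          ∏ p ∈ m.primeFactors, ((p:ℝ) ^ ε) ^ m.factorization p := Finset.prod_mul_distrib
    _ ≤ _ := by
        gcongr
        rw [Finset.prod_ite_mem, Finset.prod_const]
        refine pow_le_pow_right₀ hc1 ?_
        exact (Finset.card_le_card Finset.inter_subset_right).trans (by simp)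

lemma two_pow_le_tau {m : ℕ} (hm : m ≠ 0) : (2 : ℝ) ^ #m.primeFactors ≤ #m.divisors := by
  have : 2 ^ #m.primeFactors ≤ #m.divisors := by
    rw [Nat.card_divisors hm, ← prod_const]
    refine prod_le_prod' fun p hp => ?_
    have := (Nat.prime_of_mem_primeFactors hp).factorization_pos_of_dvd hm
      (Nat.dvd_of_mem_primeFactors hp)
    omega
  exact_mod_cast this

end Pool.Agent.Lib.SW
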