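import Mathlib

/-! Growth bounds for Dirichlet L-functions and zeta close to the line of real part one. -/

namespace Pool.Agent.Lib.SW

open Finset Complex Filter Topology

lemma hasDeriv_cpow (s : ℂ) {t : ℝ} (ht : 0 < t) :
    HasDerivAt (fun u : ℝ => (u : ℂ) ^ (-s)) (-s * (t : ℂ) ^ (-s - 1)) t := by
  have h1 : HasDerivAt (fun z : ℂ => z ^ (-s)) (-s * (t : ℂ) ^ (-s - 1) * 1) (t : ℂ) :=
    (hasDerivAt_id (t : ℂ)).cpow_const (by simp [slitPlane, ht])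
  simpa using h1.comp_ofReal

lemma norm_cpow_le {s : ℂ} (hs : 0 ≤ s.re) {x t : ℝ} (hx : 0 < x) (h : x ≤ t) :
    ‖(t : ℂ) ^ (-s)‖ ≤ x ^ (-s.re) := by
  rw [norm_cpow_eq_rpow_re_of_pos (hx.trans_le h)]
  exact Real.rpow_le_rpow_of_nonpos hx h (by simpa using hs)

lemma cpow_diff {s : ℂ} (hs : 0 ≤ s.re) {x y : ℝ} (hx : 0 < x) (h : x ≤ y) :
    ‖(x : ℂ) ^ (-s) - (y : ℂ) ^ (-s)‖ ≤ ‖s‖ * (y - x) * x ^ (-s.re - 1) := by
  have := norm_image_sub_le_of_norm_deriv_le_segment' (f := fun u : ℝ => (u : ℂ) ^ (-s))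
    (f' := fun t : ℝ => -s * (t : ℂ) ^ (-s - 1)) (C := ‖s‖ * x ^ (-s.re - 1)) (a := x) (b := y)
    (fun t ht => (hasDeriv_cpow s (hx.trans_le ht.1)).hasDerivWithinAt)
    (fun t ht => by
      rw [norm_mul, norm_neg]
      gcongr
      have := norm_cpow_le (s := s + 1) (by simp; linarith) hx ht.1
      simpa [sub_eq_add_neg, add_comm] using this) y ⟨h, le_rfl⟩
  rw [norm_sub_rev]
  linarith

lemma cpow_diff' {s : ℂ} (hs : 0 ≤ s.re) {x y : ℝ} (hx : 0 < x) (h : x ≤ y) :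
    ‖(x : ℂ) ^ (-s) - (y : ℂ) ^ (-s)‖ ≤ 2 * x ^ (-s.re) := by
  have h1 := norm_cpow_le hs hx le_rfl
  have h2 := norm_cpow_le hs hx h
  linarith [norm_sub_le ((x : ℂ) ^ (-s)) ((y : ℂ) ^ (-s))]

/-- the constant in all bounds -/
noncomputable def Zc (η : ℝ) : ℝ := 2 * ∑' n : ℕ, ((n : ℝ) + 1) ^ (-1 - η)

lemma summable_Z {η : ℝ} (hη : 0 < η) : Summable fun n : ℕ => ((n : ℝ) + 1) ^ (-1 - η) := by
  have := (summable_nat_add_iff 1).2 (Real.summable_nat_rpow.2 (show -1 - η < -1 by linarith))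
  simpa using this

lemma Zc_ge {η : ℝ} (hη : 0 < η) : 2 ≤ Zc η := by
  have := (summable_Z hη).le_tsum 0 (fun n _ => by positivity)
  simp at this
  unfold Zc; linarith

lemma interp {η σ R v x : ℝ} (hη : 0 < η) (hη1 : η ≤ 1 / 2) (hσ : 1 - η ≤ σ) (hR : 1 ≤ R)
    (hx : 1 ≤ x) (h1 : v ≤ 2 * x ^ (-σ)) (h2 : v ≤ R * x ^ (-σ - 1)) :
    v ≤ 2 * R ^ (2 * η) * x ^ (-1 - η) := by
  have hx0 : 0 < x := by linarith
  have h3 : x ^ (-σ) ≤ x ^ (2 * η) * x ^ (-1 - η) := by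
    rw [← Real.rpow_add hx0]
    exact Real.rpow_le_rpow_of_exponent_le hx (by linarith)
  rcases le_total x R with h | h
  · have : x ^ (2 * η) ≤ R ^ (2 * η) := Real.rpow_le_rpow hx0.le h (by linarith)
    calc v ≤ 2 * (x ^ (2 * η) * x ^ (-1 - η)) := by linarith
      _ ≤ 2 * (R ^ (2 * η) * x ^ (-1 - η)) := by gcongr
      _ = _ := by ring
  · have hR0 : 0 < R := by linarith
    have e1 : R = R ^ (2 * η) * R ^ (1 - 2 * η) := by
      rw [← Real.rpow_add hR0]; simp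
    have e2 : R ^ (1 - 2 * η) ≤ x ^ (1 - 2 * η) := Real.rpow_le_rpow hR0.le h (by linarith)
    have e3 : x ^ (1 - 2 * η) * x ^ (-σ - 1) ≤ x ^ (-1 - η) := by
      rw [← Real.rpow_add hx0]
      exact Real.rpow_le_rpow_of_exponent_le hx (by linarith)
    have p1 : 0 ≤ R ^ (2 * η) := by positivity
    have p2 : 0 ≤ x ^ (-1 - η) := by positivity
    calc v ≤ R ^ (2 * η) * R ^ (1 - 2 * η) * x ^ (-σ - 1) := by rw [← e1]; exact h2
      _ ≤ R ^ (2 * η) * x ^ (1 - 2 * η) * x ^ (-σ - 1) := by gcongr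
      _ = R ^ (2 * η) * (x ^ (1 - 2 * η) * x ^ (-σ - 1)) := by ring
      _ ≤ R ^ (2 * η) * x ^ (-1 - η) := by gcongr
      _ ≤ _ := by nlinarith [mul_nonneg p1 p2]

lemma ser_bound {η σ R c : ℝ} (hη : 0 < η) (hη1 : η ≤ 1 / 2) (hσ : 1 - η ≤ σ) (hR : 1 ≤ R)
    (hc : 0 ≤ c) (g : ℕ → ℂ) (h1 : ∀ n : ℕ, ‖g n‖ ≤ c * (2 * ((n : ℝ) + 1) ^ (-σ)))
    (h2 : ∀ n : ℕ, ‖g n‖ ≤ c * (R * ((n : ℝ) + 1) ^ (-σ - 1))) :
    ‖∑' n, g n‖ ≤ c * (Zc η * R ^ (2 * η)) := by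
  have hb : ∀ n : ℕ, ‖g n‖ ≤ c * (2 * R ^ (2 * η)) * ((n : ℝ) + 1) ^ (-1 - η) := by
    intro n
    rcases hc.eq_or_lt with rfl | hc'
    · simpa using h1 n
    have := interp (v := ‖g n‖ / c) hη hη1 hσ hR (x := (n : ℝ) + 1) (by simp)
      (by rw [div_le_iff₀' hc']; exact h1 n) (by rw [div_le_iff₀' hc']; exact h2 n)
    rw [div_le_iff₀' hc'] at this
    linarith
  refine (tsum_of_norm_bounded ((summable_Z hη).mul_left _).hasSum hb).trans (le_of_eq ?_)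
  rw [tsum_mul_left, Zc]; ring

lemma ser_eq (F : ℂ → ℂ) (hF : Differentiable ℂ F) (g : ℕ → ℂ → ℂ)
    (hg : ∀ n, Differentiable ℂ (g n)) (c : ℝ)
    (hb : ∀ n s, 0 < s.re → ‖g n s‖ ≤ c * (‖s‖ + 1) ^ 2 * ((n : ℝ) + 1) ^ (-s.re - 1))
    (he : ∀ s, 2 < s.re → F s = ∑' n, g n s) {s : ℂ} (hs : 0 < s.re) : F s = ∑' n, g n s := by
  have hc : 0 ≤ c := by
    have := (norm_nonneg _).trans (hb 0 1 (by simp))
    simp at this; linarith
  set δ := min (s.re / 2) 1 with hδ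
  have hδ0 : 0 < δ := lt_min (by linarith) one_pos
  set R := ‖s‖ + 4 with hR
  set U := {z : ℂ | δ < z.re} ∩ Metric.ball 0 R with hU
  have hUo : IsOpen U := (isOpen_lt continuous_const continuous_re).inter Metric.isOpen_ball
  have hUc : Convex ℝ U := (convex_halfSpace_re_gt δ).inter (convex_ball 0 R)
  have hd : DifferentiableOn ℂ (fun z => ∑' n, g n z) U := by
    refine differentiableOn_tsum_of_summable_norm
      (u := fun n : ℕ => c * (R + 1) ^ 2 * ((n : ℝ) + 1) ^ (-1 - δ)) ((summable_Z hδ0).mul_left _)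
      (fun n => (hg n).differentiableOn) hUo (fun n z hz => (hb n z (hδ0.trans hz.1)).trans ?_)
    have h1 : ‖z‖ ≤ R := (mem_ball_zero_iff.1 hz.2).le
    have h2 : ((n : ℝ) + 1) ^ (-z.re - 1) ≤ ((n : ℝ) + 1) ^ (-1 - δ) :=
      Real.rpow_le_rpow_of_exponent_le (by simp) (by have := hz.1; simp at this; linarith)
    gcongr
  have h3 : (3 : ℂ) ∈ U := by
    refine ⟨?_, ?_⟩
    · have : δ ≤ 1 := min_le_right _ _
      simp; linarith
    · simp [hR]; linarith [norm_nonneg s]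
  have hsU : s ∈ U := by
    refine ⟨?_, by simp [hR]⟩
    have : δ ≤ s.re / 2 := min_le_left _ _
    simp; linarith
  refine (hF.differentiableOn.analyticOnNhd hUo).eqOn_of_preconnected_of_eventuallyEq
    (hd.analyticOnNhd hUo) hUc.isPreconnected h3 ?_ hsU
  filter_upwards [(isOpen_lt continuous_const continuous_re).mem_nhds
    (show (3 : ℂ) ∈ {z : ℂ | 2 < z.re} by simp; norm_num)] with z hz using he z hz

/-- terms of the series for zeta -/
noncomputable def hz (n : ℕ) (s : ℂ) : ℂ :=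
  (s - 1) * ((n : ℂ) + 1) ^ (-s) - ((n : ℂ) + 1) ^ (-(s - 1)) + ((n : ℂ) + 2) ^ (-(s - 1))

lemma hz_bound (n : ℕ) {s : ℂ} {M : ℝ}
    (hM : ∀ t : ℝ, (n : ℝ) + 1 ≤ t → t ≤ n + 2 →
      ‖(((n : ℝ) + 1 : ℝ) : ℂ) ^ (-s) - (t : ℂ) ^ (-s)‖ ≤ M) : ‖hz n s‖ ≤ ‖s - 1‖ * M := by
  set x : ℝ := n + 1 with hx
  have hx0 : 0 < x := by positivity
  have := norm_image_sub_le_of_norm_deriv_le_segment'
    (f := fun u : ℝ => (s - 1) * (x : ℂ) ^ (-s) * u + (u : ℂ) ^ (-(s - 1)))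
    (f' := fun t : ℝ => (s - 1) * ((x : ℂ) ^ (-s) - (t : ℂ) ^ (-s))) (C := ‖s - 1‖ * M)
    (a := x) (b := x + 1)
    (fun t ht => by
      have h1 := hasDeriv_cpow (s - 1) (hx0.trans_le ht.1)
      have h2 : HasDerivAt (fun u : ℝ => (s - 1) * (x : ℂ) ^ (-s) * u)
          ((s - 1) * (x : ℂ) ^ (-s) * 1) t :=
        (Complex.ofRealCLM.hasDerivAt (x := t)).const_mul _
      refine ((h2.add h1).congr_deriv ?_).hasDerivWithinAt
      rw [show -(s - 1) - 1 = -s by ring]; ring)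
    (fun t ht => by
      rw [norm_mul]
      gcongr
      exact hM t ht.1 (by linarith [ht.2])) (x + 1) ⟨by linarith, le_rfl⟩
  simp only [add_sub_cancel_left, mul_one] at this
  refine le_of_eq_of_le ?_ this
  congr 1
  simp only [hz, hx]
  push_cast
  rw [show (n : ℂ) + 1 + 1 = n + 2 by ring]; ring

lemma hz_b1 (n : ℕ) {s : ℂ} (hs : 0 ≤ s.re) :
    ‖hz n s‖ ≤ ‖s - 1‖ * (2 * ((n : ℝ) + 1) ^ (-s.re)) :=
  hz_bound n fun _ h _ => cpow_diff' hs (by positivity) h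

lemma hz_b2 (n : ℕ) {s : ℂ} (hs : 0 ≤ s.re) :
    ‖hz n s‖ ≤ ‖s - 1‖ * ((‖s‖ + 1) * ((n : ℝ) + 1) ^ (-s.re - 1)) :=
  hz_bound n fun t h h' => (cpow_diff hs (by positivity) h).trans (by
    gcongr
    nlinarith [norm_nonneg s])

lemma summable_cpow {s : ℂ} (hs : 1 < s.re) : Summable fun n : ℕ => ((n : ℂ) + 1) ^ (-s) := by
  have := (summable_nat_add_iff 1).2 (Complex.summable_one_div_nat_cpow.2 hs)
  simpa [cpow_neg] using this

lemma zeta_eq_tsum {s : ℂ} (hs : 1 < s.re) : riemannZeta s = ∑' n : ℕ, ((n : ℂ) + 1) ^ (-s) := by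
  rw [zeta_eq_tsum_one_div_nat_add_one_cpow hs]
  simp [cpow_neg]

lemma diff_cpow (x : ℂ) (hx : x ≠ 0) {f : ℂ → ℂ} (hf : Differentiable ℂ f) :
    Differentiable ℂ fun s => x ^ (f s) := fun s => (hf s).const_cpow (Or.inl hx)

lemma zeta1_eq {s : ℂ} (hs : 0 < s.re) : riemannZeta₁ s - 1 = ∑' n, hz n s := by
  refine ser_eq (fun s => riemannZeta₁ s - 1) (differentiable_riemannZeta₁.sub_const 1) hz
    (fun n => ?_) 1 (fun n s hs => (hz_b2 n hs.le).trans ?_) (fun s hs => ?_) hs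
  · have h1 : (n : ℂ) + 1 ≠ 0 := by exact_mod_cast n.succ_ne_zero
    have h2 : (n : ℂ) + 2 ≠ 0 := by exact_mod_cast (n + 1).succ_ne_zero
    exact (((differentiable_id.sub_const 1).mul (diff_cpow _ h1 differentiable_id.neg)).sub
      (diff_cpow _ h1 (differentiable_id.sub_const 1).neg)).add
      (diff_cpow _ h2 (differentiable_id.sub_const 1).neg)
  · have : ‖s - 1‖ ≤ ‖s‖ + 1 := by simpa using norm_sub_le s 1
    calc _ ≤ (‖s‖ + 1) * ((‖s‖ + 1) * ((n : ℝ) + 1) ^ (-s.re - 1)) := by gcongr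
      _ = _ := by ring
  · have h1 := summable_cpow (s := s) (by linarith)
    have h2 := summable_cpow (s := s - 1) (by simp; linarith)
    have h3 : Summable fun n : ℕ => ((n : ℂ) + 2) ^ (-(s - 1)) := by
      have := (summable_nat_add_iff 1).2 h2
      simpa [add_assoc, one_add_one_eq_two] using this
    have h4 := h2.tsum_eq_zero_add
    have hs1 : s ≠ 1 := by rintro rfl; simp at hs
    simp only [hz]
    rw [((h1.mul_left _).sub h2).tsum_add h3, (h1.mul_left _).tsum_sub h2, tsum_mul_left, h4,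
      ← zeta_eq_tsum (by linarith), riemannZeta_eq_inv_sub_mul hs1]
    have : s - 1 ≠ 0 := sub_ne_zero.2 hs1
    simp only [Nat.cast_zero, zero_add, one_cpow, Nat.cast_add, Nat.cast_one, add_assoc,
      one_add_one_eq_two]
    field_simp
    ring

theorem zeta0_bound {η : ℝ} (hη : 0 < η) (hη1 : η ≤ 1 / 2) {s : ℂ} (hs : 1 - η ≤ s.re) :
    ‖riemannZeta₀ s‖ ≤ Zc η * (‖s‖ + 1) ^ (2 * η) := by
  have key : ∀ s : ℂ, 1 - η ≤ s.re → s ≠ 1 → ‖riemannZeta₀ s‖ ≤ Zc η * (‖s‖ + 1) ^ (2 * η) := by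
    intro s hs hs1
    have h0 : 0 < s.re := by linarith
    have := ser_bound hη hη1 hs (R := ‖s‖ + 1) (by simp) (norm_nonneg (s - 1)) (fun n => hz n s)
      (fun n => hz_b1 n h0.le) (fun n => hz_b2 n h0.le)
    rw [← zeta1_eq h0, riemannZeta₁, add_sub_cancel_left, norm_mul] at this
    exact le_of_mul_le_mul_left this (norm_pos_iff.2 (sub_ne_zero.2 hs1))
  rcases eq_or_ne s 1 with rfl | hs1
  · have hc1 : Continuous fun x : ℝ => ‖riemannZeta₀ (1 + x)‖ :=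
      (differentiable_riemannZeta₀.continuous.comp (by fun_prop)).norm
    have hc2 : Continuous fun x : ℝ => Zc η * (‖(1 : ℂ) + x‖ + 1) ^ (2 * η) :=
      continuous_const.mul (Continuous.rpow_const (by fun_prop) (fun _ => Or.inr (by linarith)))
    have := le_of_tendsto_of_tendsto (b := 𝓝[>] 0)
      ((hc1.tendsto 0).mono_left nhdsWithin_le_nhds) ((hc2.tendsto 0).mono_left nhdsWithin_le_nhds)
      (by
        filter_upwards [self_mem_nhdsWithin] with x hx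
        have hx' : 0 < x := hx
        exact key _ (by simp; linarith) (by simp [hx'.ne']))
    simpa using this
  · exact key s hs hs1

/-- terms of the block series -/
noncomputable def gb (a : ℕ → ℂ) (q n : ℕ) (s : ℂ) : ℂ :=
  a (n + 1) * (((n : ℂ) + 1) ^ (-s) - ((q * (n / q + 1) : ℕ) : ℂ) ^ (-s))

lemma blk_le {q : ℕ} (hq : 0 < q) (n : ℕ) :
    n + 1 ≤ q * (n / q + 1) ∧ q * (n / q + 1) ≤ n + q := by
  have h1 := Nat.div_add_mod n q
  have h2 := Nat.mod_lt n hq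
  rw [mul_add, mul_one]
  omega

lemma gb_b1 {a : ℕ → ℂ} (ha : ∀ n, ‖a n‖ ≤ 1) {q : ℕ} (hq : 0 < q) (n : ℕ) {s : ℂ}
    (hs : 0 ≤ s.re) : ‖gb a q n s‖ ≤ 1 * (2 * ((n : ℝ) + 1) ^ (-s.re)) := by
  rw [gb, norm_mul]
  have := cpow_diff' hs (x := (n : ℝ) + 1) (y := ((q * (n / q + 1) : ℕ) : ℝ)) (by positivity)
    (by exact_mod_cast (blk_le hq n).1)
  gcongr
  · exact ha _
  · simpa using this

lemma gb_b2 {a : ℕ → ℂ} (ha : ∀ n, ‖a n‖ ≤ 1) {q : ℕ} (hq : 0 < q) (n : ℕ) {s : ℂ}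
    (hs : 0 ≤ s.re) : ‖gb a q n s‖ ≤ 1 * (q * (‖s‖ + 1) * ((n : ℝ) + 1) ^ (-s.re - 1)) := by
  rw [gb, norm_mul]
  have h1 := cpow_diff hs (x := (n : ℝ) + 1) (y := ((q * (n / q + 1) : ℕ) : ℝ)) (by positivity)
    (by exact_mod_cast (blk_le hq n).1)
  have h2 : ((q * (n / q + 1) : ℕ) : ℝ) ≤ n + q := by exact_mod_cast (blk_le hq n).2
  have h3 : ‖s‖ * (((q * (n / q + 1) : ℕ) : ℝ) - (n + 1)) ≤ q * (‖s‖ + 1) := by
    nlinarith [norm_nonneg s]
  have h4 := h1.trans (mul_le_mul_of_nonneg_right h3 (by positivity))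
  gcongr
  · exact ha _
  · simpa using h4

lemma gb_bound {a : ℕ → ℂ} (ha : ∀ n, ‖a n‖ ≤ 1) {q : ℕ} (hq : 0 < q) {η : ℝ} (hη : 0 < η)
    (hη1 : η ≤ 1 / 2) {s : ℂ} (hs : 1 - η ≤ s.re) :
    ‖∑' n, gb a q n s‖ ≤ Zc η * (q * (‖s‖ + 1)) ^ (2 * η) := by
  have h0 : 0 < s.re := by linarith
  have hq' : (1 : ℝ) ≤ q := by exact_mod_cast hq
  simpa using ser_bound hη hη1 hs (R := q * (‖s‖ + 1)) (by nlinarith [norm_nonneg s]) zero_le_one
    (fun n => gb a q n s) (fun n => gb_b1 ha hq n h0.le) (fun n => gb_b2 ha hq n h0.le)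

lemma LSeries_eq_tsum (a : ℕ → ℂ) {s : ℂ} (h : LSeriesSummable a s) :
    LSeries a s = ∑' n : ℕ, a (n + 1) * ((n : ℂ) + 1) ^ (-s) := by
  rw [LSeries, h.tsum_eq_zero_add]
  simp [LSeries.term, cpow_neg, div_eq_mul_inv]

lemma LSeries_block {a : ℕ → ℂ} (ha : ∀ n, ‖a n‖ ≤ 1) {q : ℕ} (hq : 0 < q)
    (hp : ∀ n, a (n + q) = a n) {s : ℂ} (hs : 1 < s.re) :
    LSeries a s = (∑ n ∈ range q, a n) * (q : ℂ) ^ (-s) * riemannZeta s + ∑' n, gb a q n s := by
  have hb : ∀ (n : ℕ) (t : ℕ), n + 1 ≤ t → ‖a (n + 1) * (t : ℂ) ^ (-s)‖ ≤ ‖((n : ℂ) + 1) ^ (-s)‖ := by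
    intro n t ht
    have h1 := norm_cpow_le (s := s) (by linarith) (x := (n : ℝ) + 1) (t := t) (by positivity)
      (by exact_mod_cast ht)
    have h2 := norm_cpow_eq_rpow_re_of_pos (x := (n : ℝ) + 1) (by positivity) (-s)
    push_cast at h1 h2
    rw [norm_mul, h2, neg_re]
    exact (mul_le_of_le_one_left (norm_nonneg _) (ha _)).trans h1
  have hS := (summable_cpow hs).norm
  have h1 : Summable fun n : ℕ => a (n + 1) * ((n : ℂ) + 1) ^ (-s) :=
    .of_norm_bounded hS fun n => by simpa using hb n (n + 1) le_rfl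
  have h2 : Summable fun n : ℕ => a (n + 1) * ((q * (n / q + 1) : ℕ) : ℂ) ^ (-s) :=
    .of_norm_bounded hS fun n => hb n _ (blk_le hq n).1
  have hper : ∀ k n, a (q * k + n) = a n := by
    intro k n
    induction k with
    | zero => simp
    | succ k ih => rw [← ih, ← hp (q * k + n)]; congr 1; ring
  have hsum : ∑ n ∈ range q, a (n + 1) = ∑ n ∈ range q, a n := by
    have e1 := sum_range_succ' a q
    have e2 := sum_range_succ a q
    have e3 := hp 0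
    rw [zero_add] at e3
    rw [e1, e3] at e2
    exact add_right_cancel e2
  have h3 : ∀ K : ℕ, ∑ n ∈ range (q * K), a (n + 1) * ((q * (n / q + 1) : ℕ) : ℂ) ^ (-s) =
      (∑ n ∈ range q, a n) * (q : ℂ) ^ (-s) * ∑ k ∈ range K, ((k : ℂ) + 1) ^ (-s) := by
    intro K
    induction K with
    | zero => simp
    | succ K ih =>
      rw [mul_add, mul_one, sum_range_add, ih, sum_range_succ, mul_add, ← hsum, sum_mul, sum_mul,
        sum_mul]
      congr 1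
      refine sum_congr rfl fun n hn => ?_
      have : (q * K + n) / q = K := by
        rw [Nat.mul_add_div hq, Nat.div_eq_of_lt (mem_range.1 hn), add_zero]
      rw [this, add_assoc, hper, Nat.cast_mul, natCast_mul_natCast_cpow]
      push_cast; ring
  have h4 : ∑' n : ℕ, a (n + 1) * ((q * (n / q + 1) : ℕ) : ℂ) ^ (-s) =
      (∑ n ∈ range q, a n) * (q : ℂ) ^ (-s) * riemannZeta s := by
    have t1 := h2.hasSum.tendsto_sum_nat.comp
      (tendsto_id.const_mul_atTop' hq : Tendsto (fun K : ℕ => q * K) atTop atTop)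
    have t2 := (summable_cpow hs).hasSum.tendsto_sum_nat.const_mul
      ((∑ n ∈ range q, a n) * (q : ℂ) ^ (-s))
    rw [zeta_eq_tsum hs]
    refine tendsto_nhds_unique t1 (t2.congr fun K => ?_)
    simp only [Function.comp, h3]
  rw [LSeries_eq_tsum a (LSeriesSummable_of_bounded_of_one_lt_re (m := 1) (fun n _ => ha n) hs),
    ← h4]
  simp only [gb, mul_sub]
  rw [h1.tsum_sub h2]; ring

/-- bound for the series of a periodic function of mean zero -/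
theorem LSeries_bound {a : ℕ → ℂ} (ha : ∀ n, ‖a n‖ ≤ 1) {q : ℕ} (hq : 0 < q)
    (hp : ∀ n, a (n + q) = a n) (h0 : ∑ n ∈ range q, a n = 0) {η : ℝ} (hη : 0 < η)
    (hη1 : η ≤ 1 / 2) {s : ℂ} (hs : 1 < s.re) :
    ‖LSeries a s‖ ≤ Zc η * (q * (‖s‖ + 1)) ^ (2 * η) := by
  rw [LSeries_block ha hq hp hs, h0]
  simpa using gb_bound ha hq hη hη1 (s := s) (by linarith)

open DirichletCharacter

variable {q : ℕ} [NeZero q]

lemma chi_sum {χ : DirichletCharacter ℂ q} (hχ : χ ≠ 1) : ∑ n ∈ range q, χ n = 0 := by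
  rw [← MulChar.sum_eq_zero_of_ne_one hχ]
  exact sum_nbij' (fun n => (n : ZMod q)) (fun x => x.val) (by simp)
    (fun x _ => mem_range.2 (ZMod.val_lt x))
    (fun n hn => ZMod.val_cast_of_lt (mem_range.1 hn)) (by simp) (by simp)

lemma LFunction_eq_gb {χ : DirichletCharacter ℂ q} (hχ : χ ≠ 1) {s : ℂ} (hs : 0 < s.re) :
    LFunction χ s = ∑' n, gb (fun n => χ n) q n s := by
  have hq := NeZero.pos q
  refine ser_eq _ (differentiable_LFunction hχ) _ (fun n => ?_) q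
    (fun n s hs => (gb_b2 (fun n => χ.norm_le_one n) hq n hs.le).trans ?_) (fun s hs => ?_) hs
  · have h1 : (n : ℂ) + 1 ≠ 0 := by exact_mod_cast n.succ_ne_zero
    have h2 : ((q * (n / q + 1) : ℕ) : ℂ) ≠ 0 := by
      exact_mod_cast (show q * (n / q + 1) ≠ 0 by positivity)
    exact ((diff_cpow _ h1 differentiable_id.neg).sub
      (diff_cpow _ h2 differentiable_id.neg)).const_mul _
  · rw [one_mul]
    gcongr
    nlinarith [norm_nonneg s]
  · rw [LFunction_eq_LSeries χ (by linarith), LSeries_block (fun n => χ.norm_le_one n) hq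
      (by simp) (by linarith), chi_sum hχ]
    simp

theorem LFunction_bound {χ : DirichletCharacter ℂ q} (hχ : χ ≠ 1) {η : ℝ} (hη : 0 < η)
    (hη1 : η ≤ 1 / 2) {s : ℂ} (hs : 1 - η ≤ s.re) :
    ‖LFunction χ s‖ ≤ Zc η * (q * (‖s‖ + 1)) ^ (2 * η) := by
  rw [LFunction_eq_gb hχ (by linarith)]
  exact gb_bound (fun n => χ.norm_le_one n) (NeZero.pos q) hη hη1 hs

theorem LFunction_bound' (χ : DirichletCharacter ℂ q) {η : ℝ} (hη : 0 < η)
    (hη1 : η ≤ 1 / 2) {s : ℂ} (hs : 1 < s.re) :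
    ‖LFunction χ s‖ ≤ ‖s - 1‖⁻¹ + 2 * (Zc η * (q * (‖s‖ + 1)) ^ (2 * η)) := by
  have hq := NeZero.pos q
  have hq' : (1 : ℝ) ≤ q := by exact_mod_cast hq
  have hs1 : s ≠ 1 := by rintro rfl; simp at hs
  rw [LFunction_eq_LSeries χ hs, LSeries_block (fun n => χ.norm_le_one n) hq (by simp) hs]
  have h1 := gb_bound (a := fun n => χ n) (fun n => χ.norm_le_one n) hq hη hη1 (s := s)
    (by linarith)
  have h2 := zeta0_bound hη hη1 (s := s) (by linarith)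
  have h3 : ‖∑ n ∈ range q, χ n‖ ≤ q := by
    refine (norm_sum_le _ _).trans ((sum_le_sum fun (n : ℕ) _ => χ.norm_le_one n).trans ?_)
    simp
  have h4 : ‖(q : ℂ) ^ (-s)‖ ≤ (q : ℝ)⁻¹ := by
    rw [norm_natCast_cpow_of_pos hq, ← Real.rpow_neg_one]
    exact Real.rpow_le_rpow_of_exponent_le hq' (by simp; linarith)
  have h5 : ‖riemannZeta s‖ ≤ ‖s - 1‖⁻¹ + ‖riemannZeta₀ s‖ := by
    rw [riemannZeta_eq_inv_sub_add hs1, ← norm_inv]; exact norm_add_le _ _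
  have h6 : (‖s‖ + 1) ^ (2 * η) ≤ (q * (‖s‖ + 1)) ^ (2 * η) :=
    Real.rpow_le_rpow (by positivity) (by nlinarith [norm_nonneg s]) (by linarith)
  have h7 : ‖(∑ n ∈ range q, χ n) * (q : ℂ) ^ (-s)‖ ≤ 1 := by
    rw [norm_mul]
    calc _ ≤ (q : ℝ) * (q : ℝ)⁻¹ := by gcongr
      _ = 1 := by field_simp
  have h8 := mul_le_mul_of_nonneg_left h6 (show 0 ≤ Zc η by linarith [Zc_ge hη])
  refine (norm_add_le _ _).trans ?_
  rw [norm_mul]
  have := mul_le_of_le_one_left (norm_nonneg (riemannZeta s)) h7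
  linarith

lemma LFunction_im {χ : DirichletCharacter ℂ q} (hχ : χ ≠ 1) (h2 : χ ^ 2 = 1) {x : ℝ}
    (hx : 0 < x) : (LFunction χ x).im = 0 := by
  rw [LFunction_eq_gb hχ (by simpa using hx), ← conj_eq_iff_im, conj_tsum]
  refine tsum_congr fun n => ?_
  rw [conj_eq_iff_im]
  have h1 : (χ ((n + 1 : ℕ) : ZMod q)).im = 0 := by
    rcases MulChar.isQuadratic_iff_sq_eq_one.2 h2 ((n + 1 : ℕ) : ZMod q) with h | h | h <;>
      rw [h] <;> simp
  have h3 : ∀ t : ℕ, ((t : ℂ) ^ (-(x : ℂ))).im = 0 := by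
    intro t
    rw [← ofReal_natCast, ← ofReal_neg, ← ofReal_cpow (by positivity), ofReal_im]
  have h4 := h3 (n + 1)
  push_cast at h4
  simp only [gb, mul_im, h1, sub_im, h3, h4]
  simp

end Pool.Agent.Lib.SW
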