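import Pool.Agent.Lib.SW.Siegel

/-! A weak zero-free region with bounds for the logarithmic derivative. -/

namespace Pool.Agent.Lib.SW

open Finset Complex Filter Topology DirichletCharacter

lemma seg_diff {f : ℂ → ℂ} (hf : Differentiable ℂ f) {S : Set ℂ} (hS : Convex ℝ S) {D : ℝ}
    (hD : ∀ s ∈ S, ‖deriv f s‖ ≤ D) {s w : ℂ} (hs : s ∈ S) (hw : w ∈ S) :
    ‖f w - f s‖ ≤ D * ‖w - s‖ :=
  hS.norm_image_sub_le_of_norm_deriv_le (fun z _ => hf z) hD hs hw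

lemma convex_box (x T : ℝ) : Convex ℝ {s : ℂ | |s.re - 1| ≤ x ∧ |s.im| ≤ T} := by
  have : {s : ℂ | |s.re - 1| ≤ x ∧ |s.im| ≤ T} = ({s : ℂ | 1 - x ≤ s.re} ∩ {s | s.re ≤ 1 + x}) ∩
      ({s : ℂ | -T ≤ s.im} ∩ {s | s.im ≤ T}) := by
    ext s
    simp only [abs_le, Set.mem_inter_iff, Set.mem_ofPred_eq]
    constructor
    · rintro ⟨⟨a, b⟩, c, d⟩; exact ⟨⟨by linarith, by linarith⟩, c, d⟩
    · rintro ⟨⟨a, b⟩, c, d⟩; exact ⟨⟨by linarith, by linarith⟩, c, d⟩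
  rw [this]
  exact ((convex_halfSpace_re_ge _).inter (convex_halfSpace_re_le _)).inter
    ((convex_halfSpace_im_ge _).inter (convex_halfSpace_im_le _))

lemma seg_core {f : ℂ → ℂ} (hf : Differentiable ℂ f) {x D : ℝ} (hx : 0 < x) (hD0 : 0 < D) {s w : ℂ}
    (hD : ∀ z : ℂ, |z.re - 1| ≤ x → |z.im| ≤ |s.im| → ‖deriv f z‖ ≤ D) (hs : |s.re - 1| ≤ x)
    (hw : |w.re - 1| ≤ x) (hi : w.im = s.im) (h : 4 * x * D ≤ ‖f w‖) :
    f s ≠ 0 ∧ ‖deriv f s / f s‖ ≤ 1 / x := by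
  have h1 := seg_diff hf (convex_box x |s.im|) (fun z hz => hD z hz.1 hz.2) (s := s) (w := w)
    ⟨hs, le_rfl⟩ ⟨hw, by rw [hi]⟩
  have h2 : ‖w - s‖ ≤ 2 * x := by
    rw [show w - s = ((w.re - s.re : ℝ) : ℂ) from Complex.ext (by simp) (by simp [hi]), norm_real,
      Real.norm_eq_abs, abs_le]
    rw [abs_le] at hs hw
    constructor <;> linarith [hs.1, hs.2, hw.1, hw.2]
  have h3 : 2 * x * D ≤ ‖f s‖ := by
    have := norm_sub_norm_le (f w) (f s)
    nlinarith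
  have h4 : 0 < ‖f s‖ := lt_of_lt_of_le (by positivity) h3
  refine ⟨norm_pos_iff.1 h4, ?_⟩
  rw [norm_div, div_le_div_iff₀ h4 hx]
  have := hD s hs le_rfl
  nlinarith [norm_nonneg (deriv f s)]

lemma deriv_box {f : ℂ → ℂ} (hf : Differentiable ℂ f) {η T K : ℝ} (hη : 0 < η) (hη1 : η ≤ 1 / 2)
    (hK : ∀ z : ℂ, 1 - η ≤ z.re → ‖z‖ + 1 ≤ 2 * T + 5 → ‖f z‖ ≤ K) (hT : 0 ≤ T) {z : ℂ}
    (h1 : |z.re - 1| ≤ η / 2) (h2 : |z.im| ≤ T) : ‖deriv f z‖ ≤ K / (η / 2) := by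
  refine norm_deriv_le_of_forall_mem_sphere_norm_le (by linarith) hf.diffContOnCl fun w hw => ?_
  have h3 : ‖w - z‖ = η / 2 := by simpa [dist_eq_norm] using hw
  have h4 := (abs_le.1 ((abs_re_le_norm _).trans h3.le)).1
  rw [abs_le] at h1
  have h5 := norm_le_abs_re_add_abs_im z
  have h6 : |z.re| ≤ 2 := abs_le.2 ⟨by linarith [h1.1], by linarith [h1.2]⟩
  have h7 := norm_add_le (w - z) z
  simp only [sub_re, sub_add_cancel] at h4 h7
  exact hK w (by linarith [h1.1]) (by linarith)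

lemma three_four_one {q : ℕ} [NeZero q] (χ : DirichletCharacter ℂ q) {x t K K2 D : ℝ} (hx : 0 < x)
    (hD : 0 < D) (h1 : ‖LFunction (1 : DirichletCharacter ℂ q) (1 + x)‖ ≤ x⁻¹ + K) (hxK : x * K ≤ 1)
    (h2 : ‖LFunction (χ ^ 2) (1 + x + 2 * I * t)‖ ≤ K2) (h3 : x * (8 * D ^ 4 * K2) ≤ 1) :
    x * D ≤ ‖LFunction χ (1 + x + I * t)‖ := by
  have h := norm_LFunction_product_ge_one χ hx t
  rw [norm_mul, norm_mul, norm_pow, norm_pow] at h
  have a1 : ‖LFunctionTrivChar q (1 + x)‖ ≤ 2 * x⁻¹ := by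
    refine h1.trans ?_
    have : K ≤ x⁻¹ := by rw [← one_div, le_div_iff₀ hx]; linarith
    linarith
  by_contra hc
  push Not at hc
  have hK2 : 0 ≤ K2 := (norm_nonneg _).trans h2
  rcases hK2.eq_or_lt with h0 | h0
  · have : ‖LFunction (χ ^ 2) (1 + x + 2 * I * t)‖ = 0 := le_antisymm (h0 ▸ h2) (norm_nonneg _)
    rw [this] at h; norm_num at h
  have : ‖LFunctionTrivChar q (1 + x)‖ ^ 3 * ‖LFunction χ (1 + x + I * t)‖ ^ 4 *
      ‖LFunction (χ ^ 2) (1 + x + 2 * I * t)‖ < 1 := by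
    calc _ ≤ (2 * x⁻¹) ^ 3 * ‖LFunction χ (1 + x + I * t)‖ ^ 4 * K2 := by gcongr
      _ < (2 * x⁻¹) ^ 3 * (x * D) ^ 4 * K2 := by gcongr
      _ = x * (8 * D ^ 4 * K2) := by field_simp; ring
      _ ≤ 1 := h3
  linarith

lemma W_le {q T η : ℝ} (hq : 1 ≤ q) (hT : 1 ≤ T) (hη : 0 < η) (hη1 : η ≤ 1 / 2) {u : ℝ}
    (hu0 : 0 ≤ u) (hu : u ≤ 2 * T + 5) : (q * u) ^ (2 * η) ≤ 7 * (q * T) ^ (2 * η) := by
  have c2 : (7 : ℝ) ^ (2 * η) ≤ 7 ^ (1 : ℝ) :=
    Real.rpow_le_rpow_of_exponent_le (by norm_num) (by linarith)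
  rw [Real.rpow_one] at c2
  calc (q * u) ^ (2 * η) ≤ (7 * (q * T)) ^ (2 * η) :=
        Real.rpow_le_rpow (by positivity) (by nlinarith) (by linarith)
    _ = 7 ^ (2 * η) * (q * T) ^ (2 * η) := Real.mul_rpow (by norm_num) (by positivity)
    _ ≤ _ := by gcongr

lemma triv_bounds {q : ℕ} [NeZero q] (χ : DirichletCharacter ℂ q) {η T x t : ℝ} (hη : 0 < η)
    (hη1 : η ≤ 1 / 2) (hT : 1 ≤ T) (hx : 0 < x) (hx1 : x ≤ 1) (ht : |t| ≤ T) :
    ‖LFunction (1 : DirichletCharacter ℂ q) (1 + x)‖ ≤ x⁻¹ + 14 * Zc η * (q * T) ^ (2 * η) ∧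
    ‖(1 + x + 2 * I * t : ℂ)‖ + 1 ≤ 2 * T + 5 ∧
    (t ≠ 0 → ‖LFunction χ (1 + x + 2 * I * t)‖ ≤ |t|⁻¹ + 14 * Zc η * (q * T) ^ (2 * η)) := by
  have hq : (1 : ℝ) ≤ q := by exact_mod_cast NeZero.pos q
  have hZ := Zc_ge hη
  have n1 : ‖(1 + x : ℂ)‖ ≤ 2 := by
    refine (norm_add_le _ _).trans ?_
    rw [norm_one, norm_real, Real.norm_eq_abs, abs_of_pos hx]; linarith
  have n2 : ‖(1 + x + 2 * I * t : ℂ)‖ + 1 ≤ 2 * T + 5 := by
    have := norm_add_le (1 + x : ℂ) (2 * I * t)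
    simp only [norm_mul, norm_I, norm_real, Real.norm_eq_abs, Complex.norm_ofNat] at this
    linarith
  refine ⟨?_, n2, fun h0 => ?_⟩
  · have h := LFunction_bound' (1 : DirichletCharacter ℂ q) hη hη1 (s := 1 + x) (by simpa using hx)
    have h2 := W_le hq hT hη hη1 (u := ‖(1 + x : ℂ)‖ + 1) (by positivity) (by linarith)
    rw [add_sub_cancel_left, norm_real, Real.norm_eq_abs, abs_of_pos hx] at h
    nlinarith
  · have h := LFunction_bound' χ hη hη1 (s := 1 + x + 2 * I * t) (by simpa using hx)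
    have h2 := W_le hq hT hη hη1 (by positivity) n2
    have h3 : |t| ≤ ‖(1 + x + 2 * I * t - 1 : ℂ)‖ := by
      have := abs_im_le_norm (1 + x + 2 * I * t - 1 : ℂ)
      simp [abs_mul] at this
      linarith [abs_nonneg t]
    have h4 := inv_anti₀ (abs_pos.2 h0) h3
    nlinarith

theorem zero_free {ε : ℝ} (hε : 0 < ε) : ∃ c : ℝ, 0 < c ∧ ∀ (q : ℕ) [NeZero q]
    (χ : DirichletCharacter ℂ q), χ ≠ 1 → ∀ T x : ℝ, 1 ≤ T → 0 < x → x * (q * T) ^ ε ≤ c →
    ∀ s : ℂ, |s.re - 1| ≤ x → |s.im| ≤ T →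
      LFunction χ s ≠ 0 ∧ ‖deriv (LFunction χ) s / LFunction χ s‖ ≤ 1 / x := by
  set η := min (1 / 2) (ε / 20) with hηd
  have hη : 0 < η := lt_min (by norm_num) (by linarith)
  have hη1 : η ≤ 1 / 2 := min_le_left _ _
  have hη2 : η ≤ ε / 20 := min_le_right _ _
  have hZ := Zc_ge hη
  obtain ⟨c, hc, hS⟩ := siegel (ε := 2 * η) (by linarith)
  set k1 := 14 * Zc η / (η / 2) with hk1
  have hk1' : 14 * Zc η ≤ k1 := by
    rw [hk1, le_div_iff₀ (by linarith)]; nlinarith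
  have hk1'' : 2 / η ≤ k1 := by
    rw [hk1, div_le_div_iff₀ hη (by linarith)]; nlinarith
  have hk0 : 0 < k1 := by linarith
  set k2 := k1 + 2 * k1 / c with hk2
  have hk2' : k1 ≤ k2 := by
    have : 0 ≤ 2 * k1 / c := by positivity
    linarith
  refine ⟨1 / (2048 * k2 ^ 5), by positivity, fun q _ χ hχ T x hT hx hxc s hs1 hs2 => ?_⟩
  have hq : (1 : ℝ) ≤ q := by exact_mod_cast NeZero.pos q
  have hqT : (1 : ℝ) ≤ q * T := by nlinarith
  set Y := ((q : ℝ) * T) ^ (2 * η) with hY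
  have hY1 : 1 ≤ Y := Real.one_le_rpow hqT (by linarith)
  set P := k2 * Y ^ 2 with hP
  have hP1 : k1 * Y ≤ P := by rw [hP, sq]; gcongr; nlinarith
  have hP2 : k1 ≤ k1 * Y := le_mul_of_one_le_right (by linarith) hY1
  have hP3 : 14 * Zc η * Y ≤ k1 * Y := by gcongr
  have hxP : x * (2048 * P ^ 5) ≤ 1 := by
    have h1 : Y ^ 10 ≤ (q * T) ^ ε := by
      rw [hY, ← Real.rpow_natCast, ← Real.rpow_mul (by positivity)]
      exact Real.rpow_le_rpow_of_exponent_le hqT (by push_cast; linarith)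
    rw [le_div_iff₀ (by positivity)] at hxc
    calc _ = x * Y ^ 10 * (2048 * k2 ^ 5) := by rw [hP]; ring
      _ ≤ x * (q * T) ^ ε * (2048 * k2 ^ 5) := by gcongr
      _ ≤ 1 := hxc
  have hP4 : 1 ≤ P := by linarith
  have hxP' : x * (16 * P) ≤ 1 := by
    refine le_trans ?_ hxP
    have : P ≤ P ^ 5 := le_self_pow₀ hP4 (by norm_num)
    gcongr x * ?_
    linarith
  have hxη : x ≤ η / 2 := by
    have : 2 / η ≤ P := by linarith
    rw [div_le_iff₀ hη] at this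
    nlinarith
  have hD : ∀ z : ℂ, |z.re - 1| ≤ x → |z.im| ≤ T → ‖deriv (LFunction χ) z‖ ≤ k1 * Y := by
    intro z h1 h2
    refine (deriv_box (differentiable_LFunction hχ) hη hη1 (K := 14 * Zc η * Y) (T := T)
      (fun w a b => (LFunction_bound hχ hη hη1 a).trans ?_) (by linarith) (h1.trans hxη) h2).trans
      (le_of_eq (by rw [hk1]; ring))
    have := W_le hq hT hη hη1 (by positivity) b
    nlinarith
  obtain ⟨b1, b2, b3⟩ := triv_bounds (χ ^ 2) hη hη1 hT hx (by linarith) hs2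
  have key : ∀ K2 : ℝ, ‖LFunction (χ ^ 2) (1 + x + 2 * I * s.im)‖ ≤ K2 → K2 ≤ P →
      LFunction χ s ≠ 0 ∧ ‖deriv (LFunction χ) s / LFunction χ s‖ ≤ 1 / x := by
    intro K2 h1 h2
    have := three_four_one χ hx (D := 4 * (k1 * Y)) (by positivity) b1 (by nlinarith) h1 (by
      refine le_trans ?_ hxP
      calc _ ≤ x * (8 * (4 * P) ^ 4 * P) := by
            have := (norm_nonneg _).trans h1
            gcongr
        _ = _ := by ring)
    exact seg_core (differentiable_LFunction hχ) hx (D := k1 * Y) (by positivity)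
      (fun z a b => hD z a (b.trans hs2)) hs1 (w := 1 + x + I * s.im)
      (by simp [abs_of_pos hx]) (by simp) (by linarith)
  by_cases h2 : χ ^ 2 = 1
  · set τ := c / (2 * (k1 * Y) * Y) with hτ
    have hτ0 : 0 < τ := by positivity
    rcases le_total τ |s.im| with h | h
    · refine key _ (b3 (abs_pos.1 (hτ0.trans_le h))) ?_
      have e1 : |s.im|⁻¹ ≤ τ⁻¹ := inv_anti₀ hτ0 h
      have e2 : τ⁻¹ = 2 * k1 / c * Y ^ 2 := by rw [hτ]; field_simp
      have e3 : k1 * Y ≤ k1 * Y ^ 2 := by rw [sq]; gcongr; nlinarith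
      rw [hP, hk2]
      linarith
    · have e1 := seg_diff (differentiable_LFunction hχ) (convex_box x T)
        (fun z hz => hD z hz.1 hz.2) (s := 1 + I * s.im) (w := 1) ⟨by simp [hx.le], by simpa⟩
        ⟨by simp [hx.le], by simp; linarith⟩
      have e2 := norm_sub_norm_le (LFunction χ 1) (LFunction χ (1 + I * s.im))
      have e3 : c ≤ ‖LFunction χ 1‖ * Y := (hS q χ hχ h2).trans (by
        gcongr
        exact Real.rpow_le_rpow (by positivity) (by nlinarith) (by linarith))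
      have e4 : 2 * (k1 * Y * τ) ≤ ‖LFunction χ 1‖ := by
        rw [hτ, show 2 * (k1 * Y * (c / (2 * (k1 * Y) * Y))) = c / Y by field_simp,
          div_le_iff₀ (by positivity)]
        exact e3
      have e5 : 4 * x ≤ τ := by
        rw [hτ, le_div_iff₀ (by positivity)]
        have : 2 * k1 / c * Y ^ 2 ≤ P := by rw [hP, hk2]; gcongr; linarith
        have h6 : 4 * x * (2 * k1 / c * Y ^ 2) ≤ 1 := by nlinarith
        rw [show 4 * x * (2 * k1 / c * Y ^ 2) = 4 * x * (2 * (k1 * Y) * Y) / c by ring,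
          div_le_iff₀ hc] at h6
        linarith
      simp only [sub_add_cancel_left, norm_neg, norm_mul, norm_I, one_mul, norm_real,
        Real.norm_eq_abs] at e1
      have e6 : k1 * Y * |s.im| ≤ k1 * Y * τ := by gcongr
      have e7 : 4 * x * (k1 * Y) ≤ τ * (k1 * Y) := by gcongr
      exact seg_core (differentiable_LFunction hχ) hx (D := k1 * Y) (by positivity)
        (fun z a b => hD z a (b.trans hs2)) hs1 (w := 1 + I * s.im)
        (by simp [hx.le]) (by simp) (by linarith)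
  · refine key _ (LFunction_bound h2 hη hη1 (by simp; linarith)) ?_
    have := W_le hq hT hη hη1 (by positivity) b2
    nlinarith

lemma zeta1_ne {s : ℂ} (hs : 1 ≤ s.re) : riemannZeta₁ s ≠ 0 := by
  rcases eq_or_ne s 1 with h | h
  · simp [h]
  · intro h5
    refine riemannZeta_ne_zero_of_one_le_re hs ?_
    rw [riemannZeta_eq_inv_sub_mul h, h5, mul_zero]

theorem zero_free_zeta {ε : ℝ} (hε : 0 < ε) : ∃ c : ℝ, 0 < c ∧ ∀ T x : ℝ, 1 ≤ T → 0 < x →
    x * T ^ ε ≤ c → ∀ s : ℂ, |s.re - 1| ≤ x → |s.im| ≤ T →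
      riemannZeta₁ s ≠ 0 ∧ ‖deriv riemannZeta₁ s / riemannZeta₁ s‖ ≤ 1 / x ∧
        ‖riemannZeta₀ s‖ ≤ 1 / x := by
  set η := min (1 / 2) (ε / 20) with hηd
  have hη : 0 < η := lt_min (by norm_num) (by linarith)
  have hη1 : η ≤ 1 / 2 := min_le_left _ _
  have hη2 : η ≤ ε / 20 := min_le_right _ _
  have hZ := Zc_ge hη
  obtain ⟨c, hc, hS⟩ : ∃ c : ℝ, 0 < c ∧ ∀ t : ℝ, |t| ≤ 1 → c ≤ ‖riemannZeta₁ (1 + I * t)‖ := by
    obtain ⟨t0, -, h0⟩ := isCompact_Icc.exists_isMinOn (Set.nonempty_Icc.2 (by norm_num : (-1 : ℝ) ≤ 1))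
      (f := fun t : ℝ => ‖riemannZeta₁ (1 + I * t)‖)
      (differentiable_riemannZeta₁.continuous.comp (by fun_prop)).norm.continuousOn
    exact ⟨_, norm_pos_iff.2 (zeta1_ne (by simp)), fun t ht => h0 (abs_le.1 ht)⟩
  set k1 := 14 * Zc η / (η / 2) with hk1
  have hk1' : 2 * (14 * Zc η) ≤ k1 := by
    rw [hk1, le_div_iff₀ (by linarith)]; nlinarith
  have hk1'' : 2 / η ≤ k1 := by
    rw [hk1, div_le_div_iff₀ hη (by linarith)]; nlinarith
  have hk0 : 0 < k1 := by linarith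
  set k2 := 12 * k1 + 12 * k1 / c with hk2
  have hk2' : 12 * k1 ≤ k2 := by
    have : 0 ≤ 12 * k1 / c := by positivity
    linarith
  refine ⟨1 / (8 * k2 ^ 5), by positivity, fun T x hT hx hxc s hs1 hs2 => ?_⟩
  set Y := (((1 : ℕ) : ℝ) * T) ^ (2 * η) with hY
  have hY1 : 1 ≤ Y := Real.one_le_rpow (by simpa using hT) (by linarith)
  set P := k2 * Y with hP
  have hP1 : 12 * (k1 * Y) ≤ P := by rw [hP, ← mul_assoc]; gcongr
  have hP2 : k1 ≤ k1 * Y := le_mul_of_one_le_right (by linarith) hY1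
  have hP3 : 2 * (14 * Zc η * Y) ≤ k1 * Y := by rw [← mul_assoc]; gcongr
  have hP5 : 1 ≤ 14 * Zc η * Y := by nlinarith
  have hxP : x * (8 * P ^ 5) ≤ 1 := by
    have h1 : Y ^ 5 ≤ T ^ ε := by
      rw [hY, ← Real.rpow_natCast, ← Real.rpow_mul (by positivity), Nat.cast_one, one_mul]
      exact Real.rpow_le_rpow_of_exponent_le hT (by push_cast; linarith)
    rw [le_div_iff₀ (by positivity)] at hxc
    calc _ = x * Y ^ 5 * (8 * k2 ^ 5) := by rw [hP]; ring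
      _ ≤ x * T ^ ε * (8 * k2 ^ 5) := by gcongr
      _ ≤ 1 := hxc
  have hP4 : 1 ≤ P := by linarith
  have hxP' : x * P ≤ 1 := by
    refine le_trans ?_ hxP
    have : P ≤ P ^ 5 := le_self_pow₀ hP4 (by norm_num)
    gcongr x * ?_
    linarith
  have hxη : x ≤ η / 2 := by
    have : 2 / η ≤ P := by linarith
    rw [div_le_iff₀ hη] at this
    nlinarith
  have h0 : ∀ w : ℂ, 1 - η ≤ w.re → ‖w‖ + 1 ≤ 2 * T + 5 → ‖riemannZeta₀ w‖ ≤ 14 * Zc η * Y := by
    intro w a b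
    refine (zeta0_bound hη hη1 a).trans ?_
    have := W_le le_rfl hT hη hη1 (by positivity) b
    rw [one_mul] at this
    simp only [hY, Nat.cast_one]
    nlinarith [Real.rpow_nonneg (show 0 ≤ 1 * T by linarith) (2 * η)]
  have h0' : ∀ z : ℂ, |z.re - 1| ≤ x → |z.im| ≤ T → ‖riemannZeta₀ z‖ ≤ 14 * Zc η * Y := by
    intro z h1 h2
    have h5 := norm_le_abs_re_add_abs_im z
    rw [abs_le] at h1
    have h6 : |z.re| ≤ 2 := abs_le.2 ⟨by linarith [h1.1], by linarith [h1.2]⟩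
    exact h0 z (by linarith [h1.1]) (by linarith)
  have hD : ∀ z : ℂ, |z.re - 1| ≤ x → |z.im| ≤ T →
      ‖deriv riemannZeta₁ z‖ ≤ (2 + |z.im|) * (k1 * Y) := by
    intro z h1 h2
    have a1 := (deriv_box differentiable_riemannZeta₀ hη hη1 h0 (by linarith) (h1.trans hxη)
      h2).trans (le_of_eq (show _ = k1 * Y by rw [hk1]; ring))
    have a2 : deriv riemannZeta₁ z = riemannZeta₀ z + (z - 1) * deriv riemannZeta₀ z := by
      have := (((hasDerivAt_id z).sub_const 1).mul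
        (differentiable_riemannZeta₀ z).hasDerivAt).const_add 1
      have e := this.deriv
      simp only [id, one_mul] at e
      exact e
    have a3 := norm_le_abs_re_add_abs_im (z - 1)
    simp only [sub_re, one_re, sub_im, one_im, sub_zero] at a3
    have a4 : ‖z - 1‖ * ‖deriv riemannZeta₀ z‖ ≤ (1 + |z.im|) * (k1 * Y) := by
      gcongr; linarith
    rw [a2]
    refine (norm_add_le _ _).trans ?_
    rw [norm_mul]
    linarith [h0' z h1 h2]
  have hfin : ‖riemannZeta₀ s‖ ≤ 1 / x := by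
    rw [le_div_iff₀ hx]
    nlinarith [h0' s hs1 hs2]
  rw [← and_assoc]
  refine ⟨?_, hfin⟩
  have hD' : ∀ z : ℂ, |z.re - 1| ≤ x → |z.im| ≤ |s.im| →
      ‖deriv riemannZeta₁ z‖ ≤ (2 + |s.im|) * (k1 * Y) :=
    fun z a b => (hD z a (b.trans hs2)).trans (by gcongr)
  rcases le_total 1 |s.im| with h | h
  · obtain ⟨b1, b2, b3⟩ := triv_bounds ((1 : DirichletCharacter ℂ 1) ^ 2) hη hη1 hT hx
      (by linarith) hs2
    have b4 := b3 (abs_pos.1 (by linarith))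
    have b5 : |s.im|⁻¹ ≤ 1 := inv_le_one_of_one_le₀ h
    rw [← hY] at b4 b1
    have := three_four_one (1 : DirichletCharacter ℂ 1) hx (D := P) (K2 := P) (by positivity) b1
      (by nlinarith) (b4.trans (by linarith)) 
      (by linarith [show x * (8 * P ^ 4 * P) = x * (8 * P ^ 5) by ring])
    rw [LFunction_modOne_eq] at this
    refine seg_core differentiable_riemannZeta₁ hx (by positivity) hD' hs1
      (w := 1 + x + I * s.im) (by simp [abs_of_pos hx]) (by simp) ?_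
    have hw : (1 + x + I * s.im : ℂ) ≠ 1 := by
      intro h; have := congrArg re h; simp at this; linarith
    have e1 : ‖riemannZeta₁ (1 + x + I * s.im)‖ =
        ‖(1 + x + I * s.im - 1 : ℂ)‖ * ‖riemannZeta (1 + x + I * s.im)‖ := by
      have := sub_ne_zero.2 hw
      rw [riemannZeta_eq_inv_sub_mul hw, ← norm_mul]; congr 1; field_simp
    have e2 : |s.im| ≤ ‖(1 + x + I * s.im - 1 : ℂ)‖ := by
      simpa using abs_im_le_norm (1 + x + I * s.im - 1 : ℂ)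
    rw [e1]
    calc _ ≤ 4 * x * ((3 * |s.im|) * (k1 * Y)) := by gcongr; linarith
      _ = |s.im| * (x * (12 * (k1 * Y))) := by ring
      _ ≤ _ := by gcongr; exact le_trans (by gcongr) this
  · refine seg_core differentiable_riemannZeta₁ hx (by positivity) hD' hs1
      (w := 1 + I * s.im) (by simp [hx.le]) (by simp) (le_trans ?_ (hS _ h))
    have e1 : 12 * k1 / c * Y ≤ P := by rw [hP, hk2]; gcongr; linarith
    have e2 : x * (12 * k1 / c * Y) ≤ 1 := le_trans (by gcongr) hxP'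
    rw [show x * (12 * k1 / c * Y) = 4 * x * (3 * (k1 * Y)) / c by ring, div_le_iff₀ hc,
      one_mul] at e2
    refine le_trans ?_ e2
    gcongr; linarith

end Pool.Agent.Lib.SW
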