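import Pool.Agent.Lib.SW.BDH

/-! Bilinear forms in the Jacobi symbol. -/

namespace Pool.Agent.Lib.SW

open Finset

/-- real valued Jacobi symbol -/
noncomputable def Jr (n h : ℕ) : ℝ := (jacobiSym n h : ℝ)

lemma jac_abs (a : ℤ) (h : ℕ) : |(jacobiSym a h : ℝ)| ≤ 1 := by
  rcases jacobiSym.trichotomy a h with e | e | e <;> rw [e] <;> simp

lemma Jr_abs (n h : ℕ) : |Jr n h| ≤ 1 := jac_abs _ _

lemma Jr_mul_left (a b h : ℕ) : Jr (a * b) h = Jr a h * Jr b h := by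
  simp [Jr, jacobiSym.mul_left]

lemma Jr_mul_right (a : ℕ) {h k : ℕ} (hh : h ≠ 0) (hk : k ≠ 0) : Jr a (h * k) = Jr a h * Jr a k := by
  simp [Jr, jacobiSym.mul_right' _ hh hk]

lemma Jr_congr {a b h : ℕ} (e : a ≡ b [MOD h]) : Jr a h = Jr b h := by
  rw [Jr, Jr, jacobiSym.mod_left' (a₁ := a) (a₂ := b) (by exact_mod_cast e)]

lemma Jr_one (h : ℕ) : Jr 1 h = 1 := by simp [Jr]

lemma Jr_recip {a b : ℕ} (ha : Odd a) (hb : Odd b) :
    Jr a b = Jr b a - 2 * ((if a % 4 = 3 then 1 else 0) * (if b % 4 = 3 then 1 else 0) * Jr b a) := by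
  rw [Jr, ← jacobiSym.quadratic_reciprocity_if (Nat.odd_iff.1 ha) (Nat.odd_iff.1 hb), Jr]
  by_cases h1 : a % 4 = 3 <;> by_cases h2 : b % 4 = 3 <;> simp [h1, h2]
  ring

lemma sum_period_zero {f : ℕ → ℝ} {k n0 : ℕ} (hp : ∀ a b, a ≡ b [MOD k] → f a = f b)
    (hc : n0.Coprime k) (hm : ∀ n, f (n0 * n) = -f n) : ∑ n ∈ range k, f n = 0 := by
  rcases Nat.eq_zero_or_pos k with rfl | hk
  · simp
  have hi : Set.InjOn (fun n => n0 * n % k) (range k : Finset ℕ) := by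
    intro a ha b hb e
    have := Nat.ModEq.cancel_left_of_coprime hc.symm (show n0 * a ≡ n0 * b [MOD k] from e)
    exact this.eq_of_lt_of_lt (by simpa using ha) (by simpa using hb)
  have e : (range k).image (fun n => n0 * n % k) = range k :=
    eq_of_subset_of_card_le (image_subset_iff.2 fun n _ => mem_range.2 (Nat.mod_lt _ hk))
      (by rw [card_image_of_injOn hi])
  have h : ∑ n ∈ range k, f n = ∑ n ∈ range k, -f n := by
    conv_lhs => rw [← e, sum_image hi]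
    exact sum_congr rfl fun n _ => by rw [← hm, hp _ _ (Nat.mod_modEq _ _)]
  rw [sum_neg_distrib] at h
  linarith

lemma sum_period_le {f : ℕ → ℝ} {k : ℕ} (hk : 0 < k) (hp : ∀ a b, a ≡ b [MOD k] → f a = f b)
    (h0 : ∑ n ∈ range k, f n = 0) (h1 : ∀ n, |f n| ≤ 1) (M : ℕ) : |∑ n ∈ range M, f n| ≤ k := by
  induction M using Nat.strong_induction_on with
  | _ M ih =>
  rcases le_total M k with h | h
  · refine (abs_sum_le_sum_abs _ _).trans ((sum_le_card_nsmul _ _ 1 fun n _ => h1 n).trans ?_)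
    simpa using h
  · obtain ⟨j, rfl⟩ := Nat.exists_eq_add_of_le h
    rw [sum_range_add, h0, zero_add,
      sum_congr rfl fun n _ => hp (k + n) n (by simp [Nat.ModEq])]
    exact ih j (by omega)

lemma exists_nonres {l m : ℕ} (hl : l.Prime) (h2 : l ≠ 2) (hc : l.Coprime m) :
    ∃ n0, n0 ≡ 1 [MOD m] ∧ n0.Coprime l ∧ Jr n0 l = -1 := by
  have := Fact.mk hl
  obtain ⟨a, ha⟩ := quadraticChar_exists_neg_one (F := ZMod l) (by rwa [ZMod.ringChar_zmod_n])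
  have h1 : jacobiSym a.val l = -1 := by
    rw [← jacobiSym.legendreSym.to_jacobiSym, legendreSym]; simpa using ha
  obtain ⟨n, h3, h4⟩ := Nat.chineseRemainder hc a.val 1
  have h5 : Jr n l = -1 := by rw [Jr_congr h3, Jr, h1]; simp
  refine ⟨n, h4, ?_, h5⟩
  by_contra h
  have : jacobiSym n l = 0 := jacobiSym.eq_zero_iff.2 ⟨hl.ne_zero, by simpa using h⟩
  rw [Jr, this] at h5
  norm_num at h5

lemma coprime_of_modEq_one {n m : ℕ} (h : n ≡ 1 [MOD m]) : n.Coprime m := by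
  rw [Nat.Coprime, h.gcd_eq]; simp

lemma Jr_sum_zero {l m : ℕ} (hl : l.Prime) (h2 : l ≠ 2) (hc : l.Coprime m) (hm : m ≠ 0) :
    ∑ n ∈ range (l * m), Jr n (l * m) = 0 := by
  obtain ⟨n0, h1, h3, h4⟩ := exists_nonres hl h2 hc
  refine sum_period_zero (fun _ _ => Jr_congr) (h3.mul_right (coprime_of_modEq_one h1)) fun n => ?_
  rw [Jr_mul_left, Jr_mul_right n0 hl.ne_zero hm, h4, Jr_congr h1, Jr_one]; ring

lemma exists_split {h k : ℕ} (hh : Squarefree h) (hk : Squarefree k) (hne : h ≠ k) :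
    ∃ l m, l.Prime ∧ l.Coprime m ∧ h * k = l * m := by
  have key : ∀ {h k : ℕ}, Squarefree h → ¬ h.primeFactors ⊆ k.primeFactors → k ≠ 0 →
      ∃ l m, l.Prime ∧ l.Coprime m ∧ h * k = l * m := by
    intro h k hh hs hk
    obtain ⟨l, h1, h2⟩ := not_subset.1 hs
    obtain ⟨hl, ⟨m, rfl⟩, -⟩ := Nat.mem_primeFactors.1 h1
    refine ⟨l, m * k, hl, (Nat.coprime_of_squarefree_mul hh).mul_right ?_, mul_assoc _ _ _⟩
    exact hl.coprime_iff_not_dvd.2 fun h => h2 (Nat.mem_primeFactors.2 ⟨hl, h, hk⟩)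
  by_cases h1 : h.primeFactors ⊆ k.primeFactors
  · by_cases h2 : k.primeFactors ⊆ h.primeFactors
    · exact absurd (by rw [← Nat.prod_primeFactors_of_squarefree hh, Subset.antisymm h1 h2,
        Nat.prod_primeFactors_of_squarefree hk]) hne
    · rw [mul_comm]; exact key hk h2 hh.ne_zero
  · exact key hh h1 hk.ne_zero

lemma Jr_sum_le {h k : ℕ} (hh : Squarefree h) (hk : Squarefree k) (ho : Odd h) (ho' : Odd k)
    (hne : h ≠ k) (M : ℕ) : |∑ n ∈ range M, Jr n h * Jr n k| ≤ h * k := by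
  obtain ⟨l, m, h1, h2, h3⟩ := exists_split hh hk hne
  have h0 : 0 < h * k := Nat.mul_pos ho.pos ho'.pos
  have h4 : l ≠ 2 := by
    rintro rfl
    exact (Nat.not_even_iff_odd.2 (ho.mul ho')) (h3 ▸ even_two_mul m)
  simp only [← Jr_mul_right _ hh.ne_zero hk.ne_zero]
  rw [← Nat.cast_mul]
  refine sum_period_le h0 (fun _ _ => Jr_congr) ?_ (fun _ => Jr_abs _ _) M
  rw [h3]; exact Jr_sum_zero h1 h4 h2 (by rintro rfl; omega)

lemma mean_sq {S : Finset ℕ} {H : ℕ} (hS : ∀ h ∈ S, Squarefree h ∧ Odd h ∧ h ≤ H) {x : ℕ → ℝ}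
    (hx : ∀ h, |x h| ≤ 1) {M : ℕ} (hM : H ^ 3 ≤ M) (hM0 : 0 < M) :
    ∑ m ∈ Icc 1 M, (∑ h ∈ S, x h * Jr m h) ^ 2 ≤ 3 * H * M := by
  have hc : (#S : ℝ) ≤ H := by
    have : S ⊆ Icc 1 H := fun h hh => mem_Icc.2 ⟨(hS h hh).2.1.pos, (hS h hh).2.2⟩
    exact_mod_cast (card_le_card this).trans (by simp)
  have hM' : (H : ℝ) ^ 3 ≤ M := by exact_mod_cast hM
  have hM1 : (1 : ℝ) ≤ M := by exact_mod_cast hM0
  calc _ ≤ ∑ m ∈ range (M + 1), (∑ h ∈ S, x h * Jr m h) ^ 2 :=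
        sum_le_sum_of_subset_of_nonneg
          (fun m hm => mem_range.2 (Nat.lt_succ_of_le (mem_Icc.1 hm).2)) fun _ _ _ => sq_nonneg _
    _ = ∑ h ∈ S, ∑ k ∈ S, x h * x k * ∑ m ∈ range (M + 1), Jr m h * Jr m k := by
        simp only [sq, sum_mul_sum]
        simp only [mul_sum]
        rw [sum_comm]
        refine sum_congr rfl fun h _ => ?_
        rw [sum_comm]
        exact sum_congr rfl fun k _ => sum_congr rfl fun m _ => by ring
    _ ≤ ∑ h ∈ S, ∑ k ∈ S, ((if h = k then 2 * (M : ℝ) else 0) + H * H) := by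
        refine sum_le_sum fun h hh => sum_le_sum fun k hk => (le_abs_self _).trans ?_
        rw [abs_mul, abs_mul]
        refine (mul_le_of_le_one_left (abs_nonneg _)
          (mul_le_one₀ (hx h) (abs_nonneg _) (hx k))).trans ?_
        split_ifs with e
        · refine (abs_sum_le_sum_abs _ _).trans ((sum_le_card_nsmul _ _ 1 fun n _ => ?_).trans ?_)
          · rw [abs_mul]; exact mul_le_one₀ (Jr_abs _ _) (abs_nonneg _) (Jr_abs _ _)
          · simp only [card_range, nsmul_eq_mul, mul_one]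
            push_cast; nlinarith [mul_self_nonneg (H : ℝ)]
        · rw [zero_add]
          refine (Jr_sum_le (hS h hh).1 (hS k hk).1 (hS h hh).2.1 (hS k hk).2.1 e _).trans ?_
          gcongr; exacts [(hS h hh).2.2, (hS k hk).2.2]
    _ = #S * (2 * M + #S * (H * H)) := by
        simp only [sum_add_distrib, sum_ite_eq, sum_const, nsmul_eq_mul, mul_add]
        rw [sum_congr rfl fun h hh => if_pos hh, sum_const, nsmul_eq_mul]
    _ ≤ H * (2 * M + H * (H * H)) := by gcongr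
    _ ≤ _ := by nlinarith [mul_le_mul_of_nonneg_left hM' (Nat.cast_nonneg H : (0 : ℝ) ≤ H)]

lemma sq_step (y : ℕ → ℝ) {B τ : ℝ} (hy : ∀ n, |y n| ≤ B) (N : ℕ)
    (hτ : ∀ m ≤ N ^ 2, (#m.divisors : ℝ) ≤ τ) :
    ∃ Y : ℕ → ℝ, (∀ m, |Y m| ≤ B ^ 2 * τ) ∧
      ∀ h, (∑ n ∈ Icc 1 N, y n * Jr n h) ^ 2 = ∑ m ∈ Icc 1 (N ^ 2), Y m * Jr m h := by
  have hB : 0 ≤ B := (abs_nonneg _).trans (hy 0)
  refine ⟨fun m => ∑ p ∈ Icc 1 N ×ˢ Icc 1 N with p.1 * p.2 = m, y p.1 * y p.2, fun m => ?_,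
    fun h => ?_⟩
  · refine (abs_sum_le_sum_abs _ _).trans
      ((sum_le_card_nsmul _ _ (B ^ 2) fun p _ => ?_).trans ?_)
    · rw [abs_mul, sq]; gcongr <;> apply hy
    · rw [nsmul_eq_mul, mul_comm]
      gcongr
      rcases (filter (fun p : ℕ × ℕ => p.1 * p.2 = m) (Icc 1 N ×ˢ Icc 1 N)).eq_empty_or_nonempty
        with e | ⟨p, hp⟩
      · rw [e]; simpa using hτ 0 (Nat.zero_le _)
      simp only [mem_filter, mem_product, mem_Icc] at hp
      have hm : m ≤ N ^ 2 := by rw [← hp.2, sq]; exact Nat.mul_le_mul hp.1.1.2 hp.1.2.2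
      have hm0 : m ≠ 0 := by rw [← hp.2]; exact (Nat.mul_pos hp.1.1.1 hp.1.2.1).ne'
      refine le_trans ?_ (hτ m hm)
      exact_mod_cast card_le_card_of_injOn (fun p : ℕ × ℕ => p.1)
        (fun p hp => by
          simp only [coe_filter, Set.mem_ofPred_eq] at hp
          exact Nat.mem_divisors.2 ⟨⟨_, hp.2.symm⟩, hm0⟩)
        (fun p hp q hq e => by
          simp only [coe_filter, Set.mem_ofPred_eq, mem_product, mem_Icc] at hp hq
          replace e : p.1 = q.1 := e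
          refine Prod.ext e (Nat.eq_of_mul_eq_mul_left hp.1.1.1 ?_)
          rw [hp.2, e, hq.2])
  · rw [sq, sum_mul_sum, ← sum_product', ← sum_fiberwise_of_maps_to (t := Icc 1 (N ^ 2))
      (g := fun p : ℕ × ℕ => p.1 * p.2)]
    · refine sum_congr rfl fun m _ => ?_
      rw [sum_mul]
      refine sum_congr rfl fun p hp => ?_
      rw [← (mem_filter.1 hp).2, Jr_mul_left]; ring
    · intro p hp
      simp only [mem_product, mem_Icc] at hp ⊢
      exact ⟨Nat.mul_pos hp.1.1 hp.2.1, by rw [sq]; exact Nat.mul_le_mul hp.1.2 hp.2.2⟩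

lemma bil_aux : ∃ C : ℝ, 0 < C ∧ ∀ (H N : ℕ) (S : Finset ℕ) (x y : ℕ → ℝ), 0 < H → H ≤ N →
    (∀ h ∈ S, Squarefree h ∧ Odd h ∧ h ≤ H) → (∀ h, |x h| ≤ 1) → (∀ n, |y n| ≤ 1) →
    |∑ h ∈ S, ∑ n ∈ Icc 1 N, x h * y n * Jr n h| ≤ C * H * N * (H : ℝ) ^ (-(1 / 16) : ℝ) := by
  obtain ⟨C, hC, hτ⟩ := divisor_bound (ε := 1 / 144) (by norm_num)
  refine ⟨2 * C, by linarith, fun H N S x y hH hHN hS hx hy => ?_⟩
  have hH1 : (1 : ℝ) ≤ H := by exact_mod_cast hH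
  have hN1 : (1 : ℝ) ≤ N := by exact_mod_cast hH.trans_le hHN
  have hc : (#S : ℝ) ≤ H := by
    have : S ⊆ Icc 1 H := fun h hh => mem_Icc.2 ⟨(hS h hh).2.1.pos, (hS h hh).2.2⟩
    exact_mod_cast (card_le_card this).trans (by simp)
  set u := (H : ℝ) ^ (-(1 / 16) : ℝ) with hu
  have hu0 : 0 < u := by positivity
  have hu16 : u ^ 16 * H = 1 := by
    rw [hu, ← Real.rpow_natCast, ← Real.rpow_mul (by linarith)]
    norm_num [Real.rpow_neg_one]; field_simp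
  have hu1 : u ≤ 1 := Real.rpow_le_one_of_one_le_of_nonpos hH1 (by norm_num)
  rcases le_total (H ^ 3) N with h | h
  · have h1 := mean_sq hS hx h (hH.trans_le hHN)
    have h2 := sum_mul_sq_le_sq_mul_sq (Icc 1 N) y (fun n => ∑ h ∈ S, x h * Jr n h)
    have h3 : ∑ n ∈ Icc 1 N, y n ^ 2 ≤ N := by
      refine (sum_le_card_nsmul _ _ 1 fun n _ => ?_).trans (by simp)
      rw [← sq_abs]; exact pow_le_one₀ (abs_nonneg _) (hy n)
    rw [sum_comm]
    refine abs_le_of_sq_le_sq' ?_ (by positivity) |> abs_le.2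
    have e : ∑ n ∈ Icc 1 N, ∑ h ∈ S, x h * y n * Jr n h =
        ∑ n ∈ Icc 1 N, y n * ∑ h ∈ S, x h * Jr n h := by
      simp only [mul_sum]; exact sum_congr rfl fun _ _ => sum_congr rfl fun _ _ => by ring
    have h4 : 1 ≤ H * u ^ 2 := by
      rw [← hu16, mul_comm]; gcongr ?_ * ?_; exact pow_le_pow_of_le_one hu0.le hu1 (by norm_num)
    rw [e]
    calc _ ≤ (N : ℝ) * (3 * H * N) := h2.trans (by gcongr)
      _ = 3 * 1 * (H * N ^ 2) * 1 := by ring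
      _ ≤ 4 * C ^ 2 * (H * N ^ 2) * (H * u ^ 2) := by
          gcongr; exacts [by norm_num, one_le_pow₀ hC]
      _ = _ := by ring
  · set τ := C * ((N : ℝ) ^ 4) ^ (1 / 144 : ℝ) with hτd
    have hτ' : ∀ m ≤ (N ^ 2) ^ 2, (#m.divisors : ℝ) ≤ τ := fun m hm => (hτ m).trans (by
      rw [hτd]; gcongr; exact_mod_cast hm.trans (le_of_eq (by ring)))
    obtain ⟨Y, hY, eY⟩ := sq_step y hy N fun m hm => hτ' m (hm.trans (Nat.le_self_pow two_ne_zero _))
    obtain ⟨Z, hZ, eZ⟩ := sq_step Y hY (N ^ 2) hτ'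
    set T : ℕ → ℝ := fun h => ∑ n ∈ Icc 1 N, y n * Jr n h with hT
    have h1 : |∑ h ∈ S, ∑ n ∈ Icc 1 N, x h * y n * Jr n h| ≤ ∑ h ∈ S, |T h| := by
      refine (abs_sum_le_sum_abs _ _).trans (sum_le_sum fun h _ => ?_)
      simp only [mul_assoc, ← mul_sum, abs_mul]
      exact mul_le_of_le_one_left (abs_nonneg _) (hx h)
    have h2 : (∑ h ∈ S, |T h|) ^ 2 ≤ H * ∑ h ∈ S, T h ^ 2 := by
      refine (sq_sum_le_card_mul_sum_sq).trans ?_
      simp only [sq_abs]; gcongr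
    have h3 : (∑ h ∈ S, T h ^ 2) ^ 2 ≤ H * ∑ h ∈ S, (T h ^ 2) ^ 2 :=
      (sq_sum_le_card_mul_sum_sq).trans (by gcongr)
    have e : ∑ h ∈ S, (T h ^ 2) ^ 2 =
        ∑ m ∈ Icc 1 ((N ^ 2) ^ 2), Z m * ∑ h ∈ S, (fun _ => (1 : ℝ)) h * Jr m h := by
      simp only [hT, eY, eZ, mul_sum, one_mul]
      exact sum_comm
    have h4 := mean_sq hS (x := fun _ => 1) (by simp) (M := (N ^ 2) ^ 2)
      ((Nat.pow_le_pow_left hHN 3).trans (by
        rw [← pow_mul]; exact Nat.pow_le_pow_right (by omega) (by norm_num))) (by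
        have := hH.trans_le hHN; positivity)
    have h5 := sum_mul_sq_le_sq_mul_sq (Icc 1 ((N ^ 2) ^ 2)) Z
      (fun m => ∑ h ∈ S, (fun _ => (1 : ℝ)) h * Jr m h)
    have h6 : ∑ m ∈ Icc 1 ((N ^ 2) ^ 2), Z m ^ 2 ≤ (N : ℝ) ^ 4 * τ ^ 6 := by
      refine (sum_le_card_nsmul _ _ (τ ^ 6) fun n _ => ?_).trans (by simp [← pow_mul])
      rw [← sq_abs]
      exact (pow_le_pow_left₀ (abs_nonneg _) (hZ n) 2).trans (le_of_eq (by ring))
    have h7 : τ ^ 6 * u ^ 8 ≤ C ^ 6 := by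
      have a1 : ((N : ℝ) ^ 4) ^ (1 / 144 : ℝ) ≤ (H : ℝ) ^ (1 / 12 : ℝ) := by
        calc _ ≤ (((H : ℝ) ^ 3) ^ 4) ^ (1 / 144 : ℝ) := by gcongr; exact_mod_cast h
          _ = _ := by
              rw [← pow_mul, ← Real.rpow_natCast, ← Real.rpow_mul (by linarith)]; norm_num
      have a2 : ((H : ℝ) ^ (1 / 12 : ℝ)) ^ 6 * u ^ 8 = 1 := by
        rw [hu, ← Real.rpow_natCast, ← Real.rpow_natCast, ← Real.rpow_mul (by linarith),
          ← Real.rpow_mul (by linarith), ← Real.rpow_add (by linarith)]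
        norm_num
      calc _ ≤ (C * (H : ℝ) ^ (1 / 12 : ℝ)) ^ 6 * u ^ 8 := by rw [hτd]; gcongr
        _ = _ := by rw [mul_pow, mul_assoc, a2, mul_one]
    refine h1.trans (le_of_pow_le_pow_left₀ (n := 8) (by norm_num) (by positivity) ?_)
    rw [← e] at h5
    push_cast at h4
    calc _ = (((∑ h ∈ S, |T h|) ^ 2) ^ 2) ^ 2 := by ring
      _ ≤ ((H * ∑ h ∈ S, T h ^ 2) ^ 2) ^ 2 := by gcongr
      _ = (H : ℝ) ^ 4 * ((∑ h ∈ S, T h ^ 2) ^ 2) ^ 2 := by ring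
      _ ≤ (H : ℝ) ^ 4 * (H * ∑ h ∈ S, (T h ^ 2) ^ 2) ^ 2 := by gcongr
      _ = (H : ℝ) ^ 6 * (∑ h ∈ S, (T h ^ 2) ^ 2) ^ 2 := by ring
      _ ≤ (H : ℝ) ^ 6 * (((N : ℝ) ^ 4 * τ ^ 6) * (3 * H * ((N : ℝ) ^ 2) ^ 2)) := by
          gcongr; exact h5.trans (by gcongr)
      _ = 3 * (H : ℝ) ^ 7 * N ^ 8 * τ ^ 6 * 1 := by ring
      _ = 3 * (H : ℝ) ^ 8 * N ^ 8 * u ^ 8 * (τ ^ 6 * u ^ 8) := by rw [← hu16]; ring
      _ ≤ 2 ^ 8 * (H : ℝ) ^ 8 * N ^ 8 * u ^ 8 * C ^ 8 := by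
          gcongr; exacts [by norm_num, h7.trans (pow_le_pow_right₀ hC (by norm_num))]
      _ = _ := by ring

theorem jacobi_bilinear : ∃ C : ℝ, 0 < C ∧ ∀ (H N : ℕ) (S T : Finset ℕ) (x y : ℕ → ℝ),
    0 < H → 0 < N → (∀ h ∈ S, Squarefree h ∧ Odd h ∧ h ≤ H) →
    (∀ n ∈ T, Squarefree n ∧ Odd n ∧ n ≤ N) → (∀ h, |x h| ≤ 1) → (∀ n, |y n| ≤ 1) →
    |∑ h ∈ S, ∑ n ∈ T, x h * y n * Jr n h| ≤
      C * H * N * ((min H N : ℕ) : ℝ) ^ (-(1 / 16) : ℝ) := by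
  obtain ⟨C, hC, h⟩ := bil_aux
  have key : ∀ (H N : ℕ) (S T : Finset ℕ) (x y : ℕ → ℝ), 0 < H → H ≤ N →
      (∀ h ∈ S, Squarefree h ∧ Odd h ∧ h ≤ H) → (∀ n ∈ T, Squarefree n ∧ Odd n ∧ n ≤ N) →
      (∀ h, |x h| ≤ 1) → (∀ n, |y n| ≤ 1) →
      |∑ h ∈ S, ∑ n ∈ T, x h * y n * Jr n h| ≤ C * H * N * (H : ℝ) ^ (-(1 / 16) : ℝ) := by
    intro H N S T x y hH hHN hS hT hx hy
    have := h H N S x (fun n => if n ∈ T then y n else 0) hH hHN hS hx
      (fun n => by split_ifs; exacts [hy n, by simp])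
    refine le_trans (le_of_eq ?_) this
    congr 1
    refine sum_congr rfl fun k _ => ?_
    simp only [mul_ite, ite_mul, mul_zero, zero_mul, sum_ite_mem]
    rw [inter_eq_right.2 fun n hn => mem_Icc.2 ⟨(hT n hn).2.1.pos, (hT n hn).2.2⟩]
  refine ⟨3 * C, by linarith, fun H N S T x y hH hN hS hT hx hy => ?_⟩
  rcases le_total H N with e | e
  · rw [min_eq_left e]
    refine (key H N S T x y hH e hS hT hx hy).trans ?_
    gcongr; linarith
  · rw [min_eq_right e]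
    have h1 := key N H T S y x hN e hT hS hy hx
    have h2 := key N H T S (fun n => y n * if n % 4 = 3 then 1 else 0)
      (fun n => x n * if n % 4 = 3 then 1 else 0) hN e hT hS
      (fun n => by split_ifs <;> simp [hy n]) (fun n => by split_ifs <;> simp [hx n])
    have e2 : ∑ h ∈ S, ∑ n ∈ T, x h * y n * Jr n h = ∑ n ∈ T, ∑ h ∈ S, y n * x h * Jr h n -
        2 * ∑ n ∈ T, ∑ h ∈ S, (y n * if n % 4 = 3 then 1 else 0) *
          (x h * if h % 4 = 3 then 1 else 0) * Jr h n := by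
      rw [sum_comm, mul_sum, ← sum_sub_distrib]
      refine sum_congr rfl fun n hn => ?_
      rw [mul_sum, ← sum_sub_distrib]
      refine sum_congr rfl fun h hh => ?_
      rw [Jr_recip (hT n hn).2.1 (hS h hh).2.1]; ring
    rw [e2]
    refine (abs_sub _ _).trans ?_
    rw [abs_mul, abs_two]
    nlinarith

end Pool.Agent.Lib.SW
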