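import Pool.Agent.Lib.SW.Sieve
import Pool.Agent.Lib.LargeSieve.Proj

/-! A form of the Barban-Davenport-Halberstam theorem. -/

namespace Pool.Agent.Lib.SW

open Finset Filter Nat
open Pool.Agent.Lib.MP_b09185_nt Pool.Agent.Lib.LargeSieve

/-- sum over a residue class -/
noncomputable def cs (g : ℕ → ℝ) (x n j : ℕ) : ℝ := ∑ k ∈ Ioc 0 x with k ≡ j [MOD n], g k

/-- energy on reduced fractions -/
noncomputable def WW (g : ℕ → ℝ) (x t : ℕ) : ℝ :=
  energy (x + 1) (fun k => if k = 0 then 0 else (g k : ℂ)) t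

lemma WW_nonneg (g : ℕ → ℝ) (x t : ℕ) : 0 ≤ WW g x t := energy_nonneg _ _ _

lemma sum_range_ite {M : Type*} [AddCommMonoid M] (f : ℕ → M) (x : ℕ) :
    ∑ k ∈ range (x + 1), (if k = 0 then 0 else f k) = ∑ k ∈ Ioc 0 x, f k := by
  induction x with
  | zero => simp
  | succ x ih => rw [sum_range_succ, ih, sum_Ioc_succ_top (Nat.zero_le x)]; simp

lemma sum_by_class {M : Type*} [AddCommMonoid M] (S : Finset ℕ) {n : ℕ} (hn : 0 < n) (f : ℕ → M) :
    ∑ k ∈ S, f k = ∑ j ∈ range n, ∑ k ∈ S with k ≡ j [MOD n], f k := by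
  rw [← sum_fiberwise_of_maps_to (s := S) (t := range n) (g := (· % n))
    (fun k _ => mem_range.2 (Nat.mod_lt k hn))]
  refine sum_congr rfl fun j hj => sum_congr (filter_congr fun k _ => ?_) fun _ _ => rfl
  rw [Nat.ModEq, Nat.mod_eq_of_lt (mem_range.1 hj)]

lemma S_eq (g : ℕ → ℝ) (x : ℕ) {n : ℕ} (hn : 0 < n) (b : ℕ) :
    ∑ k ∈ range (x + 1), (if k = 0 then 0 else (g k : ℂ)) * ee (k * ((b : ℝ) / n)) =
      ∑ j ∈ range n, (cs g x n j : ℂ) * ee (j * ((b : ℝ) / n)) := by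
  simp only [ite_mul, zero_mul]
  rw [sum_range_ite (fun k => (g k : ℂ) * ee (k * ((b : ℝ) / n))), sum_by_class _ hn]
  refine sum_congr rfl fun j hj => ?_
  rw [cs, Complex.ofReal_sum, sum_mul]
  refine sum_congr rfl fun k hk => ?_
  have h := (mem_filter.1 hk).2
  rw [Nat.ModEq, Nat.mod_eq_of_lt (mem_range.1 hj)] at h
  have hn' : (n : ℝ) ≠ 0 := by positivity
  have e : (k : ℝ) * ((b : ℝ) / n) = ((k / n * b : ℕ) : ℤ) + j * ((b : ℝ) / n) := by
    have : (k : ℝ) = n * (k / n : ℕ) + j := by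
      rw [← h]; exact_mod_cast (Nat.div_add_mod k n).symm
    rw [Int.cast_natCast, Nat.cast_mul]
    conv_lhs => rw [this]
    field_simp
  rw [e, ee_add, ee_int, one_mul]

lemma parseval' (c : ℕ → ℝ) {n : ℕ} (hn : 0 < n) :
    ∑ b ∈ range n, ‖∑ j ∈ range n, (c j : ℂ) * ee (j * ((b : ℝ) / n))‖ ^ 2 =
      n * ∑ j ∈ range n, c j ^ 2 := by
  apply Complex.ofReal_injective
  push_cast
  simp only [← Complex.mul_conj', map_sum, map_mul, Complex.conj_ofReal, conj_ee, sum_mul_sum]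
  rw [sum_comm, mul_sum]
  refine sum_congr rfl fun j hj => ?_
  rw [sum_comm]
  have e : ∀ i ∈ range n, ∑ b ∈ range n, (c j : ℂ) * ee (j * ((b : ℝ) / n)) *
      ((c i : ℂ) * ee (-(i * ((b : ℝ) / n)))) = if j = i then (n : ℂ) * (c j : ℂ) ^ 2 else 0 := by
    intro i hi
    have := congrArg (fun w => (c j : ℂ) * c i * w) (orth n hn j i)
    simp only [mul_sum] at this
    refine (sum_congr rfl fun b _ => by ring).trans (this.trans ?_)
    simp only [Nat.ModEq, Nat.mod_eq_of_lt (mem_range.1 hj), Nat.mod_eq_of_lt (mem_range.1 hi)]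
    split_ifs with h
    · subst h; ring
    · simp
  rw [sum_congr rfl e, sum_ite_eq, if_pos hj]

lemma sum_le_inj {α β : Type*} {s : Finset α} {t : Finset β} {f : α → ℝ} {g : β → ℝ} (e : α → β)
    (hi : Set.InjOn e s) (hm : ∀ a ∈ s, e a ∈ t) (hg : ∀ b ∈ t, 0 ≤ g b)
    (h : ∀ a ∈ s, f a ≤ g (e a)) : ∑ a ∈ s, f a ≤ ∑ b ∈ t, g b := by
  classical
  refine (sum_le_sum h).trans ?_
  rw [← sum_image hi]
  exact sum_le_sum_of_subset_of_nonneg (image_subset_iff.2 hm) fun b hb _ => hg b hb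

theorem cs_sq_le (g : ℕ → ℝ) (x : ℕ) {n : ℕ} (hn : 0 < n) :
    n * ∑ j ∈ range n, cs g x n j ^ 2 ≤ ∑ t ∈ n.divisors, WW g x t := by
  rw [← parseval' _ hn]
  simp only [← S_eq g x hn, WW, energy]
  set f : ℝ → ℝ := fun y =>
    ‖∑ k ∈ range (x + 1), (if k = 0 then 0 else (g k : ℂ)) * ee (k * y)‖ ^ 2 with hf
  rw [sum_sigma']
  have hg : ∀ b : ℕ, 0 < b.gcd n := fun b => Nat.gcd_pos_of_pos_right b hn
  have e : ∀ b : ℕ, ((b / b.gcd n : ℕ) : ℝ) / ((n / b.gcd n : ℕ) : ℝ) = b / n := by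
    intro b
    have : (b.gcd n : ℝ) ≠ 0 := by exact_mod_cast (hg b).ne'
    rw [Nat.cast_div (Nat.gcd_dvd_left _ _) this, Nat.cast_div (Nat.gcd_dvd_right _ _) this]
    field_simp
  refine sum_le_inj (fun b => (⟨n / b.gcd n, b / b.gcd n⟩ : Σ _ : ℕ, ℕ)) ?_ ?_
    (fun _ _ => by positivity) (fun b _ => by simp only [e]; rfl)
  · intro b _ b' _ h
    simp only [Sigma.mk.injEq, heq_eq_eq] at h
    have := e b
    rw [h.1, h.2, e b', div_left_inj' (by positivity)] at this
    exact_mod_cast this.symm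
  · intro b hb
    simp only [mem_sigma, mem_divisors, mem_filter, mem_range] at hb ⊢
    exact ⟨⟨Nat.div_dvd_of_dvd (Nat.gcd_dvd_right _ _), hn.ne'⟩,
      Nat.div_lt_div_of_lt_of_dvd (Nat.gcd_dvd_right _ _) hb, Nat.coprime_div_gcd_div_gcd (hg b)⟩

lemma WW_le (g : ℕ → ℝ) (x : ℕ) {t : ℕ} (ht : 0 < t) {E : ℝ} (h : ∀ j, |cs g x t j| ≤ E) :
    WW g x t ≤ t * (t * E) ^ 2 := by
  simp only [WW, energy, S_eq g x ht]
  refine (sum_le_card_nsmul _ _ ((t * E) ^ 2) fun b _ => ?_).trans ?_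
  · gcongr
    refine (norm_sum_le _ _).trans ((sum_le_card_nsmul _ _ E fun j _ => ?_).trans (by simp))
    rw [norm_mul, norm_ee, mul_one, Complex.norm_real]; exact h j
  · rw [nsmul_eq_mul]
    gcongr
    exact (card_filter_le _ _).trans (by simp)

lemma cs_sub (f g : ℕ → ℝ) (x n j : ℕ) :
    cs (fun k => f k - g k) x n j = cs f x n j - cs g x n j := sum_sub_distrib _ _

lemma ev_N (k : ℕ) : ∀ᶠ N : ℕ in atTop, Real.log N ^ k * Real.exp √(Real.log N) ≤ √√(N : ℝ) := by
  filter_upwards [tendsto_L.eventually (ev_pow_le k), tendsto_L.eventually_ge_atTop 64,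
    eventually_gt_atTop 0] with N h1 h2 hN
  have hN' : (0 : ℝ) < N := by exact_mod_cast hN
  have h8 : 8 ≤ √(Real.log N) := Real.le_sqrt_of_sq_le (by linarith)
  have hsq := Real.mul_self_sqrt (show 0 ≤ Real.log N by linarith)
  calc _ ≤ Real.exp √(Real.log N) * Real.exp √(Real.log N) := by gcongr
    _ ≤ Real.exp (Real.log N / 2 / 2) := by rw [← Real.exp_add]; gcongr; nlinarith
    _ = _ := by rw [Real.exp_half, Real.exp_half, Real.exp_log hN']

lemma lsh_ev (A B : ℕ) : ∀ᶠ N : ℕ in atTop, ∀ z : ℕ, 1 ≤ z → (z : ℝ) ≤ Real.log N ^ B →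
    (th z)⁻¹ ≤ Real.log N ∧ ∀ t : ℕ, 0 < t → ∀ j x : ℕ, x ≤ N →
      |cs (lsh z) x t j - x * rho z t j| ≤ N / t / Real.log N ^ A + √√(N : ℝ) := by
  filter_upwards [tendsto_L.eventually (ev_params (A + 2) B), ev_N 1,
    tendsto_L.eventually_ge_atTop 1] with N ⟨k, h1⟩ h2 h3 z hz hzB
  obtain ⟨a1, a2, a3⟩ := h1 z hzB
  have a0 : Real.exp (2 * ∑ p ∈ primesLE z, 1 / (p : ℝ)) ≤ Real.log N := by
    refine le_trans ?_ a1
    have : 0 ≤ ∑ p ∈ primesLE z, 1 / (p : ℝ) := by positivity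
    gcongr; norm_num
  have a4 := (th_inv_le z).trans a0
  refine ⟨a4, fun t ht j x hx => (lsh_class hz ht j x k).trans ?_⟩
  rw [pow_one] at h2
  calc _ ≤ Real.log N * (N / t * (Real.log N / Real.log N ^ (A + 2)) + Real.exp √(Real.log N)) := by
        gcongr
    _ = N / t / Real.log N ^ A + Real.log N * Real.exp √(Real.log N) := by field_simp; ring
    _ ≤ _ := by linarith

lemma totient_real (n : ℕ) : (n.totient : ℝ) = n * ∏ p ∈ n.primeFactors, (1 - 1 / (p : ℝ)) := by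
  have := congrArg (fun q : ℚ => (q : ℝ)) (Nat.totient_eq_mul_prod_factors n)
  simpa using this

lemma cs_lam_le {N x n j : ℕ} (hN : 0 < N) (hx : x ≤ N) (h : ¬ j.Coprime n) :
    |cs lam x n j| ≤ Real.log N := by
  obtain ⟨p, hp, h1, h2⟩ := Nat.Prime.not_coprime_iff_dvd.1 h
  have hN1 : (1 : ℝ) ≤ N := by exact_mod_cast hN
  rw [cs, abs_of_nonneg (sum_nonneg fun k _ => lam_nonneg k)]
  calc _ ≤ ∑ k ∈ Ioc 0 x with k ≡ j [MOD n], if k = p then Real.log N else 0 := by
        refine sum_le_sum fun k hk => ?_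
        rw [mem_filter, mem_Ioc] at hk
        split_ifs with e
        · exact lam_le (by exact_mod_cast hk.1.2.trans hx) hN1
        · rw [lam, if_neg]
          exact fun hk' => e ((Nat.prime_dvd_prime_iff_eq hp hk').1 ((hk.2.dvd_iff h2).2 h1)).symm
    _ ≤ _ := by
        rw [sum_ite_eq']; split_ifs; exacts [le_rfl, Real.log_nonneg hN1]

lemma sqrt_sqrt_le {N c : ℝ} (hN : 1 ≤ N) (hc : 0 < c) (h : c ≤ √√N) : √N ≤ N / c := by
  rw [le_div_iff₀ hc]
  have h1 := Real.mul_self_sqrt (show 0 ≤ N by linarith)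
  have h2 : √√N ≤ √N := Real.sqrt_le_sqrt (by rw [Real.sqrt_le_iff]; constructor <;> nlinarith)
  nlinarith [Real.sqrt_nonneg N]

theorem bdh_core (A : ℕ) : ∃ B : ℕ, A + 3 ≤ B ∧ ∀ᶠ N : ℕ in atTop, ∀ z : ℕ, Real.log N ^ B ≤ z →
    (z : ℝ) ≤ Real.log N ^ (B + 1) → ∀ x ≤ N, ∀ Q : ℕ, Q ^ 3 ≤ N →
      ∑ t ∈ Icc 1 Q, WW (fun k => lam k - lsh z k) x t * (t : ℝ) ^ (-(1 / 20) : ℝ) ≤
        (N : ℝ) ^ 2 / Real.log N ^ A := by
  refine ⟨20 * (A + 4), by omega, ?_⟩
  set B := 20 * (A + 4) with hB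
  filter_upwards [siegel_walfisz (2 * B + A + 2) B, lsh_ev (2 * B + A + 2) (B + 1),
    ev_N (2 * B + A + 2), tendsto_L.eventually_ge_atTop 6, eventually_gt_atTop 0]
    with N h1 h2 h3 hL hN z hz1 hz2 x hx Q hQ
  set L := Real.log N with hLd
  have hN1 : (1 : ℝ) ≤ N := by exact_mod_cast hN
  have hLB : 1 ≤ L ^ B := one_le_pow₀ (by linarith)
  obtain ⟨h4, h5⟩ := h2 z (by exact_mod_cast hLB.trans hz1) hz2
  set g : ℕ → ℝ := fun k => lam k - lsh z k with hg
  set E := N / L ^ (2 * B + A + 2) with hE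
  have h6 : L ^ (2 * B + A + 2) ≤ √√(N : ℝ) :=
    le_trans (le_mul_of_one_le_right (by positivity) (Real.one_le_exp (Real.sqrt_nonneg _))) h3
  have h7 : √(N : ℝ) ≤ E := sqrt_sqrt_le hN1 (by positivity) h6
  have h8 : √√(N : ℝ) ≤ √N :=
    Real.sqrt_le_sqrt (by rw [Real.sqrt_le_iff]; constructor <;> nlinarith)
  have h9 : L ≤ E := (le_self_pow₀ (by linarith) (by omega)).trans (h6.trans (h8.trans h7))
  have hs : ∀ t : ℕ, 0 < t → (t : ℝ) ≤ L ^ B → ∀ j, |cs g x t j| ≤ 3 * E := by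
    intro t ht htB j
    have a1 := h5 t ht j x hx
    have a2 : N / t / L ^ (2 * B + A + 2) ≤ E := by
      rw [hE]; gcongr; exact div_le_self (by linarith) (by exact_mod_cast ht)
    have a3 : ∀ p : ℕ, p.Prime → p ∣ t → p ∈ primesLE z := fun p hp h =>
      mem_primesLE.2 ⟨by exact_mod_cast (show (p : ℝ) ≤ t by
        exact_mod_cast Nat.le_of_dvd ht h).trans (htB.trans hz1), hp⟩
    rw [hg, cs_sub]
    by_cases hc : j.Coprime t
    · have a4 := h1 t ht htB j hc x hx
      have a5 : rho z t j = (t.totient : ℝ)⁻¹ := by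
        rw [rho, if_pos fun p hp h h' => (prime_of_mem_primesLE hp).one_lt.ne'
          (Nat.eq_one_of_dvd_coprimes hc h' h), totient_real]
        congr 3
        ext p
        simp only [mem_filter, mem_primeFactors]
        exact ⟨fun h => ⟨prime_of_mem_primesLE h.1, h.2, ht.ne'⟩, fun h => ⟨a3 p h.1 h.2.1, h.2.1⟩⟩
      rw [a5, ← div_eq_mul_inv, abs_sub_comm] at a1
      linarith [abs_sub_le (cs lam x t j) (x / t.totient) (cs (lsh z) x t j),
        show |cs lam x t j - x / t.totient| ≤ E from a4]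
    · have a4 := cs_lam_le hN hx hc
      obtain ⟨p, hp, b1, b2⟩ := Nat.Prime.not_coprime_iff_dvd.1 hc
      rw [rho, if_neg fun h => h p (a3 p hp b2) b2 b1, mul_zero, sub_zero] at a1
      linarith [abs_sub (cs lam x t j) (cs (lsh z) x t j)]
  have hl : ∑ t ∈ Icc 1 Q, WW g x t ≤ 8 * (N : ℝ) ^ 2 * L ^ 2 := by
    rcases Nat.eq_zero_or_pos Q with rfl | hQ0
    · simp; positivity
    have hQ1 : (1 : ℝ) ≤ Q := by exact_mod_cast hQ0
    have a1 := large_sieve Q (x + 1) hQ0 (fun k => if k = 0 then 0 else (g k : ℂ))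
    have a2 : ∑ k ∈ range (x + 1), ‖(if k = 0 then 0 else (g k : ℂ))‖ ^ 2 ≤ 2 * N * L ^ 2 := by
      refine (sum_le_card_nsmul _ _ (L ^ 2) fun k hk => ?_).trans ?_
      · gcongr
        split_ifs
        · simp; linarith
        · have b1 := lam_le (n := k) (y := N) (by
            exact_mod_cast (Nat.lt_succ_iff.1 (mem_range.1 hk)).trans hx) hN1
          rw [Complex.norm_real, Real.norm_eq_abs, abs_le]
          constructor <;> linarith [lam_nonneg k, lsh_nonneg z k, lsh_le z k]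
      · rw [card_range, nsmul_eq_mul]
        gcongr
        exact_mod_cast (by omega : x + 1 ≤ 2 * N)
    have a3 : ((x + 1 : ℕ) : ℝ) + (Q : ℝ) ^ 2 * (1 + 2 * Real.log Q) ≤ 4 * N := by
      have b1 : ((x + 1 : ℕ) : ℝ) ≤ 2 * N := by exact_mod_cast (by omega : x + 1 ≤ 2 * N)
      have b2 : (Q : ℝ) ^ 3 ≤ N := by exact_mod_cast hQ
      have b3 := Real.log_le_sub_one_of_pos (show (0 : ℝ) < Q by linarith)
      nlinarith
    refine (sum_le_sum_of_subset_of_nonneg (fun t ht => mem_range.2 (Nat.lt_succ_of_le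
      (mem_Icc.1 ht).2)) fun t _ _ => WW_nonneg g x t).trans (a1.trans ?_)
    calc _ ≤ 4 * N * (2 * N * L ^ 2) := by gcongr
      _ = _ := by ring
  calc _ ≤ ∑ t ∈ Icc 1 Q, ((if t ∈ Ioc 0 ⌊L ^ B⌋₊ then L ^ B * (L ^ B * (3 * E)) ^ 2 else 0) +
          WW g x t / L ^ (A + 4)) := by
        refine sum_le_sum fun t ht => ?_
        have ht0 : 0 < t := (mem_Icc.1 ht).1
        have ht1 : (1 : ℝ) ≤ t := by exact_mod_cast ht0
        have hW := WW_nonneg g x t
        split_ifs with h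
        · have htB : (t : ℝ) ≤ L ^ B := (Nat.le_floor_iff (by positivity)).1 (mem_Ioc.1 h).2
          have a1 := WW_le g x ht0 (hs t ht0 htB)
          have a2 : (t : ℝ) ^ (-(1 / 20) : ℝ) ≤ 1 :=
            Real.rpow_le_one_of_one_le_of_nonpos ht1 (by norm_num)
          have a3 : (t : ℝ) * (t * (3 * E)) ^ 2 ≤ L ^ B * (L ^ B * (3 * E)) ^ 2 := by gcongr
          have a4 : 0 ≤ WW g x t / L ^ (A + 4) := by positivity
          nlinarith
        · have htB : L ^ B ≤ t := by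
            simp only [mem_Ioc, ht0, true_and, not_le] at h
            exact ((Nat.floor_lt (by positivity)).1 h).le
          rw [zero_add, div_eq_mul_inv (WW g x t)]
          refine mul_le_mul_of_nonneg_left ?_ hW
          calc _ ≤ (L ^ B) ^ (-(1 / 20) : ℝ) :=
                Real.rpow_le_rpow_of_nonpos (by positivity) htB (by norm_num)
            _ = _ := by
                rw [← Real.rpow_natCast, ← Real.rpow_mul (by linarith), ← Real.rpow_natCast,
                  ← Real.rpow_neg (by linarith), hB]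
                congr 1; push_cast; ring
    _ ≤ L ^ B * (L ^ B * (L ^ B * (3 * E)) ^ 2) + 8 * (N : ℝ) ^ 2 * L ^ 2 / L ^ (A + 4) := by
        rw [sum_add_distrib, ← sum_div, sum_ite_mem, sum_const, nsmul_eq_mul]
        gcongr
        refine le_trans ?_ (Nat.floor_le (by positivity : 0 ≤ L ^ B))
        exact_mod_cast (card_le_card inter_subset_right).trans (by simp)
    _ = (9 / L ^ (A + 4) + 8 / L ^ 2) * ((N : ℝ) ^ 2 / L ^ A) := by rw [hE]; field_simp; ring
    _ ≤ _ := by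
        refine mul_le_of_le_one_left (by positivity) ?_
        have : L ^ 2 ≤ L ^ (A + 4) := pow_le_pow_right₀ (by linarith) (by omega)
        have : 9 / L ^ (A + 4) ≤ 9 / L ^ 2 := by gcongr
        have : 9 / L ^ 2 + 8 / L ^ 2 ≤ 1 := by
          rw [← add_div, div_le_one (by positivity)]; nlinarith
        linarith

/-- total discrepancy of the primes up to x in the classes modulo n -/
noncomputable def DD (x n : ℕ) : ℝ :=
  ∑ j ∈ range n, |cs lam x n j - if j.Coprime n then (x : ℝ) / n.totient else 0|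

lemma DD_nonneg (x n : ℕ) : 0 ≤ DD x n := sum_nonneg fun _ _ => abs_nonneg _

lemma one_sub_sum_le (S : Finset ℕ) (a : ℕ → ℝ) (h0 : ∀ p ∈ S, 0 ≤ a p) (h1 : ∀ p ∈ S, a p ≤ 1) :
    1 - ∑ p ∈ S, a p ≤ ∏ p ∈ S, (1 - a p) := by
  induction S using Finset.induction_on with
  | empty => simp
  | insert q S hq ih =>
    rw [sum_insert hq, prod_insert hq]
    have := ih (fun p hp => h0 p (mem_insert_of_mem hp)) fun p hp => h1 p (mem_insert_of_mem hp)
    have a' := h0 q (mem_insert_self _ _)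
    have b := h1 q (mem_insert_self _ _)
    have c : 0 ≤ ∑ p ∈ S, a p := sum_nonneg fun p hp => h0 p (mem_insert_of_mem hp)
    nlinarith

lemma rho_tv {z n : ℕ} (hz : 0 < z) (hn : 0 < n) :
    ∑ j ∈ range n, |rho z n j - if j.Coprime n then (n.totient : ℝ)⁻¹ else 0| ≤
      (1 + (th z)⁻¹) * (#n.primeFactors / z) := by
  set S := n.primeFactors.filter (fun p => ¬ p ≤ z) with hS
  have hn' : (0 : ℝ) < n := by exact_mod_cast hn
  have hth := th_pos z
  have hφ : (0 : ℝ) < n.totient := by exact_mod_cast Nat.totient_pos.2 hn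
  have hSp : ∀ p ∈ S, p.Prime := fun p hp => prime_of_mem_primeFactors (mem_filter.1 hp).1
  have h1 : ∑ p ∈ S, 1 / (p : ℝ) ≤ #n.primeFactors / z := by
    refine (sum_le_card_nsmul _ _ (1 / z : ℝ) fun p hp => ?_).trans ?_
    · gcongr; exact (not_le.1 (mem_filter.1 hp).2).le
    · rw [nsmul_eq_mul, mul_one_div]; gcongr; exact filter_subset _ _
  set π := ∏ p ∈ primesLE z with p ∣ n, (1 - 1 / (p : ℝ)) with hπ
  have p1 : 0 < π := prod_pos fun p hp => factor_pos (prime_of_mem_primesLE (mem_filter.1 hp).1)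
  have p2 : th z ≤ π := by
    rw [th, ← prod_filter_mul_prod_filter_not (primesLE z) (· ∣ n)]
    exact mul_le_of_le_one_right p1.le
      (prod_factor_le_one fun p hp => prime_of_mem_primesLE (mem_filter.1 hp).1)
  have e1 : (n.totient : ℝ) = n * π * ∏ p ∈ S, (1 - 1 / (p : ℝ)) := by
    rw [totient_real, ← prod_filter_mul_prod_filter_not n.primeFactors (· ≤ z), mul_assoc]
    congr 3
    ext p
    simp only [mem_filter, mem_primeFactors, mem_primesLE, hn.ne', ne_eq, not_false_eq_true]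
    tauto
  have h2 := one_sub_sum_le S (fun p => 1 / (p : ℝ)) (fun _ _ => by positivity)
    fun p hp => by linarith [factor_pos (hSp p hp)]
  have h3 := prod_factor_le_one hSp
  calc _ ≤ ∑ j ∈ range n, ((if n.Coprime j then (n.totient : ℝ)⁻¹ * ∑ p ∈ S, 1 / (p : ℝ) else 0) +
          ∑ p ∈ S, if p ∣ j then (n * th z)⁻¹ else 0) := by
        refine sum_le_sum fun j _ => ?_
        have a0 : 0 ≤ ∑ p ∈ S, if p ∣ j then (n * th z)⁻¹ else 0 :=
          sum_nonneg fun _ _ => by split_ifs <;> positivity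
        by_cases hc : j.Coprime n
        · rw [if_pos hc, if_pos hc.symm, rho, if_pos fun p hp h h' =>
            (prime_of_mem_primesLE hp).one_lt.ne' (Nat.eq_one_of_dvd_coprimes hc h' h), ← hπ]
          have e2 : (n * π)⁻¹ = (n.totient : ℝ)⁻¹ * ∏ p ∈ S, (1 - 1 / (p : ℝ)) := by
            rw [eq_inv_mul_iff_mul_eq₀ hφ.ne', e1]; field_simp
          rw [e2, ← _root_.mul_sub_one, abs_mul, abs_of_pos (inv_pos.2 hφ), abs_of_nonpos (by linarith)]
          refine le_trans ?_ (le_add_of_nonneg_right a0)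
          gcongr; linarith
        · rw [if_neg hc, if_neg fun h => hc h.symm, sub_zero, zero_add, rho]
          split_ifs with h
          · obtain ⟨p, hp, b1, b2⟩ := Nat.Prime.not_coprime_iff_dvd.1 hc
            have hpS : p ∈ S := mem_filter.2 ⟨mem_primeFactors.2 ⟨hp, b2, hn.ne'⟩,
              fun h' => h p (mem_primesLE.2 ⟨h', hp⟩) b2 b1⟩
            refine le_trans ?_ (single_le_sum (f := fun p => if p ∣ j then (n * th z)⁻¹ else 0)
              (fun _ _ => by split_ifs <;> positivity) hpS)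
            rw [if_pos b1, ← hπ, abs_of_pos (by positivity)]
            gcongr
          · simpa using a0
    _ = (1 + (th z)⁻¹) * ∑ p ∈ S, 1 / (p : ℝ) := by
        rw [sum_add_distrib, ← sum_filter, sum_const, ← totient_eq_card_coprime, nsmul_eq_mul,
          ← mul_assoc, mul_inv_cancel₀ hφ.ne', add_mul, sum_comm, mul_sum S _ (th z)⁻¹]
        congr 1
        refine sum_congr rfl fun p hp => ?_
        obtain ⟨m, rfl⟩ := dvd_of_mem_primeFactors (mem_filter.1 hp).1
        have hp0 := (hSp p hp).pos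
        have : #{j ∈ range (p * m) | p ∣ j} = m := by
          rw [filter_congr (q := fun j => j ≡ 0 [MOD p]) fun _ _ => Nat.modEq_zero_iff_dvd.symm,
            ← Nat.count_eq_card_filter_range, Nat.count_modEq_card _ hp0]
          simp [Nat.mul_div_cancel_left _ hp0]
        have hm : (m : ℝ) ≠ 0 := by rintro h; simp [h] at hn'
        rw [← sum_filter, sum_const, this, nsmul_eq_mul]
        push_cast; field_simp
    _ ≤ _ := by gcongr

theorem bdh_family {ι : Type*} (A : ℕ) : ∀ᶠ N : ℕ in atTop, ∀ (s : Finset ι) (w : ι → ℝ)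
    (n : ι → ℕ) (K : ℝ), (∀ i ∈ s, 0 ≤ w i) → (∀ i ∈ s, 0 < n i ∧ n i ^ 3 ≤ N) →
    (∀ t : ℕ, 0 < t → ∑ i ∈ s with t ∣ n i, w i ≤ K * (t : ℝ) ^ (-(1 / 20) : ℝ)) →
    ∀ x ≤ N, ∑ i ∈ s, w i * DD x (n i) ≤ K * (N / Real.log N ^ A) := by
  obtain ⟨B, hB, h⟩ := bdh_core (2 * (A + 1))
  filter_upwards [h, lsh_ev (A + 1) (B + 1), ev_N (A + 1), tendsto_L.eventually_ge_atTop 7,
    eventually_gt_atTop 0] with N h1 h2 h3 hL hN s w n K hw hn hK x hx
  set L := Real.log N with hLd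
  have hN1 : (1 : ℝ) ≤ N := by exact_mod_cast hN
  have hLB : 1 ≤ L ^ B := one_le_pow₀ (by linarith)
  set z := ⌈L ^ B⌉₊ with hz
  have hz1 : L ^ B ≤ z := Nat.le_ceil _
  have hz2 : (z : ℝ) ≤ L ^ (B + 1) := by
    have := (Nat.ceil_lt_add_one (show 0 ≤ L ^ B by positivity)).le
    rw [pow_succ]; nlinarith
  have hz0 : 0 < z := by exact_mod_cast (show (0 : ℝ) < z by linarith)
  obtain ⟨h4, h5⟩ := h2 z hz0 hz2
  set g : ℕ → ℝ := fun k => lam k - lsh z k with hg
  set E := N / L ^ (A + 1) with hE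
  have h6 : L ^ (A + 1) ≤ √√(N : ℝ) :=
    le_trans (le_mul_of_one_le_right (by positivity) (Real.one_le_exp (Real.sqrt_nonneg _))) h3
  have hK1 : ∑ i ∈ s, w i ≤ K := by simpa using hK 1 one_pos
  have hK0 : 0 ≤ K := (sum_nonneg hw).trans hK1
  set Q := s.sup n with hQ
  have hQ3 : Q ^ 3 ≤ N := by
    rcases s.eq_empty_or_nonempty with rfl | hne
    · simp [hQ]
    · obtain ⟨i, hi, e⟩ := exists_mem_eq_sup s hne n
      rw [hQ, e]; exact (hn i hi).2
  have hD : ∀ i ∈ s, DD x (n i) ≤ √(∑ t ∈ (n i).divisors, WW g x t) + 6 * E := by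
    intro i hi
    obtain ⟨a0, a1⟩ := hn i hi
    generalize n i = m at a0 a1
    have hm : (1 : ℝ) ≤ m := by exact_mod_cast a0
    have a2 : ∑ j ∈ range m, |cs g x m j| ≤ √(∑ t ∈ m.divisors, WW g x t) := by
      refine Real.le_sqrt_of_sq_le (le_trans ?_ (cs_sq_le g x a0))
      simpa using sq_sum_le_card_mul_sum_sq (s := range m) (f := fun j => |cs g x m j|)
    have a3 : ∑ j ∈ range m, |cs (lsh z) x m j - x * rho z m j| ≤ 2 * E := by
      refine (sum_le_card_nsmul _ _ _ fun j _ => h5 m a0 j x hx).trans ?_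
      have b1 : (m : ℝ) ≤ √N := Real.le_sqrt_of_sq_le (le_trans (pow_le_pow_right₀ hm (by norm_num))
        (show (m : ℝ) ^ 3 ≤ N by exact_mod_cast a1))
      have b2 : √(N : ℝ) * √√(N : ℝ) ≤ E := by
        rw [hE, le_div_iff₀ (by positivity)]
        calc _ ≤ √(N : ℝ) * √√(N : ℝ) * √√(N : ℝ) := by gcongr
          _ = N := by
              rw [mul_assoc, Real.mul_self_sqrt (by positivity), Real.mul_self_sqrt (by positivity)]
      rw [card_range, nsmul_eq_mul, mul_add, show m * (N / m / L ^ (A + 1)) = E by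
        rw [hE]; field_simp]
      nlinarith [Real.sqrt_nonneg √(N : ℝ)]
    have a4 : x * ((1 + (th z)⁻¹) * (#m.primeFactors / z)) ≤ 4 * E := by
      have b1 : (#m.primeFactors : ℝ) ≤ 2 * L := by
        have c1 := (two_pow_le_tau a0.ne').trans (show (#m.divisors : ℝ) ≤ N by
          exact_mod_cast (Nat.card_divisors_le_self m).trans
            ((Nat.le_self_pow (by norm_num) m).trans a1))
        have c2 := Real.log_le_log (by positivity) c1
        rw [Real.log_pow] at c2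
        nlinarith [Real.log_two_gt_d9, (Nat.cast_nonneg _ : (0 : ℝ) ≤ #m.primeFactors)]
      have b2 : L ^ (A + 3) ≤ z := le_trans (pow_le_pow_right₀ (by linarith) (by omega)) hz1
      have b3 := (inv_pos.2 (th_pos z)).le
      calc _ ≤ N * ((2 * L) * (2 * L / L ^ (A + 3))) := by gcongr; linarith
        _ = _ := by rw [hE]; field_simp; ring
    have a5 := mul_le_mul_of_nonneg_left (rho_tv hz0 a0) (Nat.cast_nonneg x : (0 : ℝ) ≤ x)
    rw [mul_sum] at a5
    refine le_trans ?_ ((add_le_add (add_le_add a2 a3) (a5.trans a4)).trans (le_of_eq (by ring)))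
    rw [DD, ← sum_add_distrib, ← sum_add_distrib]
    refine sum_le_sum fun j _ => ?_
    rw [← abs_of_nonneg (Nat.cast_nonneg x : (0 : ℝ) ≤ x), ← abs_mul,
      abs_of_nonneg (Nat.cast_nonneg x : (0 : ℝ) ≤ x)]
    refine le_trans (le_of_eq ?_) (abs_add_three _ _ _)
    rw [hg, cs_sub]
    congr 1
    split_ifs <;> ring
  have hW : ∑ i ∈ s, w i * ∑ t ∈ (n i).divisors, WW g x t ≤ K * E ^ 2 := by
    calc _ = ∑ t ∈ Icc 1 Q, WW g x t * ∑ i ∈ s with t ∣ n i, w i := by
          simp only [mul_sum, sum_filter, mul_ite, mul_zero]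
          rw [sum_comm]
          refine sum_congr rfl fun i hi => ?_
          rw [← sum_filter]
          refine sum_congr ?_ fun _ _ => mul_comm _ _
          ext t
          simp only [mem_divisors, mem_filter, mem_Icc]
          exact ⟨fun h => ⟨⟨Nat.pos_of_dvd_of_pos h.1 (hn i hi).1,
            (Nat.le_of_dvd (hn i hi).1 h.1).trans (le_sup hi)⟩, h.1⟩, fun h => ⟨h.2, (hn i hi).1.ne'⟩⟩
      _ ≤ ∑ t ∈ Icc 1 Q, K * (WW g x t * (t : ℝ) ^ (-(1 / 20) : ℝ)) := by
          refine sum_le_sum fun t ht => ?_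
          rw [mul_left_comm]
          exact mul_le_mul_of_nonneg_left (hK t (mem_Icc.1 ht).1) (WW_nonneg _ _ _)
      _ ≤ _ := by
          rw [← mul_sum, hE, div_pow, ← pow_mul, mul_comm (A + 1)]
          gcongr
          exact h1 z hz1 hz2 x hx Q hQ3
  have hC : ∑ i ∈ s, w i * √(∑ t ∈ (n i).divisors, WW g x t) ≤ K * E := by
    refine (sq_le_sq₀ (sum_nonneg fun i hi => mul_nonneg (hw i hi) (Real.sqrt_nonneg _))
      (by positivity)).1 ?_
    have := sum_sq_le_sum_mul_sum_of_sq_le_mul s (r := fun i => w i *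
      √(∑ t ∈ (n i).divisors, WW g x t)) (f := w)
      (g := fun i => w i * ∑ t ∈ (n i).divisors, WW g x t) hw
      (fun i hi => mul_nonneg (hw i hi) (sum_nonneg fun t _ => WW_nonneg _ _ _))
      (fun i _ => by rw [mul_pow, Real.sq_sqrt (sum_nonneg fun t _ => WW_nonneg _ _ _)]; apply le_of_eq; ring)
    refine this.trans ?_
    calc _ ≤ K * (K * E ^ 2) := mul_le_mul hK1 hW (sum_nonneg fun i hi => mul_nonneg (hw i hi)
          (sum_nonneg fun t _ => WW_nonneg _ _ _)) hK0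
      _ = _ := by ring
  calc _ ≤ ∑ i ∈ s, w i * (√(∑ t ∈ (n i).divisors, WW g x t) + 6 * E) :=
        sum_le_sum fun i hi => mul_le_mul_of_nonneg_left (hD i hi) (hw i hi)
    _ ≤ K * E + K * (6 * E) := by
        simp only [mul_add (w _), sum_add_distrib, ← sum_mul]
        gcongr
    _ = K * (7 / L * (N / L ^ A)) := by rw [hE]; field_simp; ring
    _ ≤ _ := by
        gcongr
        exact mul_le_of_le_one_left (by positivity) (by rw [div_le_one (by linarith)]; exact hL)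

end Pool.Agent.Lib.SW
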