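import Pool.Agent.Lib.SW.LBound
import Pool.Agent.Lib.SW.Div

/-! Siegel lower bound for the value at one of the L-function of a real character. -/

namespace Pool.Agent.Lib.SW

open Finset Complex Filter Topology
open scoped ComplexOrder

theorem estermann {Φ : ℂ → ℂ} (hΦ : Differentiable ℂ Φ) {M : ℝ} (hM1 : 1 ≤ M)
    (hM : ∀ s ∈ Metric.closedBall (2 : ℂ) (4 / 3), ‖Φ s‖ ≤ M) {r : ℕ → ℂ} (hr : 0 ≤ r)
    (hr1 : r 1 = 1) (hs : ∀ s : ℂ, 1 < s.re → LSeriesSummable r s)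
    (hF : ∀ s : ℂ, 1 < s.re → Φ s = (s - 1) * LSeries r s) {δ : ℝ} (hδ : 0 < δ) (hδ1 : δ ≤ 1 / 20)
    (h0 : 0 ≤ (Φ ((1 - δ : ℝ) : ℂ)).re) : δ ≤ 4 * ‖Φ 1‖ * (60 * M) ^ (5 * δ) := by
  have habs : LSeries.abscissaOfAbsConv r ≤ (1 : ℝ) :=
    LSeries.abscissaOfAbsConv_le_of_forall_lt_LSeriesSummable fun y hy => hs y (by simpa using hy)
  have habs2 : LSeries.abscissaOfAbsConv r < (2 : ℝ) :=
    habs.trans_lt (by exact_mod_cast (one_lt_two : (1 : ℝ) < 2))
  set D := dslope Φ 1 with hD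
  have hDd : Differentiable ℂ D := differentiableOn_univ.1
    ((differentiableOn_dslope (s := Set.univ) univ_mem).2 hΦ.differentiableOn)
  have hDe : ∀ s, s ≠ 1 → D s = (s - 1)⁻¹ * (Φ s - Φ 1) := fun s hs => by
    rw [hD, dslope_of_ne _ hs, slope_def_field, div_eq_inv_mul]
  have hb : ∀ s ∈ Metric.sphere (2 : ℂ) (4 / 3), ‖D s‖ ≤ 6 * M := by
    intro s hs
    have h1 : ‖s - 2‖ = 4 / 3 := by simpa [dist_eq_norm] using hs
    have h2 : 1 / 3 ≤ ‖s - 1‖ := by
      have := norm_add_le (s - 1) (-1)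
      rw [show s - 1 + -1 = s - 2 by ring, h1] at this
      simp at this; linarith
    have h3 : s ≠ 1 := by rintro rfl; norm_num at h2
    have h4 := hM s (Metric.sphere_subset_closedBall hs)
    have h5 := hM 1 (by simp [dist_eq_norm]; norm_num)
    rw [hDe s h3, norm_mul, norm_inv, inv_mul_le_iff₀ (by linarith)]
    nlinarith [norm_sub_le (Φ s) (Φ 1)]
  set u : ℝ := 1 + δ with hu
  have hT := hasSum_taylorSeries_on_ball (f := D) (c := 2) (r := 2) (z := ((1 - δ : ℝ) : ℂ))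
    hDd.differentiableOn (by
      rw [mem_ball_iff_norm, show ((1 - δ : ℝ) : ℂ) - 2 = ((-u : ℝ) : ℂ) by simp [hu]; ring,
        norm_real, Real.norm_eq_abs, abs_neg, abs_of_pos (by linarith)]
      linarith)
  rw [show ((1 - δ : ℝ) : ℂ) - 2 = -(u : ℂ) by simp [hu]; ring] at hT
  set d : ℕ → ℂ := fun n => ((n.factorial : ℂ))⁻¹ • (-(u : ℂ)) ^ n • iteratedDeriv n D 2 with hd
  have hdb : ∀ n, ‖d n‖ ≤ 6 * M * (4 / 5) ^ n := by
    intro n
    have h1 := norm_iteratedDeriv_le_of_forall_mem_sphere_norm_le n (by norm_num)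
      hDd.diffContOnCl hb
    have h2 : (0 : ℝ) < n.factorial := by positivity
    simp only [hd, smul_eq_mul, norm_mul, norm_inv, norm_pow, norm_neg, norm_natCast, norm_real]
    rw [Real.norm_eq_abs, abs_of_pos (by linarith)]
    calc _ ≤ (n.factorial : ℝ)⁻¹ * (u ^ n * (n.factorial * (6 * M) / (4 / 3) ^ n)) := by gcongr
      _ = 6 * M * (u * (3 / 4)) ^ n := by rw [mul_pow, div_pow, div_pow]; field_simp
      _ ≤ _ := by gcongr; linarith
  have hdl : ∀ n, (if n = 0 then 1 else 0) - (Φ 1).re * u ^ n ≤ (d n).re := by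
    intro n
    have hU : {s : ℂ | 1 < s.re} ∈ 𝓝 (2 : ℂ) :=
      (isOpen_lt continuous_const continuous_re).mem_nhds (by simp)
    have e1 : D =ᶠ[𝓝 2] fun s => LSeries r s - Φ 1 * (1 * s - 1)⁻¹ := by
      filter_upwards [hU] with s hs
      have h3 : s ≠ 1 := by rintro rfl; simp at hs
      have : s - 1 ≠ 0 := sub_ne_zero.2 h3
      rw [hDe s h3, hF s hs]; field_simp
    have c1 : ContDiffAt ℂ n (LSeries r) 2 :=
      (LSeries_analyticOnNhd r 2 (by simpa using habs2)).contDiffAt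
    have c2 : ContDiffAt ℂ n (fun s : ℂ => (1 * s - 1)⁻¹) 2 :=
      ContDiffAt.inv (by fun_prop) (by norm_num)
    have e2 : iteratedDeriv n D 2 = iteratedDeriv n (LSeries r) 2 -
        Φ 1 * ((-1) ^ n * n.factorial) := by
      rw [e1.iteratedDeriv_eq, iteratedDeriv_fun_sub c1 (contDiffAt_const.mul c2),
        iteratedDeriv_const_mul_field, iteratedDeriv_eq_iterate (f := fun s : ℂ => (1 * s - 1)⁻¹),
        iter_deriv_inv_linear_sub]
      norm_num
    have h1 := LSeries.iteratedDeriv_alternating hr habs2 n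
    push_cast at h1
    have h2 : (n.factorial : ℂ) ≠ 0 := by exact_mod_cast n.factorial_ne_zero
    have e3 : d n = (((n.factorial : ℝ)⁻¹ * u ^ n : ℝ) : ℂ) *
        ((-1) ^ n * iteratedDeriv n (LSeries r) 2) - Φ 1 * ((u ^ n : ℝ) : ℂ) := by
      simp only [hd, smul_eq_mul, e2, neg_pow (u : ℂ)]
      push_cast
      have : ((-1 : ℂ)) ^ n * (-1) ^ n = 1 := by rw [← mul_pow]; simp
      field_simp
      linear_combination (-(u : ℂ) ^ n * Φ 1 * n.factorial) * this
    rw [e3, sub_re, re_ofReal_mul, re_mul_ofReal]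
    gcongr
    split_ifs with hn
    · subst hn
      have h3 := (hs 2 (by simp)).sum_le_tsum {1} (fun k _ => by
        have := LSeries.term_nonneg (hr k) 2
        simpa using this)
      simp only [sum_singleton, LSeries.term, one_ne_zero, if_false, hr1, Nat.cast_one, one_cpow,
        div_one] at h3
      simpa [LSeries, LSeries.term] using (Complex.le_def.1 h3).1
    · have := (Complex.le_def.1 h1).1
      rw [zero_re] at this
      positivity
  set K := ⌈5 * Real.log (60 * M)⌉₊ with hK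
  have hL : 0 ≤ Real.log (60 * M) := Real.log_nonneg (by linarith)
  have k1 : (4 / 5 : ℝ) ^ K ≤ (60 * M)⁻¹ := by
    calc (4 / 5 : ℝ) ^ K ≤ Real.exp (-(1 / 5)) ^ K := by
          gcongr; linarith [Real.add_one_le_exp (-(1 / 5) : ℝ)]
      _ = Real.exp (K * -(1 / 5)) := by rw [Real.exp_nat_mul]
      _ ≤ Real.exp (-Real.log (60 * M)) := by
          gcongr; linarith [Nat.le_ceil (5 * Real.log (60 * M))]
      _ = _ := by rw [Real.exp_neg, Real.exp_log (by linarith)]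
  have k2 : u ^ K ≤ 2 * (60 * M) ^ (5 * δ) := by
    have a1 := (Nat.ceil_lt_add_one (show 0 ≤ 5 * Real.log (60 * M) by linarith)).le
    have a2 : Real.exp δ ≤ 2 := by
      have := Real.exp_bound_div_one_sub_of_interval hδ.le (by linarith)
      refine this.trans ?_
      rw [div_le_iff₀ (by linarith)]; linarith
    calc u ^ K ≤ Real.exp δ ^ K := by gcongr; linarith [Real.add_one_le_exp δ]
      _ = Real.exp (K * δ) := by rw [Real.exp_nat_mul]
      _ ≤ Real.exp ((5 * Real.log (60 * M) + 1) * δ) := by gcongr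
      _ = Real.exp δ * (60 * M) ^ (5 * δ) := by
          rw [Real.rpow_def_of_pos (by linarith), ← Real.exp_add]; congr 1; ring
      _ ≤ _ := by gcongr
  have t1 := hT.summable.sum_add_tsum_nat_add K
  rw [hT.tsum_eq] at t1
  have t2 : ‖∑' i, d (i + K)‖ ≤ 1 / 2 := by
    have := tsum_of_norm_bounded ((hasSum_geometric_of_lt_one (r := (4 / 5 : ℝ)) (by norm_num)
      (by norm_num)).mul_left (6 * M * (4 / 5) ^ K)) (f := fun i => d (i + K))
      (fun i => (hdb _).trans (le_of_eq (by ring)))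
    refine this.trans ?_
    calc _ ≤ 6 * M * (60 * M)⁻¹ * (1 - 4 / 5)⁻¹ := by gcongr
      _ = _ := by field_simp; norm_num
  have hK0 : K ≠ 0 := by
    intro h
    rw [h, pow_zero, le_inv_comm₀ one_pos (by linarith)] at k1
    linarith
  have t3 : 1 - (Φ 1).re * ((u ^ K - 1) / δ) ≤ (∑ i ∈ range K, d i).re := by
    rw [re_sum]
    refine le_trans (le_of_eq ?_) (sum_le_sum fun n _ => hdl n)
    rw [sum_sub_distrib, ← mul_sum, geom_sum_eq (by linarith), sum_ite_eq' (range K) 0,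
      if_pos (mem_range.2 (Nat.pos_of_ne_zero hK0)), hu, add_sub_cancel_left]
  have t4 : (D ((1 - δ : ℝ) : ℂ)).re ≤ (Φ 1).re / δ := by
    rw [hDe _ (by simp [hδ.ne']), show ((1 - δ : ℝ) : ℂ) - 1 = ((-δ : ℝ) : ℂ) by simp,
      ← ofReal_inv, re_ofReal_mul, sub_re, inv_neg, le_div_iff₀ hδ]
    field_simp
    linarith
  have t5 := (abs_le.1 ((abs_re_le_norm _).trans t2)).1
  have t6 := congrArg re t1
  rw [add_re] at t6
  have t7 : 1 / 2 ≤ (Φ 1).re * u ^ K / δ := by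
    have : (Φ 1).re * u ^ K / δ = (Φ 1).re * ((u ^ K - 1) / δ) + (Φ 1).re / δ := by ring
    linarith
  rw [le_div_iff₀ hδ] at t7
  have t8 : (Φ 1).re * u ^ K ≤ ‖Φ 1‖ * (2 * (60 * M) ^ (5 * δ)) := by
    gcongr; exact re_le_norm _
  linarith

open ArithmeticFunction hiding add_apply
open DirichletCharacter

/-- logarithmic derivative relation -/
def LD (f c : ArithmeticFunction ℂ) : Prop := ∀ n : ℕ, f n * Complex.log n = (c * f) n

lemma LD.mul {f c g d : ArithmeticFunction ℂ} (h1 : LD f c) (h2 : LD g d) : LD (f * g) (c + d) := by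
  intro n
  have e : (c + d) * (f * g) = (c * f) * g + f * (d * g) := by ring
  rw [e, ArithmeticFunction.add_apply, mul_apply, mul_apply (f := c * f), mul_apply (g := d * g), sum_mul,
    ← sum_add_distrib]
  refine sum_congr rfl fun p hp => ?_
  obtain ⟨h, hn⟩ := Nat.mem_divisorsAntidiagonal.1 hp
  have ha : p.1 ≠ 0 := by rintro h0; simp [h0] at h; exact hn h.symm
  have hb : p.2 ≠ 0 := by rintro h0; simp [h0] at h; exact hn h.symm
  rw [← h1, ← h2, ← h, ← natCast_log, ← natCast_log, ← natCast_log, Nat.cast_mul,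
    Real.log_mul (by exact_mod_cast ha) (by exact_mod_cast hb)]
  push_cast; ring

lemma LD.nonneg {f c : ArithmeticFunction ℂ} (h : LD f c) (hc : ∀ n, 0 ≤ c n) (hc1 : c 1 = 0)
    (hf : f 1 = 1) (n : ℕ) : 0 ≤ f n := by
  induction n using Nat.strong_induction_on with
  | _ n ih =>
  rcases Nat.lt_or_ge n 2 with hn | hn
  · interval_cases n
    · simp
    · rw [hf]; exact zero_le_one
  have h1 : 0 ≤ (c * f) n := by
    rw [mul_apply]
    refine sum_nonneg fun p hp => ?_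
    obtain ⟨h, hn0⟩ := Nat.mem_divisorsAntidiagonal.1 hp
    by_cases h1 : p.1 = 1
    · rw [h1, hc1, zero_mul]
    · refine mul_nonneg (hc _) (ih _ ?_)
      have ha : p.1 ≠ 0 := by rintro h0; simp [h0] at h; exact hn0 h.symm
      have hb : p.2 ≠ 0 := by rintro h0; simp [h0] at h; exact hn0 h.symm
      have : 2 * p.2 ≤ p.1 * p.2 := Nat.mul_le_mul_right _ (by omega)
      omega
  rw [← h n, ← natCast_log] at h1
  have h2 : 0 < Real.log n := Real.log_pos (by exact_mod_cast hn)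
  have h3 : (0 : ℂ) ≤ ((Real.log n)⁻¹ : ℝ) := by exact_mod_cast (inv_pos.2 h2).le
  have h4 := mul_nonneg h1 h3
  rwa [mul_assoc, ← ofReal_mul, mul_inv_cancel₀ h2.ne', ofReal_one, mul_one] at h4

/-- a character as an arithmetic function -/
noncomputable def af {N : ℕ} (χ : DirichletCharacter ℂ N) : ArithmeticFunction ℂ :=
  toArithmeticFunction (fun n => χ n)

/-- twist of the von Mangoldt function -/
noncomputable def al {N : ℕ} (χ : DirichletCharacter ℂ N) : ArithmeticFunction ℂ :=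
  toArithmeticFunction ((fun n : ℕ => χ n) * fun n => (vonMangoldt n : ℂ))

lemma al_apply {N : ℕ} (χ : DirichletCharacter ℂ N) (n : ℕ) : al χ n = χ n * vonMangoldt n := by
  rcases eq_or_ne n 0 with rfl | hn <;> simp [al, toArithmeticFunction, *]

lemma LD_af {N : ℕ} (χ : DirichletCharacter ℂ N) : LD (af χ) (al χ) := by
  intro n
  have := congrFun (convolution_twist_vonMangoldt χ) n
  rw [LSeries.convolution] at this
  rw [af, al, this]
  rcases eq_or_ne n 0 with rfl | hn <;> simp [toArithmeticFunction, *]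

lemma af_one {N : ℕ} (χ : DirichletCharacter ℂ N) : af χ 1 = 1 := by
  simp [af, toArithmeticFunction]

lemma af_summable {N : ℕ} (χ : DirichletCharacter ℂ N) {s : ℂ} (hs : 1 < s.re) :
    LSeriesSummable (af χ) s :=
  (LSeriesSummable_congr s (fun hn => by simp [af, toArithmeticFunction, hn])).1
    (LSeriesSummable_of_one_lt_re χ hs)

lemma af_L {N : ℕ} [NeZero N] (χ : DirichletCharacter ℂ N) {s : ℂ} (hs : 1 < s.re) :
    LSeries (af χ) s = LFunction χ s := by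
  rw [LFunction_eq_LSeries χ hs]
  exact LSeries_congr (fun hn => by simp [af, toArithmeticFunction, hn]) s

lemma zeta1_L {s : ℂ} (hs : 1 < s.re) :
    riemannZeta₁ s = (s - 1) * LSeries (af (1 : DirichletCharacter ℂ 1)) s := by
  have hs1 : s ≠ 1 := by rintro rfl; simp at hs
  have : s - 1 ≠ 0 := sub_ne_zero.2 hs1
  rw [af_L _ hs, LFunction_modOne_eq, riemannZeta_eq_inv_sub_mul hs1]
  field_simp

lemma one_add_nonneg {N : ℕ} {χ : DirichletCharacter ℂ N} (h : χ ^ 2 = 1) (x : ZMod N) :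
    0 ≤ 1 + χ x := by
  rcases MulChar.isQuadratic_iff_sq_eq_one.2 h x with h | h | h <;> rw [h] <;> norm_num

lemma ball_facts {s : ℂ} (hs : s ∈ Metric.closedBall (2 : ℂ) (4 / 3)) :
    1 - 1 / 2 ≤ s.re ∧ ‖s‖ + 1 ≤ 5 ∧ ‖s - 1‖ ≤ 3 := by
  rw [mem_closedBall_iff_norm] at hs
  have h1 := (abs_le.1 ((abs_re_le_norm _).trans hs)).1
  have h2 := norm_add_le (s - 2) 2
  have h3 := norm_add_le (s - 2) 1
  rw [show s - 2 + 1 = s - 1 by ring] at h3
  simp at h1 h2 h3
  refine ⟨by linarith, by linarith, by linarith⟩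

/-- constant bounding everything on the disc -/
noncomputable def Z0 : ℝ := 16 * Zc (1 / 2)

lemma Z0_ge : 1 ≤ Z0 := by unfold Z0; linarith [Zc_ge (η := 1 / 2) (by norm_num)]

lemma zeta1_ball {s : ℂ} (hs : s ∈ Metric.closedBall (2 : ℂ) (4 / 3)) : ‖riemannZeta₁ s‖ ≤ Z0 := by
  obtain ⟨h1, h2, h3⟩ := ball_facts hs
  have h4 := zeta0_bound (η := 1 / 2) (by norm_num) le_rfl h1
  have h5 := Zc_ge (η := 1 / 2) (by norm_num)
  norm_num at h4
  rw [riemannZeta₁, Z0]
  refine (norm_add_le _ _).trans ?_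
  rw [norm_mul, norm_one]
  have : ‖s - 1‖ * ‖riemannZeta₀ s‖ ≤ 3 * (Zc (1 / 2) * 5) := by
    gcongr; exact h4.trans (by gcongr)
  linarith

lemma L_ball {N : ℕ} [NeZero N] {χ : DirichletCharacter ℂ N} (hχ : χ ≠ 1) {s : ℂ}
    (hs : s ∈ Metric.closedBall (2 : ℂ) (4 / 3)) : ‖LFunction χ s‖ ≤ Z0 * N := by
  obtain ⟨h1, h2, h3⟩ := ball_facts hs
  have h4 := LFunction_bound hχ (η := 1 / 2) (by norm_num) le_rfl h1
  have h5 := Zc_ge (η := 1 / 2) (by norm_num)
  norm_num at h4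
  have h6 : (0 : ℝ) ≤ N := by positivity
  have : Zc (1 / 2) * (N * (‖s‖ + 1)) ≤ Zc (1 / 2) * (N * 5) := by gcongr
  rw [Z0]
  nlinarith

lemma est2 {N : ℕ} [NeZero N] {χ : DirichletCharacter ℂ N} (hχ : χ ≠ 1) (h2 : χ ^ 2 = 1) {δ : ℝ}
    (hδ : 0 < δ) (hδ1 : δ ≤ 1 / 20)
    (h0 : 0 ≤ (riemannZeta₁ ((1 - δ : ℝ) : ℂ) * LFunction χ ((1 - δ : ℝ) : ℂ)).re) :
    δ ≤ 4 * ‖LFunction χ 1‖ * (60 * (Z0 * (Z0 * N))) ^ (5 * δ) := by
  have hN : (1 : ℝ) ≤ N := by exact_mod_cast NeZero.pos N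
  have hZ := Z0_ge
  have := estermann (Φ := fun s => riemannZeta₁ s * LFunction χ s)
    (differentiable_riemannZeta₁.mul (differentiable_LFunction hχ)) (M := Z0 * (Z0 * N))
    (one_le_mul_of_one_le_of_one_le hZ (one_le_mul_of_one_le_of_one_le hZ hN))
    (fun s hs => by rw [norm_mul]; gcongr; exacts [zeta1_ball hs, L_ball hχ hs])
    (r := ⇑(af (1 : DirichletCharacter ℂ 1) * af χ))
    (fun n => ((LD_af _).mul (LD_af χ)).nonneg (fun n => by
      rw [ArithmeticFunction.add_apply, al_apply, al_apply, ← add_mul, Subsingleton.elim (n : ZMod 1) 1, map_one]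
      exact mul_nonneg (one_add_nonneg h2 _) (by exact_mod_cast vonMangoldt_nonneg))
      (by simp [al_apply]) (by simp [af_one]) n) (by simp [af_one])
    (fun s hs => LSeriesSummable_mul (af_summable _ hs) (af_summable _ hs))
    (fun s hs => by
      rw [LSeries_mul' (af_summable _ hs) (af_summable _ hs), zeta1_L hs, af_L χ hs]; ring)
    hδ hδ1 h0
  simpa using this

lemma est4 {N : ℕ} [NeZero N] {χ ψ : DirichletCharacter ℂ N} (hχ : χ ≠ 1) (h2 : χ ^ 2 = 1)
    (hψ : ψ ≠ 1) (h2' : ψ ^ 2 = 1) (h3 : χ * ψ ≠ 1) {δ : ℝ} (hδ : 0 < δ) (hδ1 : δ ≤ 1 / 20)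
    (h0 : riemannZeta₁ ((1 - δ : ℝ) : ℂ) * LFunction ψ ((1 - δ : ℝ) : ℂ) = 0) :
    δ ≤ 4 * (‖LFunction ψ 1‖ * ‖LFunction χ 1‖ * ‖LFunction (χ * ψ) 1‖) *
      (60 * (Z0 * (Z0 * N) * (Z0 * N) * (Z0 * N))) ^ (5 * δ) := by
  have hN : (1 : ℝ) ≤ N := by exact_mod_cast NeZero.pos N
  have hZ := Z0_ge
  have hZN := one_le_mul_of_one_le_of_one_le hZ hN
  have := estermann
    (Φ := fun s => riemannZeta₁ s * LFunction ψ s * LFunction χ s * LFunction (χ * ψ) s)
    (((differentiable_riemannZeta₁.mul (differentiable_LFunction hψ)).mul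
      (differentiable_LFunction hχ)).mul (differentiable_LFunction h3))
    (M := Z0 * (Z0 * N) * (Z0 * N) * (Z0 * N))
    (one_le_mul_of_one_le_of_one_le (one_le_mul_of_one_le_of_one_le
      (one_le_mul_of_one_le_of_one_le hZ hZN) hZN) hZN)
    (fun s hs => by
      rw [norm_mul, norm_mul, norm_mul]; gcongr
      exacts [zeta1_ball hs, L_ball hψ hs, L_ball hχ hs, L_ball h3 hs])
    (r := ⇑(af (1 : DirichletCharacter ℂ 1) * af ψ * af χ * af (χ * ψ)))
    (fun n => ((((LD_af _).mul (LD_af ψ)).mul (LD_af χ)).mul (LD_af _)).nonneg (fun n => by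
      simp only [ArithmeticFunction.add_apply, al_apply, Subsingleton.elim (n : ZMod 1) 1, map_one, MulChar.mul_apply]
      have := mul_nonneg (mul_nonneg (one_add_nonneg h2 (n : ZMod N)) (one_add_nonneg h2' n))
        (show (0 : ℂ) ≤ (vonMangoldt n : ℝ) by exact_mod_cast vonMangoldt_nonneg)
      refine this.trans (le_of_eq ?_); ring)
      (by simp [al_apply]) (by simp [af_one]) n) (by simp [af_one])
    (fun s hs => LSeriesSummable_mul (LSeriesSummable_mul (LSeriesSummable_mul (af_summable _ hs)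
      (af_summable _ hs)) (af_summable _ hs)) (af_summable _ hs))
    (fun s hs => by
      have a := LSeriesSummable_mul (af_summable (1 : DirichletCharacter ℂ 1) hs) (af_summable ψ hs)
      rw [LSeries_mul' (LSeriesSummable_mul a (af_summable _ hs)) (af_summable _ hs),
        LSeries_mul' a (af_summable _ hs), LSeries_mul' (af_summable _ hs) (af_summable _ hs),
        zeta1_L hs, af_L χ hs, af_L ψ hs, af_L (χ * ψ) hs]
      ring)
    hδ hδ1 (by simp only [h0]; simp)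
  simpa using this

lemma level_bounds {M N : ℕ} [NeZero M] [NeZero N] (hMN : M ∣ N) {χ : DirichletCharacter ℂ M}
    (hχ : χ ≠ 1) :
    ‖LFunction (changeLevel hMN χ) 1‖ ≤ #N.divisors * ‖LFunction χ 1‖ ∧
    ‖LFunction χ 1‖ ≤ #N.divisors * ‖LFunction (changeLevel hMN χ) 1‖ := by
  have ht := two_pow_le_tau (NeZero.ne N)
  have hb : ∀ p ∈ N.primeFactors, ‖χ p * (p : ℂ) ^ (-1 : ℂ)‖ ≤ 1 / 2 := by
    intro p hp
    have h2 : (2 : ℝ) ≤ p := by exact_mod_cast (Nat.prime_of_mem_primeFactors hp).two_le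
    rw [norm_mul, cpow_neg_one, norm_inv, norm_natCast]
    have h3 : (p : ℝ)⁻¹ ≤ 1 / 2 := by rw [one_div]; gcongr
    exact (mul_le_of_le_one_left (by positivity) (χ.norm_le_one _)).trans h3
  rw [LFunction_changeLevel hMN χ (Or.inl hχ), norm_mul, norm_prod]
  have h1 : ∏ p ∈ N.primeFactors, ‖1 - χ p * (p : ℂ) ^ (-1 : ℂ)‖ ≤ 2 ^ #N.primeFactors := by
    rw [← prod_const]
    refine prod_le_prod (fun _ _ => norm_nonneg _) fun p hp => ?_
    have := norm_sub_le 1 (χ p * (p : ℂ) ^ (-1 : ℂ))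
    rw [norm_one] at this
    linarith [hb p hp]
  have h2 : 1 ≤ 2 ^ #N.primeFactors * ∏ p ∈ N.primeFactors, ‖1 - χ p * (p : ℂ) ^ (-1 : ℂ)‖ := by
    rw [← prod_const, ← prod_mul_distrib]
    refine le_trans (le_of_eq prod_const_one.symm)
      (prod_le_prod (fun _ _ => zero_le_one) fun p hp => ?_)
    have := norm_sub_norm_le 1 (χ p * (p : ℂ) ^ (-1 : ℂ))
    rw [norm_one] at this
    linarith [hb p hp]
  have h3 : 0 ≤ ∏ p ∈ N.primeFactors, ‖1 - χ p * (p : ℂ) ^ (-1 : ℂ)‖ := by positivity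
  have h4 := norm_nonneg (LFunction χ 1)
  constructor
  · nlinarith
  · have := mul_le_mul_of_nonneg_right ht h3
    nlinarith

lemma exists_zero {N : ℕ} [NeZero N] {χ : DirichletCharacter ℂ N} (hχ : χ ≠ 1) (h2 : χ ^ 2 = 1)
    {δ : ℝ} (hδ : 0 < δ) (hδ1 : δ ≤ 1 / 20)
    (h0 : (riemannZeta₁ ((1 - δ : ℝ) : ℂ) * LFunction χ ((1 - δ : ℝ) : ℂ)).re < 0) :
    ∃ β, 0 < β ∧ β ≤ δ ∧
      riemannZeta₁ ((1 - β : ℝ) : ℂ) * LFunction χ ((1 - β : ℝ) : ℂ) = 0 := by
  have hc : Continuous fun x : ℝ => (riemannZeta₁ (x : ℂ) * LFunction χ (x : ℂ)).re :=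
    continuous_re.comp ((differentiable_riemannZeta₁.mul
      (differentiable_LFunction hχ)).continuous.comp continuous_ofReal)
  have hp : 0 ≤ (riemannZeta₁ ((2 : ℝ) : ℂ) * LFunction χ ((2 : ℝ) : ℂ)).re := by
    have hs : 1 < (((2 : ℝ) : ℂ)).re := by simp
    have h1 : 0 ≤ LSeries (⇑(af (1 : DirichletCharacter ℂ 1) * af χ)) ((2 : ℝ) : ℂ) :=
      tsum_nonneg fun n => LSeries.term_nonneg (((LD_af _).mul (LD_af χ)).nonneg (fun n => by
        rw [ArithmeticFunction.add_apply, al_apply, al_apply, ← add_mul, Subsingleton.elim (n : ZMod 1) 1, map_one]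
        exact mul_nonneg (one_add_nonneg h2 _) (by exact_mod_cast vonMangoldt_nonneg))
        (by simp [al_apply]) (by simp [af_one]) n) 2
    rw [LSeries_mul' (af_summable _ hs) (af_summable _ hs), af_L χ hs] at h1
    rw [zeta1_L hs, show ((2 : ℝ) : ℂ) - 1 = 1 by norm_num, one_mul]
    exact (Complex.le_def.1 h1).1
  obtain ⟨x, hx, hx0⟩ := intermediate_value_Icc (show 1 - δ ≤ 2 by linarith) hc.continuousOn
    (show (0 : ℝ) ∈ Set.Icc _ _ from ⟨h0.le, hp⟩)
  have hxp : 0 < x := by linarith [hx.1]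
  have hz : riemannZeta₁ (x : ℂ) * LFunction χ (x : ℂ) = 0 := by
    refine Complex.ext hx0 ?_
    have h3 : (riemannZeta₁ (x : ℂ)).im = 0 := by
      rcases eq_or_ne (x : ℂ) 1 with h | h
      · simp [h]
      · have h4 : (riemannZeta x).im = 0 := by
          rw [← conj_eq_iff_im, ← riemannZeta_conj, conj_ofReal]
        have : riemannZeta₁ x = ((x - 1 : ℝ) : ℂ) * riemannZeta x := by
          have := sub_ne_zero.2 h
          rw [riemannZeta_eq_inv_sub_mul h]; push_cast; field_simp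
        rw [this, im_ofReal_mul, h4, mul_zero]
    simp [mul_im, h3, LFunction_im hχ h2 hxp]
  refine ⟨1 - x, ?_, by linarith [hx.1], by simpa using hz⟩
  by_contra h
  have h1 : 1 ≤ (x : ℂ).re := by simp; linarith
  refine mul_ne_zero ?_ (LFunction_ne_zero_of_one_le_re χ (Or.inl hχ) h1) hz
  rcases eq_or_ne (x : ℂ) 1 with h | h
  · simp [h]
  · intro h5
    refine riemannZeta_ne_zero_of_one_le_re h1 ?_
    rw [riemannZeta_eq_inv_sub_mul h, h5, mul_zero]

theorem siegel {ε : ℝ} (hε : 0 < ε) : ∃ c : ℝ, 0 < c ∧ ∀ (q : ℕ) [NeZero q]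
    (χ : DirichletCharacter ℂ q), χ ≠ 1 → χ ^ 2 = 1 → c ≤ ‖LFunction χ 1‖ * (q : ℝ) ^ ε := by
  set δ := min (1 / 20) (ε / 60) with hδd
  have hδ : 0 < δ := lt_min (by norm_num) (by linarith)
  have hδ1 : δ ≤ 1 / 20 := min_le_left _ _
  have hδ2 : δ ≤ ε / 60 := min_le_right _ _
  have hZ := Z0_ge
  by_cases hA : ∀ (q : ℕ) [NeZero q] (χ : DirichletCharacter ℂ q), χ ≠ 1 → χ ^ 2 = 1 →
      0 ≤ (riemannZeta₁ ((1 - δ : ℝ) : ℂ) * LFunction χ ((1 - δ : ℝ) : ℂ)).re
  · refine ⟨δ / (4 * (60 * (Z0 * Z0)) ^ (5 * δ)), by positivity, fun q _ χ h1 h2 => ?_⟩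
    have hq : (1 : ℝ) ≤ q := by exact_mod_cast NeZero.pos q
    have h3 := est2 h1 h2 hδ hδ1 (hA q χ h1 h2)
    rw [show 60 * (Z0 * (Z0 * q)) = 60 * (Z0 * Z0) * q by ring,
      Real.mul_rpow (by positivity) (by positivity)] at h3
    have h4 : (q : ℝ) ^ (5 * δ) ≤ (q : ℝ) ^ ε := Real.rpow_le_rpow_of_exponent_le hq (by linarith)
    rw [div_le_iff₀ (by positivity)]
    calc δ ≤ 4 * ‖LFunction χ 1‖ * ((60 * (Z0 * Z0)) ^ (5 * δ) * (q : ℝ) ^ ε) :=
          h3.trans (by gcongr)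
      _ = _ := by ring
  push Not at hA
  obtain ⟨q1, _, ψ, hψ, hψ2, h0⟩ := hA
  obtain ⟨β, hβ, hβδ, hz⟩ := exists_zero hψ hψ2 hδ hδ1 h0
  obtain ⟨C, hC1, hC⟩ := divisor_bound (ε := ε / 4) (by linarith)
  set η := min (1 / 2) (ε / 8) with hηd
  have hη : 0 < η := lt_min (by norm_num) (by linarith)
  have hη1 : η ≤ 1 / 2 := min_le_left _ _
  have hη2 : η ≤ ε / 8 := min_le_right _ _
  have hZη := Zc_ge hη
  have hL : 0 < ‖LFunction ψ 1‖ := norm_pos_iff.2 (LFunction_apply_one_ne_zero hψ)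
  have hq1 : (1 : ℝ) ≤ q1 := by exact_mod_cast NeZero.pos q1
  set K := 4 * (2 * Zc η) * C * (2 * Zc η) * (60 * Z0 ^ 4) with hK
  refine ⟨min (β / K) (‖LFunction ψ 1‖ / C ^ 2) / (q1 : ℝ) ^ ε, by positivity,
    fun q _ χ h1 h2 => ?_⟩
  have hq : (1 : ℝ) ≤ q := by exact_mod_cast NeZero.pos q
  have : NeZero (q * q1) := ⟨mul_ne_zero (NeZero.ne _) (NeZero.ne _)⟩
  set N := q * q1 with hN
  have hN1 : (1 : ℝ) ≤ N := by exact_mod_cast NeZero.pos N
  set χ' := changeLevel (Nat.dvd_mul_right q q1) χ with hχ'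
  set ψ' := changeLevel (Nat.dvd_mul_left q1 q) ψ with hψ'
  have a1 : χ' ≠ 1 := h1 ∘ (changeLevel_eq_one_iff _).1
  have a2 : ψ' ≠ 1 := hψ ∘ (changeLevel_eq_one_iff _).1
  have a3 : χ' ^ 2 = 1 := by rw [hχ', ← map_pow, h2, map_one]
  have a4 : ψ' ^ 2 = 1 := by rw [hψ', ← map_pow, hψ2, map_one]
  set t := (N : ℝ) ^ (ε / 4) with ht
  have ht1 : 1 ≤ t := Real.one_le_rpow hN1 (by linarith)
  have e1 : (q : ℝ) ^ ε * (q1 : ℝ) ^ ε = t ^ 4 := by
    rw [← Real.mul_rpow (by positivity) (by positivity), ht, ← Real.rpow_natCast,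
      ← Real.rpow_mul (by positivity), hN]
    push_cast; congr 1; ring
  have b1 : ‖LFunction χ' 1‖ ≤ C * t * ‖LFunction χ 1‖ :=
    (level_bounds _ h1).1.trans (by gcongr; exact hC _)
  rw [div_le_iff₀ (by positivity), mul_assoc, e1]
  by_cases h3 : χ' * ψ' = 1
  · have e2 : χ' = ψ' := by
      rw [← mul_one χ', ← a4, sq, ← mul_assoc, h3, one_mul]
    have b2 : ‖LFunction ψ 1‖ ≤ C * t * ‖LFunction χ' 1‖ := by
      rw [e2]; exact (level_bounds _ hψ).2.trans (by gcongr; exact hC _)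
    refine (min_le_right _ _).trans ?_
    rw [div_le_iff₀ (by positivity)]
    calc _ ≤ C * t * (C * t * ‖LFunction χ 1‖) := b2.trans (by gcongr)
      _ = ‖LFunction χ 1‖ * t ^ 2 * C ^ 2 := by ring
      _ ≤ _ := by gcongr; norm_num
  · have b3 : ∀ φ : DirichletCharacter ℂ N, φ ≠ 1 → ‖LFunction φ 1‖ ≤ 2 * Zc η * t := by
      intro φ hφ
      have := LFunction_bound hφ hη hη1 (s := 1) (by simp; linarith)
      rw [norm_one, Real.mul_rpow (by positivity) (by positivity)] at this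
      have c1 : (N : ℝ) ^ (2 * η) ≤ t := Real.rpow_le_rpow_of_exponent_le hN1 (by linarith)
      have c2 : (1 + 1 : ℝ) ^ (2 * η) ≤ (1 + 1) ^ (1 : ℝ) :=
        Real.rpow_le_rpow_of_exponent_le (by norm_num) (by linarith)
      rw [Real.rpow_one] at c2
      calc _ ≤ Zc η * (t * (1 + 1)) := this.trans (by gcongr)
        _ = _ := by ring
    have b4 := est4 a1 a3 a2 a4 h3 hβ (hβδ.trans hδ1) (by
      rw [hψ', LFunction_changeLevel _ ψ (Or.inl hψ), ← mul_assoc, hz, zero_mul])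
    have b5 : (60 * (Z0 * (Z0 * N) * (Z0 * N) * (Z0 * N))) ^ (5 * β) ≤ 60 * Z0 ^ 4 * t := by
      rw [show 60 * (Z0 * (Z0 * N) * (Z0 * N) * (Z0 * N)) = 60 * Z0 ^ 4 * (N : ℝ) ^ (3 : ℕ) by ring,
        Real.mul_rpow (by positivity) (by positivity), ← Real.rpow_natCast (N : ℝ),
        ← Real.rpow_mul (by positivity)]
      have c0 : 1 ≤ Z0 ^ 4 := one_le_pow₀ hZ
      have c2 : (60 * Z0 ^ 4) ^ (5 * β) ≤ (60 * Z0 ^ 4) ^ (1 : ℝ) :=
        Real.rpow_le_rpow_of_exponent_le (by linarith) (by linarith)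
      rw [Real.rpow_one] at c2
      gcongr
      exact Real.rpow_le_rpow_of_exponent_le hN1 (by push_cast; linarith)
    refine (min_le_left _ _).trans ?_
    rw [div_le_iff₀ (by positivity)]
    calc β ≤ 4 * ((2 * Zc η * t) * (C * t * ‖LFunction χ 1‖) * (2 * Zc η * t)) *
          (60 * Z0 ^ 4 * t) := b4.trans (by gcongr; exacts [b3 _ a2, b3 _ h3])
      _ = _ := by rw [hK]; ring

end Pool.Agent.Lib.SW
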