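import Pool.Agent.Lib.SW.Main
import Pool.Agent.Lib.MP_b09185_nt.FL
import Pool.Agent.Lib.MP_be93de_nt.Rough

/-! The pure sieve of Brun and a model for the primes in residue classes. -/

namespace Pool.Agent.Lib.SW

open Finset Filter Nat
open Pool.Agent.Lib.MP_b09185_nt

lemma bonf_dvd (Q : Finset ℕ) (k n : ℕ) :
    |(if ∀ p ∈ Q, ¬ p ∣ n then (1 : ℝ) else 0) - ∑ D ∈ Q.powerset,
      if (∀ p ∈ D, p ∣ n) then (if #D ≤ k then (-1 : ℝ) ^ #D else 0) else 0| ≤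
      ∑ D ∈ Q.powerset, if (∀ p ∈ D, p ∣ n) then (if #D = k + 1 then (1 : ℝ) else 0) else 0 := by
  have h := bonf (Q.filter (· ∣ n)) k
  have e : (Q.filter (· ∣ n)).powerset = Q.powerset.filter (fun D => ∀ p ∈ D, p ∣ n) := by
    ext D
    simp only [mem_powerset, mem_filter, subset_iff]
    exact ⟨fun h => ⟨fun _ hx => (h hx).1, fun _ hx => (h hx).2⟩, fun h _ hx => ⟨h.1 hx, h.2 _ hx⟩⟩
  rw [e, sum_filter, sum_filter] at h
  simpa only [filter_eq_empty_iff] using h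

lemma tail_le (Q : Finset ℕ) (g : ℕ → ℝ) (hg : ∀ p ∈ Q, 0 ≤ g p) (k : ℕ) :
    ∑ D ∈ Q.powerset, (if k + 1 ≤ #D then ∏ p ∈ D, g p else 0) ≤
      Real.exp (2 * ∑ p ∈ Q, g p) / 2 ^ (k + 1) := by
  have h1 : ∑ D ∈ Q.powerset, ∏ p ∈ D, (2 * g p) ≤ Real.exp (2 * ∑ p ∈ Q, g p) := by
    rw [← prod_one_add, mul_sum, Real.exp_sum]
    exact prod_le_prod (fun p hp => by linarith [hg p hp]) fun p _ => by
      rw [add_comm]; exact Real.add_one_le_exp _
  rw [le_div_iff₀ (by positivity), sum_mul]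
  refine le_trans (sum_le_sum fun D hD => ?_) h1
  have h0 : 0 ≤ ∏ p ∈ D, g p := prod_nonneg fun p hp => hg p (mem_powerset.1 hD hp)
  rw [prod_mul_distrib, prod_const]
  split_ifs with h
  · rw [mul_comm]; gcongr; norm_num
  · rw [zero_mul]; positivity

lemma model_le (Q : Finset ℕ) (g : ℕ → ℝ) (hg : ∀ p ∈ Q, 0 ≤ g p) (k : ℕ) :
    |∑ D ∈ Q.powerset, (if #D ≤ k then (-1 : ℝ) ^ #D else 0) * ∏ p ∈ D, g p -
      ∏ p ∈ Q, (1 - g p)| +
      ∑ D ∈ Q.powerset, (if #D = k + 1 then (1 : ℝ) else 0) * ∏ p ∈ D, g p ≤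
      Real.exp (2 * ∑ p ∈ Q, g p) / 2 ^ k := by
  have h := tail_le Q g hg k
  have e : ∏ p ∈ Q, (1 - g p) = ∑ D ∈ Q.powerset, (-1 : ℝ) ^ #D * ∏ p ∈ D, g p := by
    simp only [sub_eq_add_neg]
    rw [prod_one_add]
    refine sum_congr rfl fun D _ => ?_
    rw [← prod_const, ← prod_mul_distrib]; simp
  have h0 : ∀ D ∈ Q.powerset, 0 ≤ ∏ p ∈ D, g p := fun D hD =>
    prod_nonneg fun p hp => hg p (mem_powerset.1 hD hp)
  have h1 : |∑ D ∈ Q.powerset, (if #D ≤ k then (-1 : ℝ) ^ #D else 0) * ∏ p ∈ D, g p -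
      ∏ p ∈ Q, (1 - g p)| ≤ ∑ D ∈ Q.powerset, (if k + 1 ≤ #D then ∏ p ∈ D, g p else 0) := by
    rw [e, ← sum_sub_distrib]
    refine (abs_sum_le_sum_abs _ _).trans (sum_le_sum fun D hD => ?_)
    by_cases hk : #D ≤ k
    · rw [if_pos hk, if_neg (by omega)]; simp
    · rw [if_neg hk, if_pos (by omega)]; simp [abs_mul, abs_of_nonneg (h0 D hD)]
  have h2 : ∑ D ∈ Q.powerset, (if #D = k + 1 then (1 : ℝ) else 0) * ∏ p ∈ D, g p ≤
      ∑ D ∈ Q.powerset, (if k + 1 ≤ #D then ∏ p ∈ D, g p else 0) := by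
    refine sum_le_sum fun D hD => ?_
    by_cases hk : #D = k + 1
    · rw [if_pos hk, if_pos hk.ge, one_mul]
    · rw [if_neg hk, zero_mul]; split_ifs; exacts [h0 D hD, le_rfl]
  rw [pow_succ, ← div_div] at h
  linarith

lemma forall_dvd_iff {D : Finset ℕ} (hD : ∀ p ∈ D, p.Prime) (n : ℕ) :
    (∀ p ∈ D, p ∣ n) ↔ ∏ p ∈ D, p ∣ n :=
  ⟨fun h => Finset.prod_primes_dvd n (fun p hp => (hD p hp).prime) h,
    fun h _ hp => (dvd_prod_of_mem _ hp).trans h⟩

lemma count_dvd {D : Finset ℕ} (hD : ∀ p ∈ D, p.Prime) {t : ℕ} (ht : 0 < t)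
    (hc : ∀ p ∈ D, ¬ p ∣ t) (j x : ℕ) :
    |(∑ n ∈ Ioc 0 x with n ≡ j [MOD t], if (∀ p ∈ D, p ∣ n) then (1 : ℝ) else 0) -
      x / t * ∏ p ∈ D, 1 / (p : ℝ)| ≤ 1 := by
  have co : Nat.Coprime t (∏ p ∈ D, p) :=
    Nat.Coprime.prod_right fun p hp => ((hD p hp).coprime_iff_not_dvd.2 (hc p hp)).symm
  have h := class_count 0 x (t * ∏ p ∈ D, p) (Nat.chineseRemainder co j 0)
    (Nat.mul_pos ht (prod_pos fun p hp => (hD p hp).pos))
  rw [zero_add] at h
  convert h using 3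
  · rw [← sum_filter, filter_filter, sum_const, nsmul_eq_mul, mul_one]
    congr 2
    refine filter_congr fun n _ => ?_
    rw [forall_dvd_iff hD, ← Nat.modEq_and_modEq_iff_modEq_mul co, ← Nat.modEq_zero_iff_dvd]
    exact ⟨fun h => ⟨h.1.trans (Nat.chineseRemainder co j 0).2.1.symm,
      h.2.trans (Nat.chineseRemainder co j 0).2.2.symm⟩,
      fun h => ⟨h.1.trans (Nat.chineseRemainder co j 0).2.1,
        h.2.trans (Nat.chineseRemainder co j 0).2.2⟩⟩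
  · simp [div_eq_mul_inv]; ring

lemma fl_core {z : ℕ} (hz : 1 ≤ z) {Q : Finset ℕ} (hQ : Q ⊆ primesLE z) {t : ℕ} (ht : 0 < t)
    (hc : ∀ p ∈ Q, ¬ p ∣ t) (j x k : ℕ) :
    |(∑ n ∈ Ioc 0 x with n ≡ j [MOD t], if (∀ p ∈ Q, ¬ p ∣ n) then (1 : ℝ) else 0) -
      x / t * ∏ p ∈ Q, (1 - 1 / (p : ℝ))| ≤
      x / t * (Real.exp (2 * ∑ p ∈ Q, 1 / (p : ℝ)) / 2 ^ k) + (z : ℝ) ^ (k + 1) := by
  set I := {n ∈ Ioc 0 x | n ≡ j [MOD t]} with hI
  set c : Finset ℕ → ℝ := fun D => ∑ n ∈ I, if (∀ p ∈ D, p ∣ n) then (1 : ℝ) else 0 with hcd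
  set s : Finset ℕ → ℝ := fun D => if #D ≤ k then (-1 : ℝ) ^ #D else 0 with hs
  set r : Finset ℕ → ℝ := fun D => if #D = k + 1 then (1 : ℝ) else 0 with hr
  set g : Finset ℕ → ℝ := fun D => ∏ p ∈ D, 1 / (p : ℝ) with hg
  have hcD : ∀ D ∈ Q.powerset, |c D - x / t * g D| ≤ 1 := fun D hD =>
    count_dvd (fun p hp => prime_of_mem_primesLE (hQ (mem_powerset.1 hD hp))) ht
      (fun p hp => hc p (mem_powerset.1 hD hp)) j x
  have e : ∀ w : Finset ℕ → ℝ, ∑ n ∈ I, ∑ D ∈ Q.powerset, (if (∀ p ∈ D, p ∣ n) then w D else 0) =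
      ∑ D ∈ Q.powerset, w D * c D := by
    intro w
    rw [sum_comm]
    simp only [hcd, mul_sum, mul_ite, mul_one, mul_zero]
  have h1 : |(∑ n ∈ I, if (∀ p ∈ Q, ¬ p ∣ n) then (1 : ℝ) else 0) - ∑ D ∈ Q.powerset, s D * c D| ≤
      ∑ D ∈ Q.powerset, r D * c D := by
    rw [← e, ← e, ← sum_sub_distrib]
    exact (abs_sum_le_sum_abs _ _).trans (sum_le_sum fun n _ => bonf_dvd Q k n)
  have h2 := mul_le_mul_of_nonneg_left (model_le Q (fun p => 1 / (p : ℝ))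
    (fun p _ => by positivity) k) (show (0 : ℝ) ≤ x / t by positivity)
  rw [mul_add, ← abs_of_nonneg (show (0 : ℝ) ≤ x / t by positivity), ← abs_mul,
    abs_of_nonneg (show (0 : ℝ) ≤ x / t by positivity), mul_sub] at h2
  have h3 : |∑ D ∈ Q.powerset, s D * c D - x / t * ∑ D ∈ Q.powerset, s D * g D| +
      (∑ D ∈ Q.powerset, r D * c D - x / t * ∑ D ∈ Q.powerset, r D * g D) ≤ (z : ℝ) ^ (k + 1) := by
    have h4 : (#{D ∈ Q.powerset | #D ≤ k + 1} : ℝ) ≤ (z : ℝ) ^ (k + 1) := by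
      exact_mod_cast card_small hz hQ (k + 1)
    refine le_trans ?_ h4
    rw [mul_sum, mul_sum, ← sum_sub_distrib, ← sum_sub_distrib, card_filter]
    push_cast
    refine (add_le_add (abs_sum_le_sum_abs _ _) le_rfl).trans ?_
    rw [← sum_add_distrib]
    refine sum_le_sum fun D hD => ?_
    have := hcD D hD
    rw [mul_left_comm, mul_left_comm _ (r D), ← mul_sub, ← mul_sub, abs_mul]
    simp only [hs, hr]
    by_cases a : #D ≤ k
    · rw [if_pos a, if_neg (by omega), if_pos (by omega)]; simpa using this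
    · by_cases b : #D = k + 1
      · rw [if_neg a, if_pos b, if_pos b.le]; simpa using (le_abs_self _).trans this
      · rw [if_neg a, if_neg b, if_neg (by omega)]; simp
  have t1 := abs_sub_le (∑ n ∈ I, if (∀ p ∈ Q, ¬ p ∣ n) then (1 : ℝ) else 0)
    (∑ D ∈ Q.powerset, s D * c D) (x / t * ∏ p ∈ Q, (1 - 1 / (p : ℝ)))
  have t2 := abs_sub_le (∑ D ∈ Q.powerset, s D * c D) (x / t * ∑ D ∈ Q.powerset, s D * g D)
    (x / t * ∏ p ∈ Q, (1 - 1 / (p : ℝ)))
  linarith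

/-- the model for the primes -/
noncomputable def lsh (z n : ℕ) : ℝ := if ∀ p ∈ primesLE z, ¬ p ∣ n then (th z)⁻¹ else 0

lemma lsh_nonneg (z n : ℕ) : 0 ≤ lsh z n := by
  unfold lsh; split_ifs; exacts [(inv_pos.2 (th_pos z)).le, le_rfl]

lemma lsh_le (z n : ℕ) : lsh z n ≤ (th z)⁻¹ := by
  unfold lsh; split_ifs; exacts [le_rfl, (inv_pos.2 (th_pos z)).le]

/-- expected density of the model in a class -/
noncomputable def rho (z t j : ℕ) : ℝ :=
  if ∀ p ∈ primesLE z, p ∣ t → ¬ p ∣ j then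
    ((t : ℝ) * ∏ p ∈ primesLE z with p ∣ t, (1 - 1 / (p : ℝ)))⁻¹ else 0

lemma lsh_class {z : ℕ} (hz : 1 ≤ z) {t : ℕ} (ht : 0 < t) (j x k : ℕ) :
    |∑ n ∈ Ioc 0 x with n ≡ j [MOD t], lsh z n - x * rho z t j| ≤
      (th z)⁻¹ * (x / t * (Real.exp (2 * ∑ p ∈ primesLE z, 1 / (p : ℝ)) / 2 ^ k) +
        (z : ℝ) ^ (k + 1)) := by
  have hth := th_pos z
  unfold rho
  split_ifs with h
  · have h1 := fl_core hz (Q := (primesLE z).filter (¬ · ∣ t)) (filter_subset _ _) ht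
      (fun p hp => (mem_filter.1 hp).2) j x k
    have e1 : ∑ n ∈ Ioc 0 x with n ≡ j [MOD t], lsh z n = (th z)⁻¹ *
        ∑ n ∈ Ioc 0 x with n ≡ j [MOD t],
          if (∀ p ∈ (primesLE z).filter (¬ · ∣ t), ¬ p ∣ n) then (1 : ℝ) else 0 := by
      rw [mul_sum]
      refine sum_congr rfl fun n hn => ?_
      rw [lsh, mul_ite, mul_one, mul_zero]
      refine if_congr ⟨fun h' p hp => h' p (mem_filter.1 hp).1, fun h' p hp hn' => ?_⟩ rfl rfl
      by_cases hpt : p ∣ t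
      · exact h p hp hpt (((mem_filter.1 hn).2.dvd_iff hpt).1 hn')
      · exact h' p (mem_filter.2 ⟨hp, hpt⟩) hn'
    have e2 := prod_filter_mul_prod_filter_not (primesLE z) (· ∣ t) (fun p => 1 - 1 / (p : ℝ))
    have p1 : 0 < ∏ p ∈ primesLE z with p ∣ t, (1 - 1 / (p : ℝ)) :=
      prod_pos fun p hp => factor_pos (prime_of_mem_primesLE (mem_filter.1 hp).1)
    have p2 : 0 < ∏ p ∈ primesLE z with ¬ p ∣ t, (1 - 1 / (p : ℝ)) :=
      prod_pos fun p hp => factor_pos (prime_of_mem_primesLE (mem_filter.1 hp).1)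
    have e3 : x * ((t : ℝ) * ∏ p ∈ primesLE z with p ∣ t, (1 - 1 / (p : ℝ)))⁻¹ =
        (th z)⁻¹ * (x / t * ∏ p ∈ primesLE z with ¬ p ∣ t, (1 - 1 / (p : ℝ))) := by
      rw [th, ← e2]; field_simp
    rw [e1, e3, ← mul_sub, abs_mul, abs_of_pos (inv_pos.2 hth)]
    refine mul_le_mul_of_nonneg_left (h1.trans ?_) (inv_pos.2 hth).le
    gcongr
    exact filter_subset _ _
  · push Not at h
    obtain ⟨p, hp, hpt, hpj⟩ := h
    rw [sum_eq_zero fun n hn => by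
      rw [lsh, if_neg fun h' => h' p hp (((mem_filter.1 hn).2.dvd_iff hpt).2 hpj)]]
    simp only [mul_zero, sub_self, abs_zero]
    positivity

lemma th_inv_le (z : ℕ) : (th z)⁻¹ ≤ Real.exp (2 * ∑ p ∈ primesLE z, 1 / (p : ℝ)) := by
  have := prod_factor_ge (P := primesLE z) fun p hp => prime_of_mem_primesLE hp
  rw [Real.exp_neg] at this
  rw [← inv_inv (Real.exp _)]
  exact inv_anti₀ (by positivity) this

lemma ev_params (A B : ℕ) : ∀ᶠ L : ℝ in atTop, ∃ k : ℕ, ∀ z : ℕ, (z : ℝ) ≤ L ^ B →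
    Real.exp (4 * ∑ p ∈ primesLE z, 1 / (p : ℝ)) ≤ L ∧ L ^ A ≤ 2 ^ k ∧
      (z : ℝ) ^ (k + 1) ≤ Real.exp √L := by
  have t1 : ∀ (c : ℝ) (m : ℕ), ∀ᶠ L : ℝ in atTop, c * Real.log L ^ m ≤ √L := by
    intro c m
    have h := (isLittleO_log_rpow_rpow_atTop (m : ℝ) (show (0 : ℝ) < 1 / 2 by norm_num)).bound
      (show 0 < 1 / (|c| + 1) by positivity)
    filter_upwards [h, eventually_ge_atTop 1] with L h1 h2
    have h3 := Real.log_nonneg h2
    rw [Real.rpow_natCast, ← Real.sqrt_eq_rpow, Real.norm_of_nonneg (by positivity),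
      Real.norm_of_nonneg (by positivity), one_div, inv_mul_eq_div,
      le_div_iff₀ (by positivity)] at h1
    refine le_trans ?_ h1
    rw [mul_comm]; gcongr; linarith [le_abs_self c]
  filter_upwards [t1 (Real.exp 152 * (1 + B) ^ 4) 4, t1 (B * (3 * A + 1)) 2,
    eventually_ge_atTop (Real.exp 1)] with L h1 h2 h3
  have hL1 : 1 ≤ L := le_trans (Real.one_le_exp zero_le_one) h3
  have hl : 1 ≤ Real.log L := by rw [Real.le_log_iff_exp_le (by linarith)]; exact h3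
  refine ⟨A * ⌈2 * Real.log L⌉₊, fun z hz => ⟨?_, ?_, ?_⟩⟩
  · have h4 := MP_be93de_nt.mertens2 z
    have h5 : Real.log z ≤ B * Real.log L := by
      rcases Nat.eq_zero_or_pos z with rfl | h0
      · simp; positivity
      · rw [← Real.log_pow]; exact Real.log_le_log (by exact_mod_cast h0) hz
    have h6 := Real.log_natCast_nonneg z
    calc _ ≤ Real.exp (((4 : ℕ) : ℝ) * Real.log (1 + Real.log z) + 152) := by
          gcongr; push_cast; linarith
      _ = (1 + Real.log z) ^ 4 * Real.exp 152 := by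
          rw [Real.exp_add, Real.exp_nat_mul, Real.exp_log (by linarith)]
      _ ≤ ((1 + B) * Real.log L) ^ 4 * Real.exp 152 := by gcongr; linarith
      _ ≤ √L := by rw [mul_pow]; linarith
      _ ≤ L := by rw [Real.sqrt_le_iff]; constructor <;> nlinarith
  · rw [mul_comm, pow_mul]
    gcongr
    calc L = Real.exp (Real.log L) := (Real.exp_log (by linarith)).symm
      _ ≤ Real.exp (⌈2 * Real.log L⌉₊ * Real.log 2) := by
          gcongr; nlinarith [Nat.le_ceil (2 * Real.log L), Real.log_two_gt_d9]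
      _ = _ := by rw [Real.exp_nat_mul, Real.exp_log two_pos]
  · have h4 := (Nat.ceil_lt_add_one (show 0 ≤ 2 * Real.log L by linarith)).le
    calc _ ≤ (L ^ B) ^ (A * ⌈2 * Real.log L⌉₊ + 1) := by gcongr
      _ = Real.exp (((B * (A * ⌈2 * Real.log L⌉₊ + 1) : ℕ) : ℝ) * Real.log L) := by
          rw [Real.exp_nat_mul, Real.exp_log (by linarith), pow_mul]
      _ ≤ _ := by
          gcongr
          refine le_trans ?_ h2
          push_cast
          calc _ ≤ B * (A * (3 * Real.log L) + Real.log L) * Real.log L := by gcongr; linarith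
            _ = _ := by ring

end Pool.Agent.Lib.SW
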